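import Pool.Agent.Helper27.REC.StmtsT

/-!
# Reciprocity, row DNE
-/

set_option autoImplicit false

open scoped Classical
open NumberField Polynomial

namespace REC

open MU

namespace DNEw

section Conj

variable {G K : Type} [Group G] [Field K] {n : ℕ}

/-- the conjugated representation -/
def cj (r : G →* Matrix (Fin n) (Fin n) K) (P P' : Matrix (Fin n) (Fin n) K) (h : P * P' = 1) :
    G →* Matrix (Fin n) (Fin n) K where
  toFun g := P' * r g * P
  map_one' := by rw [map_one, Matrix.mul_one, mul_eq_one_comm.1 h]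
  map_mul' a b := by
    rw [map_mul]
    calc P' * (r a * r b) * P = P' * (r a * 1 * r b) * P := by rw [Matrix.mul_one]
      _ = P' * r a * P * (P' * r b * P) := by rw [← h]; simp only [Matrix.mul_assoc]

lemma cj_apply (r : G →* Matrix (Fin n) (Fin n) K) (P P' : Matrix (Fin n) (Fin n) K)
    (h : P * P' = 1) (g : G) : cj r P P' h g = P' * r g * P := rfl

lemma prm_cj (r : G →* Matrix (Fin n) (Fin n) K) (P P' : Matrix (Fin n) (Fin n) K)
    (h : P * P' = 1) (hr : Prm r) : Prm (cj r P P' h) := by
  have h' : P' * P = 1 := mul_eq_one_comm.1 h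
  refine ⟨?_, ?_⟩
  · intro m B A hB
    obtain ⟨⟨C, hC⟩, hB⟩ := hB
    refine hr.1 m (P * B) A ⟨⟨C * P', ?_⟩, fun g => ?_⟩
    · calc C * P' * (P * B) = C * (P' * P) * B := by simp only [Matrix.mul_assoc]
        _ = 1 := by rw [h', Matrix.mul_one, hC]
    · have h1 := hB g
      rw [cj_apply] at h1
      calc r g * (P * B) = 1 * r g * P * B := by rw [Matrix.one_mul, Matrix.mul_assoc]
        _ = P * (P' * r g * P * B) := by rw [← h]; simp only [Matrix.mul_assoc]
        _ = P * B * A g := by rw [h1, Matrix.mul_assoc]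
  · intro N W h1 h2 h3 h4
    let e : (Fin n → K) ≃ₗ[K] (Fin n → K) :=
      { P.mulVecLin with
        invFun := P'.mulVec
        left_inv := fun x => by
          show P'.mulVec (P.mulVec x) = x
          rw [Matrix.mulVec_mulVec, h', Matrix.one_mulVec]
        right_inv := fun x => by
          show P.mulVec (P'.mulVec x) = x
          rw [Matrix.mulVec_mulVec, h, Matrix.one_mulVec] }
    have he : ∀ x, e x = P.mulVec x := fun x => rfl
    refine hr.2 N (fun j => (W j).map (e : (Fin n → K) →ₗ[K] (Fin n → K))) ?_ ?_ ?_ ?_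
    · intro g j
      obtain ⟨j', hj'⟩ := h1 g j
      refine ⟨j', ?_⟩
      rintro x ⟨y, hy, rfl⟩
      refine ⟨(cj r P P' h g).mulVec y, hj' y hy, ?_⟩
      show P.mulVec ((P' * r g * P).mulVec y) = (r g).mulVec (P.mulVec y)
      rw [Matrix.mulVec_mulVec, Matrix.mulVec_mulVec, ← Matrix.mul_assoc, ← Matrix.mul_assoc, h,
        Matrix.one_mul]
    · exact (iSupIndep_map_orderIso_iff (Submodule.orderIsoMapComap e)).2 h2
    · rw [← Submodule.map_iSup, h3, Submodule.map_top]
      exact LinearMap.range_eq_top.2 e.surjective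
    · intro j hj
      apply h4 j
      rw [eq_bot_iff]
      intro x hx
      have h5 : (e : (Fin n → K) →ₗ[K] (Fin n → K)) x ∈
          (W j).map (e : (Fin n → K) →ₗ[K] (Fin n → K)) := Submodule.mem_map_of_mem hx
      have h6 : (W j).map (e : (Fin n → K) →ₗ[K] (Fin n → K)) = ⊥ := hj
      rw [h6, Submodule.mem_bot] at h5
      exact (Submodule.mem_bot K).2 ((e.map_eq_zero_iff).1 h5)

lemma evp (α : Fin n → K) (μ : K) :
    (∏ x, (Polynomial.X - C (α x))).eval μ = ∏ x, (μ - α x) := by
  rw [Polynomial.eval_prod]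
  simp

lemma exists_diag (A : Matrix (Fin n) (Fin n) K) (α : Fin n → K) (hα : Function.Injective α)
    (hA : A.charpoly = ∏ x, (Polynomial.X - C (α x))) :
    ∃ P P' : Matrix (Fin n) (Fin n) K, P * P' = 1 ∧ P' * A * P = Matrix.diagonal α := by
  have h1 : ∀ x, ∃ v : Fin n → K, v ≠ 0 ∧ (Matrix.scalar (Fin n) (α x) - A).mulVec v = 0 := by
    intro x
    rw [Matrix.exists_mulVec_eq_zero_iff, ← Matrix.eval_charpoly, hA, evp]
    exact Finset.prod_eq_zero (Finset.mem_univ x) (sub_self _)
  choose v hv hv' using h1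
  have h2 : ∀ x, A.mulVec (v x) = α x • v x := by
    intro x
    have h3 := hv' x
    rw [Matrix.sub_mulVec, sub_eq_zero] at h3
    rw [← h3]
    ext i
    simp [Matrix.mulVec_diagonal, Matrix.scalar_apply]
  have h3 : LinearIndependent K v :=
    Module.End.eigenvectors_linearIndependent' (Matrix.toLin' A) α hα v
      (fun x => ⟨Module.End.mem_eigenspace_iff.2 (by rw [Matrix.toLin'_apply]; exact h2 x), hv x⟩)
  set P : Matrix (Fin n) (Fin n) K := Matrix.of fun i x => v x i with hP
  have h4 : IsUnit P := Matrix.linearIndependent_cols_iff_isUnit.1 h3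
  obtain ⟨P', hP'⟩ := h4.exists_right_inv
  refine ⟨P, P', hP', ?_⟩
  have h5 : A * P = P * Matrix.diagonal α := by
    ext i x
    rw [Matrix.mul_diagonal]
    have := congrFun (h2 x) i
    rw [Pi.smul_apply, smul_eq_mul] at this
    show A.mulVec (v x) i = v x i * α x
    rw [this, mul_comm]
  rw [Matrix.mul_assoc, h5, ← Matrix.mul_assoc, mul_eq_one_comm.1 hP', Matrix.one_mul]

lemma root_ne_zero (A : Matrix (Fin n) (Fin n) K) (α : Fin n → K) (hd : A.det ≠ 0)
    (hA : A.charpoly = ∏ x, (Polynomial.X - C (α x))) (x : Fin n) : α x ≠ 0 := by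
  intro h0
  have h1 := Matrix.eval_charpoly A 0
  rw [hA, evp, Finset.prod_eq_zero (Finset.mem_univ x) (by rw [h0, sub_self])] at h1
  have h2 : Matrix.scalar (Fin n) (0 : K) - A = -A := by
    rw [map_zero, zero_sub]
  rw [h2, Matrix.det_neg] at h1
  exact mul_ne_zero (pow_ne_zero _ (neg_ne_zero.2 one_ne_zero)) hd h1.symm

lemma partner (A J : Matrix (Fin n) (Fin n) K) (q : K) (α : Fin n → K) (hd : A.det ≠ 0)
    (hJ : J.det ≠ 0) (hAJ : A.transpose * J * A = q • J)
    (hA : A.charpoly = ∏ x, (Polynomial.X - C (α x))) (x : Fin n) : ∃ z, α x * α z = q := by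
  have hx := root_ne_zero A α hd hA x
  have h1 := Matrix.eval_charpoly A (α x)
  rw [hA, evp, Finset.prod_eq_zero (Finset.mem_univ x) (sub_self _)] at h1
  have hs : ∀ c : K, Matrix.scalar (Fin n) c = c • (1 : Matrix (Fin n) (Fin n) K) := fun c => by
    rw [Matrix.scalar_apply, Matrix.smul_one_eq_diagonal]
  have h2 : (Matrix.scalar (Fin n) (q / α x) - A.transpose) * (α x • (J * A)) =
      (-q) • (J * (Matrix.scalar (Fin n) (α x) - A)) := by
    rw [hs, hs, Matrix.sub_mul, Matrix.mul_sub, Matrix.smul_mul, Matrix.one_mul, smul_smul,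
      div_mul_cancel₀ _ hx, Matrix.mul_smul, Matrix.mul_smul, Matrix.mul_one,
      ← Matrix.mul_assoc, hAJ, smul_sub, smul_smul, smul_smul, neg_smul, sub_neg_eq_add, neg_mul,
      neg_smul, mul_comm (α x) q]
    abel
  have h3 := congrArg Matrix.det h2
  rw [Matrix.det_mul, Matrix.det_smul (J * (_ - _)), Matrix.det_mul J (_ - _), ← h1, mul_zero,
    mul_zero] at h3
  have h4 : (α x • (J * A)).det ≠ 0 := by
    rw [Matrix.det_smul, Matrix.det_mul]
    exact mul_ne_zero (pow_ne_zero _ hx) (mul_ne_zero hJ hd)
  have h5 := (mul_eq_zero.1 h3).resolve_right h4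
  rw [← Matrix.eval_charpoly, Matrix.charpoly_transpose, hA, evp] at h5
  obtain ⟨z, -, hz⟩ := Finset.prod_eq_zero_iff.1 h5
  refine ⟨z, ?_⟩
  rw [← sub_eq_zero.1 hz, mul_div_cancel₀ _ hx]

end Conj

section Dist

variable {K : Type} [Field K] {t : ℕ} {m : Fin t → ℕ}

lemma prod_single (α : ∀ i, Fin (m i) → K) (hα : ∀ i x, α i x ≠ 0) (i : Fin t)
    (x y : Fin (m i)) (hxy : α i x = α i y) :
    ∏ i', ∏ x', α i' x' ^ (Pi.single (M := fun i => Fin (m i) → ℤ) i
      (Pi.single x 1 - Pi.single y 1)) i' x' = 1 := by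
  rw [Finset.prod_eq_single i]
  · rw [Pi.single_eq_same]
    have h1 : ∀ x', α i x' ^ ((Pi.single x 1 - Pi.single y 1 : Fin (m i) → ℤ) x') =
        α i x' ^ ((Pi.single x 1 : Fin (m i) → ℤ) x') *
          (α i x' ^ ((Pi.single y 1 : Fin (m i) → ℤ) x'))⁻¹ := by
      intro x'
      rw [Pi.sub_apply, zpow_sub₀ (hα i x'), div_eq_mul_inv]
    have h2 : ∀ z : Fin (m i), ∏ x', α i x' ^ ((Pi.single z 1 : Fin (m i) → ℤ) x') = α i z := by
      intro z
      rw [Finset.prod_eq_single z]
      · rw [Pi.single_eq_same, zpow_one]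
      · intro b _ hb
        rw [Pi.single_eq_of_ne hb, zpow_zero]
      · intro h; exact absurd (Finset.mem_univ _) h
    rw [Finset.prod_congr rfl fun x' _ => h1 x', Finset.prod_mul_distrib, Finset.prod_inv_distrib,
      h2, h2, hxy, mul_inv_cancel₀ (hα i y)]
  · intro b _ hb
    refine Finset.prod_eq_one fun x' _ => ?_
    rw [Pi.single_eq_of_ne hb, Pi.zero_apply, zpow_zero]
  · intro h; exact absurd (Finset.mem_univ _) h

lemma inj_of_noRel (z : Fin t → Prop) (q : Fin t → K) (D : ℕ) (α : ∀ i, Fin (m i) → K)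
    (hα : ∀ i x, α i x ≠ 0) (hD : 2 ≤ D) (hN : NoRel z q D α)
    (hp : ∀ i, ¬ z i → ∀ x, ∃ w, α i x * α i w = q i) (i : Fin t) :
    Function.Injective (α i) := by
  intro x y hxy
  by_contra hne
  have h1 := hN (Pi.single (M := fun i => Fin (m i) → ℤ) i (Pi.single x 1 - Pi.single y 1)) ?_ ?_
    (prod_single α hα i x y hxy)
  · have hx : (Pi.single (M := fun i => Fin (m i) → ℤ) i (Pi.single x 1 - Pi.single y 1)) i x =
        1 := by
      rw [Pi.single_eq_same, Pi.sub_apply, Pi.single_eq_same, Pi.single_eq_of_ne hne, sub_zero]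
    have hy : (Pi.single (M := fun i => Fin (m i) → ℤ) i (Pi.single x 1 - Pi.single y 1)) i y =
        -1 := by
      rw [Pi.single_eq_same, Pi.sub_apply, Pi.single_eq_same, Pi.single_eq_of_ne (Ne.symm hne),
        zero_sub]
    by_cases hz : z i
    · have := (h1 i x).1 hz
      rw [hx] at this
      exact one_ne_zero this
    · obtain ⟨w, hw⟩ := hp i hz x
      have e1 := (h1 i x).2 hz w hw
      have e2 := (h1 i y).2 hz w (by rw [← hxy]; exact hw)
      rw [hx] at e1
      rw [hy, ← e1] at e2
      norm_num at e2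
  · intro i' x'
    by_cases hi : i' = i
    · subst hi
      rw [Pi.single_eq_same, Pi.sub_apply]
      have hD' : (2 : ℤ) ≤ D := by exact_mod_cast hD
      have h0 : ∀ u : Fin (m i'), |(Pi.single u 1 : Fin (m i') → ℤ) x'| ≤ 1 := by
        intro u
        by_cases hu : x' = u
        · rw [hu, Pi.single_eq_same]; norm_num
        · rw [Pi.single_eq_of_ne hu]; norm_num
      have := abs_sub ((Pi.single x 1 : Fin (m i') → ℤ) x') ((Pi.single y 1 : Fin (m i') → ℤ) x')
      have hx := h0 x
      have hy := h0 y
      linarith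
    · rw [Pi.single_eq_of_ne hi, Pi.zero_apply, abs_zero]
      exact Int.natCast_nonneg D
  · intro i'
    by_cases hi : i' = i
    · subst hi
      rw [Pi.single_eq_same]
      simp
    · rw [Pi.single_eq_of_ne hi]
      simp

end Dist

section Transport

variable {K : Type} [Field K] {n : ℕ}

lemma form_cj (P P' J X : Matrix (Fin n) (Fin n) K) (h : P * P' = 1) :
    (P' * X * P).transpose * (P.transpose * J * P) + (P.transpose * J * P) * (P' * X * P) =
      P.transpose * (X.transpose * J + J * X) * P := by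
  have h1 : P'.transpose * P.transpose = 1 := by
    rw [← Matrix.transpose_mul, h, Matrix.transpose_one]
  have e1 : (P' * X * P).transpose * (P.transpose * J * P) =
      P.transpose * (X.transpose * J) * P := by
    rw [Matrix.transpose_mul, Matrix.transpose_mul]
    calc P.transpose * (X.transpose * P'.transpose) * (P.transpose * J * P)
        = P.transpose * X.transpose * (P'.transpose * P.transpose) * J * P := by
          simp only [Matrix.mul_assoc]
      _ = _ := by rw [h1, Matrix.mul_one]; simp only [Matrix.mul_assoc]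
  have e2 : (P.transpose * J * P) * (P' * X * P) = P.transpose * (J * X) * P := by
    calc (P.transpose * J * P) * (P' * X * P)
        = P.transpose * J * (P * P') * X * P := by simp only [Matrix.mul_assoc]
      _ = _ := by rw [h, Matrix.mul_one]; simp only [Matrix.mul_assoc]
  rw [e1, e2, Matrix.mul_add, Matrix.add_mul]

lemma form_cj' (P P' J A : Matrix (Fin n) (Fin n) K) (h : P * P' = 1) :
    (P' * A * P).transpose * (P.transpose * J * P) * (P' * A * P) =
      P.transpose * (A.transpose * J * A) * P := by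
  have h1 : P'.transpose * P.transpose = 1 := by
    rw [← Matrix.transpose_mul, h, Matrix.transpose_one]
  rw [Matrix.transpose_mul, Matrix.transpose_mul]
  calc P.transpose * (A.transpose * P'.transpose) * (P.transpose * J * P) * (P' * A * P)
      = P.transpose * A.transpose * (P'.transpose * P.transpose) * J * (P * P') * A * P := by
        simp only [Matrix.mul_assoc]
    _ = _ := by rw [h1, h, Matrix.mul_one, Matrix.mul_one]; simp only [Matrix.mul_assoc]

lemma form_back (P P' J : Matrix (Fin n) (Fin n) K) (h : P * P' = 1) :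
    P'.transpose * (P.transpose * J * P) * P' = J := by
  have h1 : P'.transpose * P.transpose = 1 := by
    rw [← Matrix.transpose_mul, h, Matrix.transpose_one]
  calc P'.transpose * (P.transpose * J * P) * P' =
      (P'.transpose * P.transpose) * J * (P * P') := by simp only [Matrix.mul_assoc]
    _ = J := by rw [h1, h, Matrix.one_mul, Matrix.mul_one]

end Transport

end DNEw

open DNEw

theorem DNE (hTMB : ST_TMB) (hDND : ST_DND) : ST_DNE := by
  intro G K _ _ t m J R q g₀ α c₁ c₁' c₂ c₂' D h2 hk hJ hF hP hc hN hD hcD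
  -- the matrices are invertible
  have hdet : ∀ i g, (R i g).det ≠ 0 := by
    intro i g h0
    have h1 : R i g * R i g⁻¹ = 1 := by rw [← map_mul, mul_inv_cancel, map_one]
    have h3 := congrArg Matrix.det h1
    rw [Matrix.det_mul, h0, zero_mul, Matrix.det_one] at h3
    exact zero_ne_one h3
  have hα : ∀ i x, α i x ≠ 0 := fun i x => root_ne_zero _ _ (hdet i g₀) (hc i) x
  -- the forms
  have hmap : ∀ i, J i = 0 → jm K J i = 0 := by
    intro i h0
    show (J i).map (Int.castRingHom K) = 0
    rw [h0]
    ext a b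
    simp
  have horth : ∀ i, J i ≠ 0 → jm K J i * (jm K J i).transpose = 1 := by
    intro i h0
    have h1 := ((hJ i).2.resolve_left h0).1
    have h3 := congrArg (fun M => Matrix.map M (Int.castRingHom K)) h1
    rw [Matrix.map_mul, Matrix.transpose_map] at h3
    show (J i).map (Int.castRingHom K) * ((J i).map (Int.castRingHom K)).transpose = 1
    rw [h3]
    simp
  have hJdet : ∀ i, J i ≠ 0 → (jm K J i).det ≠ 0 := by
    intro i h0 hd
    have h3 := congrArg Matrix.det (horth i h0)
    rw [Matrix.det_mul, hd, zero_mul, Matrix.det_one] at h3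
    exact zero_ne_one h3
  have hinj : ∀ i, Function.Injective (α i) := inj_of_noRel _ _ D α hα hD hN
    (fun i hi x => partner (R i g₀) (jm K J i) (q i g₀) (α i) (hdet i g₀) (hJdet i hi)
      ((hF i g₀).1) (hc i) x)
  choose P P' hPP hdiag using fun i => exists_diag (R i g₀) (α i) (hinj i) (hc i)
  have hPP' : ∀ i, P' i * P i = 1 := fun i => mul_eq_one_comm.1 (hPP i)
  set R' : ∀ i, G →* Matrix (Fin (m i)) (Fin (m i)) K := fun i => cj (R i) (P i) (P' i) (hPP i)
    with hR'
  set J' : MM m K := fun i => (P i).transpose * jm K J i * P i with hJ'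
  have hR'a : ∀ i g, R' i g = P' i * R i g * P i := fun i g => rfl
  have hPdet : ∀ i, (P i).det ≠ 0 := by
    intro i hd
    have h3 := congrArg Matrix.det (hPP i)
    rw [Matrix.det_mul, hd, zero_mul, Matrix.det_one] at h3
    exact zero_ne_one h3
  have hJ'0 : ∀ i, J' i = 0 ↔ J i = 0 := by
    intro i
    constructor
    · intro h0
      by_contra hne
      have h3 := congrArg Matrix.det h0
      have hpos := (hJ i).1
      have : Nonempty (Fin (m i)) := ⟨⟨0, hpos⟩⟩
      rw [Matrix.det_zero, hJ'] at h3
      simp only [Matrix.det_mul, Matrix.det_transpose] at h3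
      exact mul_ne_zero (mul_ne_zero (hPdet i) (hJdet i hne)) (hPdet i) h3
    · intro h0
      show (P i).transpose * jm K J i * P i = 0
      rw [hmap i h0, Matrix.mul_zero, Matrix.zero_mul]
  have hrdet : ∀ i g, (R' i g).det = (R i g).det := by
    intro i g
    rw [hR'a, Matrix.det_mul, Matrix.det_mul, mul_comm, ← mul_assoc, ← Matrix.det_mul, hPP,
      Matrix.det_one, one_mul]
  have hjm0 : ∀ i, jm K J i ≠ 0 → J i ≠ 0 := fun i h h0 => h (hmap i h0)
  have hjm1 : ∀ i, J i ≠ 0 → jm K J i ≠ 0 := by
    intro i h h0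
    have hpos := (hJ i).1
    have : Nonempty (Fin (m i)) := ⟨⟨0, hpos⟩⟩
    apply hJdet i h
    rw [h0, Matrix.det_zero]
  have key : Dns J' R' c₁ c₁' c₂ c₂' := by
    refine hDND G K t m J' R' q g₀ α c₁ c₁' c₂ c₂' D h2 hk ?_ ?_ ?_ ?_ ?_ hD hcD
    · intro i
      refine ⟨(hJ i).1, ?_⟩
      by_cases h0 : J i = 0
      · exact Or.inl ((hJ'0 i).2 h0)
      · refine Or.inr ⟨?_, ?_⟩
        · rw [isUnit_iff_ne_zero, hJ']
          simp only [Matrix.det_mul, Matrix.det_transpose]
          exact mul_ne_zero (mul_ne_zero (hPdet i) (hJdet i h0)) (hPdet i)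
        · have hT : (J' i).transpose = (P i).transpose * (jm K J i).transpose * P i := by
            rw [hJ']
            simp only [Matrix.transpose_mul, Matrix.transpose_transpose, Matrix.mul_assoc]
          rcases ((hJ i).2.resolve_left h0).2 with h1 | h1
          · left
            rw [hT]
            have : (jm K J i).transpose = jm K J i := by
              show ((J i).map (Int.castRingHom K)).transpose = (J i).map (Int.castRingHom K)
              rw [← Matrix.transpose_map, h1]
            rw [this]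
          · right
            rw [hT]
            have : (jm K J i).transpose = -jm K J i := by
              show ((J i).map (Int.castRingHom K)).transpose = -(J i).map (Int.castRingHom K)
              rw [← Matrix.transpose_map, h1]
              ext a b
              simp
            rw [this, Matrix.mul_neg, Matrix.neg_mul]
    · intro i g
      refine ⟨?_, ?_⟩
      · rw [hR'a, hJ']
        show (P' i * R i g * P i).transpose * ((P i).transpose * jm K J i * P i) *
          (P' i * R i g * P i) = _
        rw [form_cj' _ _ _ _ (hPP i), (hF i g).1, Matrix.mul_smul, Matrix.smul_mul]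
      · intro h0 r hr
        rw [hrdet]
        exact (hF i g).2 (hjm1 i fun h => h0 ((hJ'0 i).2 h)) r hr
    · exact fun i => prm_cj _ _ _ _ (hP i)
    · exact fun i => hdiag i
    · have : (fun i => J' i = 0) = fun i => J i = 0 := funext fun i => propext (hJ'0 i)
      rw [this]
      exact hN
  -- transport of the Lie algebras
  have hG1 : ∀ X : MM m K, InG (jm K J) X → InG J' (fun i => P' i * X i * P i) := by
    intro X hX i
    obtain ⟨a, ha⟩ := hX i
    refine ⟨a, ?_⟩
    show (P' i * X i * P i).transpose * ((P i).transpose * jm K J i * P i) +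
      ((P i).transpose * jm K J i * P i) * (P' i * X i * P i) = a • _
    rw [form_cj _ _ _ _ (hPP i), ha, Matrix.mul_smul, Matrix.smul_mul]
  have hG2 : ∀ X : MM m K, InG J' X → InG (jm K J) (fun i => P i * X i * P' i) := by
    intro X hX i
    obtain ⟨a, ha⟩ := hX i
    refine ⟨a, ?_⟩
    show (P i * X i * P' i).transpose * jm K J i + jm K J i * (P i * X i * P' i) = a • _
    have h1 := form_cj (P' i) (P i) (J' i) (X i) (hPP' i)
    have h3 : (P' i).transpose * J' i * P' i = jm K J i := form_back _ _ _ (hPP i)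
    rw [h3, ha, Matrix.mul_smul, Matrix.smul_mul, h3] at h1
    exact h1
  have hS1 : ∀ X : MM m K, InS (jm K J) X → InS J' (fun i => P' i * X i * P i) := by
    intro X hX i
    obtain ⟨ht, hf⟩ := hX i
    refine ⟨?_, ?_⟩
    · show (P' i * X i * P i).trace = 0
      rw [Matrix.trace_mul_comm, ← Matrix.mul_assoc, hPP, Matrix.one_mul, ht]
    · show (P' i * X i * P i).transpose * ((P i).transpose * jm K J i * P i) +
        ((P i).transpose * jm K J i * P i) * (P' i * X i * P i) = 0
      rw [form_cj _ _ _ _ (hPP i), hf, Matrix.mul_zero, Matrix.zero_mul]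
  obtain ⟨k1, k2⟩ := key
  refine ⟨?_, ?_⟩
  · intro W hW X hX u hu
    obtain ⟨m1, o1, -, -, -, -, -, -, -, cj1, -⟩ := hTMB K t m c₁ c₁'
    obtain ⟨m2, o2, -, -, -, -, -, -, -, cj2, -⟩ := hTMB K t m c₂ c₂'
    set A1 := tmy c₁ c₁' P P' with hA1
    set A1' := tmy c₁ c₁' P' P with hA1'
    set A2 := tmy c₂ c₂' P P' with hA2
    set A2' := tmy c₂ c₂' P' P with hA2'
    have e1 : A1 * A1' = 1 := by
      rw [hA1, hA1', ← m1 P P' P' P]
      simp only [hPP]
      exact o1
    have e2 : A2 * A2' = 1 := by
      rw [hA2, hA2', ← m2 P P' P' P]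
      simp only [hPP]
      exact o2
    let L : Matrix (Tix m c₂ c₂') (Tix m c₁ c₁') K →ₗ[K] Matrix (Tix m c₂ c₂') (Tix m c₁ c₁') K :=
      { toFun := fun w => A2 * w * A1'
        map_add' := fun w w' => by rw [Matrix.mul_add, Matrix.add_mul]
        map_smul' := fun c w => by
          rw [Matrix.mul_smul, Matrix.smul_mul, RingHom.id_apply] }
    have hL : ∀ w, L w = A2 * w * A1' := fun w => rfl
    have hconj : ∀ g : G, A2 * tmy c₂ c₂' (fun i => R' i g) (fun i => R' i g⁻¹) =
        tmy c₂ c₂' (fun i => R i g) (fun i => R i g⁻¹) * A2 := by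
      intro g
      rw [hA2, ← m2, ← m2]
      congr 1
      · funext i
        show P i * (P' i * R i g * P i) = R i g * P i
        rw [← Matrix.mul_assoc, ← Matrix.mul_assoc, hPP, Matrix.one_mul]
      · funext i
        show (P' i * R i g⁻¹ * P i) * P' i = P' i * R i g⁻¹
        rw [Matrix.mul_assoc, hPP, Matrix.mul_one]
    have hconj' : ∀ g : G, tmy c₁ c₁' (fun i => R' i g⁻¹) (fun i => R' i g) * A1' =
        A1' * tmy c₁ c₁' (fun i => R i g⁻¹) (fun i => R i g) := by
      intro g
      rw [hA1', ← m1, ← m1]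
      congr 1
      · funext i
        show (P' i * R i g⁻¹ * P i) * P' i = P' i * R i g⁻¹
        rw [Matrix.mul_assoc, hPP, Matrix.mul_one]
      · funext i
        show P i * (P' i * R i g * P i) = R i g * P i
        rw [← Matrix.mul_assoc, ← Matrix.mul_assoc, hPP, Matrix.one_mul]
    have h3 := k1 (W.comap L) (by
      intro g w hw
      rw [Submodule.mem_comap, hL] at hw ⊢
      have h4 : A2 * (tmy c₂ c₂' (fun i => R' i g) (fun i => R' i g⁻¹) * w *
          tmy c₁ c₁' (fun i => R' i g⁻¹) (fun i => R' i g)) * A1' =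
          tmy c₂ c₂' (fun i => R i g) (fun i => R i g⁻¹) * (A2 * w * A1') *
            tmy c₁ c₁' (fun i => R i g⁻¹) (fun i => R i g) := by
        calc A2 * (tmy c₂ c₂' (fun i => R' i g) (fun i => R' i g⁻¹) * w *
            tmy c₁ c₁' (fun i => R' i g⁻¹) (fun i => R' i g)) * A1'
            = (A2 * tmy c₂ c₂' (fun i => R' i g) (fun i => R' i g⁻¹)) * w *
              (tmy c₁ c₁' (fun i => R' i g⁻¹) (fun i => R' i g) * A1') := by
              simp only [Matrix.mul_assoc]
          _ = _ := by rw [hconj, hconj']; simp only [Matrix.mul_assoc]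
      rw [h4]
      exact hW g _ hw) (fun i => P' i * X i * P i) (hG1 X hX) (A2' * u * A1) (by
      rw [Submodule.mem_comap, hL]
      have h4 : A2 * (A2' * u * A1) * A1' = u := by
        calc A2 * (A2' * u * A1) * A1' = (A2 * A2') * u * (A1 * A1') := by
              simp only [Matrix.mul_assoc]
          _ = u := by rw [e1, e2, Matrix.one_mul, Matrix.mul_one]
      rw [h4]
      exact hu)
    rw [Submodule.mem_comap, hL] at h3
    have hb : (fun i => P i * (P' i * X i * P i) * P' i) = X := by
      funext i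
      calc P i * (P' i * X i * P i) * P' i = (P i * P' i) * X i * (P i * P' i) := by
            simp only [Matrix.mul_assoc]
        _ = X i := by rw [hPP, Matrix.one_mul, Matrix.mul_one]
    have f2 := cj2 P P' (fun i => P' i * X i * P i) hPP
    have f1 := cj1 P P' (fun i => P' i * X i * P i) hPP
    rw [hb, ← hA1] at f1
    rw [hb, ← hA2] at f2
    have h5 : A2 * (dtm c₂ c₂' (fun i => P' i * X i * P i) * (A2' * u * A1) -
        A2' * u * A1 * dtm c₁ c₁' (fun i => P' i * X i * P i)) * A1' =
        dtm c₂ c₂' X * u - u * dtm c₁ c₁' X := by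
      rw [Matrix.mul_sub, Matrix.sub_mul]
      congr 1
      · calc A2 * (dtm c₂ c₂' (fun i => P' i * X i * P i) * (A2' * u * A1)) * A1'
            = (A2 * dtm c₂ c₂' (fun i => P' i * X i * P i)) * A2' * u * (A1 * A1') := by
              simp only [Matrix.mul_assoc]
          _ = dtm c₂ c₂' X * (A2 * A2') * u * (A1 * A1') := by
              rw [f2]; simp only [Matrix.mul_assoc]
          _ = _ := by rw [e1, e2, Matrix.mul_one, Matrix.mul_one]
      · calc A2 * (A2' * u * A1 * dtm c₁ c₁' (fun i => P' i * X i * P i)) * A1'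
            = (A2 * A2') * u * (A1 * dtm c₁ c₁' (fun i => P' i * X i * P i)) * A1' := by
              simp only [Matrix.mul_assoc]
          _ = (A2 * A2') * u * dtm c₁ c₁' X * (A1 * A1') := by
              rw [f1]; simp only [Matrix.mul_assoc]
          _ = _ := by rw [e1, e2, Matrix.one_mul, Matrix.mul_one]
    rwa [h5] at h3
  · intro X hX
    have h3 := k2 _ (hS1 X hX)
    let Φ : MM m K →ₗ[K] MM m K :=
      { toFun := fun Z => fun i => P i * Z i * P' i
        map_add' := fun Z Z' => by
          funext i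
          show P i * (Z i + Z' i) * P' i = P i * Z i * P' i + P i * Z' i * P' i
          rw [Matrix.mul_add, Matrix.add_mul]
        map_smul' := fun c Z => by
          funext i
          show P i * (c • Z i) * P' i = c • (P i * Z i * P' i)
          rw [Matrix.mul_smul, Matrix.smul_mul] }
    have h4 : Φ (fun i => P' i * X i * P i) = X := by
      funext i
      show P i * (P' i * X i * P i) * P' i = X i
      calc P i * (P' i * X i * P i) * P' i = (P i * P' i) * X i * (P i * P' i) := by
            simp only [Matrix.mul_assoc]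
        _ = X i := by rw [hPP, Matrix.one_mul, Matrix.mul_one]
    rw [← h4]
    have h5 := Submodule.mem_map_of_mem (f := Φ) h3
    rw [Submodule.map_span] at h5
    refine Submodule.span_mono ?_ h5
    rintro Z ⟨Z0, ⟨Y, Y', hY, hY', rfl⟩, rfl⟩
    refine ⟨fun i => P i * Y i * P' i, fun i => P i * Y' i * P' i, hG2 Y hY, hG2 Y' hY', ?_⟩
    funext i
    show P i * (Y i * Y' i - Y' i * Y i) * P' i =
      P i * Y i * P' i * (P i * Y' i * P' i) - P i * Y' i * P' i * (P i * Y i * P' i)
    have h6 : ∀ A B : Matrix (Fin (m i)) (Fin (m i)) K,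
        P i * A * P' i * (P i * B * P' i) = P i * (A * B) * P' i := by
      intro A B
      calc P i * A * P' i * (P i * B * P' i) = P i * A * (P' i * P i) * B * P' i := by
            simp only [Matrix.mul_assoc]
        _ = _ := by rw [hPP', Matrix.mul_one]; simp only [Matrix.mul_assoc]
    rw [h6, h6, Matrix.mul_sub, Matrix.sub_mul]

end REC
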