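import Pool.Agent.Helper27.REC.StmtsT

/-!
# Reciprocity, row GSL
-/

set_option autoImplicit false
set_option linter.unusedSimpArgs false

open scoped Classical
open NumberField Polynomial

namespace REC

namespace GSLw

variable {K : Type} [Field K] {n : ℕ}

/-- the submonoid generated by transvections -/
def S (K : Type) [Field K] (n : ℕ) : Submonoid (Matrix (Fin n) (Fin n) K) :=
  Submonoid.closure {y : Matrix (Fin n) (Fin n) K | ∃ (i j : Fin n) (a : K), i ≠ j ∧
      y = 1 + Matrix.single i j a}

lemma mem_t {i j : Fin n} (h : i ≠ j) (a : K) : 1 + Matrix.single i j a ∈ S K n :=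
  Submonoid.subset_closure ⟨i, j, a, h, rfl⟩

lemma mem_L (L : List (Matrix.TransvectionStruct (Fin n) K)) :
    (L.map Matrix.TransvectionStruct.toMatrix).prod ∈ S K n := by
  induction L with
  | nil => simp [one_mem]
  | cons t L ih =>
    rw [List.map_cons, List.prod_cons]
    exact mul_mem (mem_t t.hij t.c) ih

/-- the diagonal entries -/
def h (k z : Fin n) (a : K) (x : Fin n) : K := (if x = k then a else 1) * (if x = z then a⁻¹ else 1)

lemma w_eq {i j : Fin n} (hij : i ≠ j) (a : K) (ha : a ≠ 0) :
    (1 + Matrix.single i j a) * (1 + Matrix.single j i (-a⁻¹)) * (1 + Matrix.single i j a) =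
      (1 : Matrix (Fin n) (Fin n) K) - Matrix.single i i 1 - Matrix.single j j 1 +
        Matrix.single i j a - Matrix.single j i a⁻¹ := by
  have e1 : (1 + Matrix.single i j a) * (1 + Matrix.single j i (-a⁻¹)) =
      (1 : Matrix (Fin n) (Fin n) K) + Matrix.single i j a + Matrix.single j i (-a⁻¹) +
        Matrix.single i i (-1) := by
    rw [mul_add, mul_one, add_mul, one_mul, Matrix.single_mul_single_same, mul_neg,
      mul_inv_cancel₀ ha]
    abel
  rw [e1, mul_add, mul_one, add_mul, add_mul, add_mul, one_mul, Matrix.single_mul_single_same,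
    Matrix.single_mul_single_same, Matrix.single_mul_single_of_ne _ _ _ _ (Ne.symm hij), neg_mul,
    inv_mul_cancel₀ ha, neg_mul, one_mul]
  have e2 : ∀ (x y : Fin n) (c : K), Matrix.single x y (-c) = -Matrix.single x y c := by
    intro x y c
    rw [← Matrix.single_neg]
  rw [e2, e2, e2, e2]
  abel

lemma mem_w {i j : Fin n} (hij : i ≠ j) (a : K) (ha : a ≠ 0) :
    (1 : Matrix (Fin n) (Fin n) K) - Matrix.single i i 1 - Matrix.single j j 1 +
        Matrix.single i j a - Matrix.single j i a⁻¹ ∈ S K n := by
  rw [← w_eq hij a ha]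
  exact mul_mem (mul_mem (mem_t hij _) (mem_t (Ne.symm hij) _)) (mem_t hij _)

lemma mem_h {i j : Fin n} (hij : i ≠ j) (a : K) (ha : a ≠ 0) :
    Matrix.diagonal (h i j a) ∈ S K n := by
  have h1 := mul_mem (mem_w hij a ha) (mem_w hij (-1 : K) (neg_ne_zero.2 one_ne_zero))
  have h2 : ((1 : Matrix (Fin n) (Fin n) K) - Matrix.single i i 1 - Matrix.single j j 1 +
        Matrix.single i j a - Matrix.single j i a⁻¹) *
      ((1 : Matrix (Fin n) (Fin n) K) - Matrix.single i i 1 - Matrix.single j j 1 +
        Matrix.single i j (-1) - Matrix.single j i (-1)⁻¹) = Matrix.diagonal (h i j a) := by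
    have hji := Ne.symm hij
    have e0 : (-1 : K)⁻¹ = -1 := by rw [inv_neg, inv_one]
    rw [e0]
    simp only [mul_sub, mul_add, sub_mul, add_mul, mul_one, one_mul,
      Matrix.single_mul_single_same, Matrix.single_mul_single_of_ne _ _ _ _ hij,
      Matrix.single_mul_single_of_ne _ _ _ _ hji, mul_neg]
    ext x y
    by_cases hx : x = i
    · subst hx
      by_cases hy : y = x
      · subst hy
        simp [h, hij, hji, Matrix.single_apply, Matrix.diagonal_apply]
      · by_cases hy' : y = j
        · subst hy'
          simp [h, hij, hji, Matrix.single_apply, Matrix.diagonal_apply]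
        · simp [h, hij, hji, Matrix.single_apply, Matrix.diagonal_apply, Ne.symm hy, hy,
            Ne.symm hy', hy', Matrix.one_apply]
    · by_cases hx' : x = j
      · subst hx'
        by_cases hy : y = x
        · subst hy
          simp [h, hij, hji, Matrix.single_apply, Matrix.diagonal_apply]
        · by_cases hy' : y = i
          · subst hy'
            simp [h, hij, hji, Matrix.single_apply, Matrix.diagonal_apply]
          · simp [h, hij, hji, Matrix.single_apply, Matrix.diagonal_apply, Ne.symm hy, hy,
              Ne.symm hy', hy', Matrix.one_apply]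
      · by_cases hy : x = y
        · subst hy
          simp [h, hx, hx', Ne.symm hx, Ne.symm hx', Matrix.single_apply, Matrix.diagonal_apply]
        · simp [h, hx, hx', Ne.symm hx, Ne.symm hx', Matrix.single_apply, Matrix.diagonal_apply,
            hy, Matrix.one_apply]
  rw [h2] at h1
  exact h1

lemma prod_h {i j : Fin n} (a : K) (ha : a ≠ 0) : ∏ x, h i j a x = 1 := by
  unfold h
  rw [Finset.prod_mul_distrib, Finset.prod_ite_eq', Finset.prod_ite_eq',
    if_pos (Finset.mem_univ _), if_pos (Finset.mem_univ _), mul_inv_cancel₀ ha]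

lemma h_mul (i j : Fin n) (a : K) (ha : a ≠ 0) (x : Fin n) : h i j a⁻¹ x * h i j a x = 1 := by
  unfold h
  by_cases h1 : x = i
  · by_cases h2 : x = j
    · rw [if_pos h1, if_pos h2, if_pos h1, if_pos h2, inv_inv]
      field_simp
    · rw [if_pos h1, if_neg h2, if_pos h1, if_neg h2]
      field_simp
  · by_cases h2 : x = j
    · rw [if_neg h1, if_pos h2, if_neg h1, if_pos h2, inv_inv]
      field_simp
    · rw [if_neg h1, if_neg h2, if_neg h1, if_neg h2]
      ring

lemma mem_diag (z : Fin n) (s : Finset (Fin n)) (hz : z ∉ s) :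
    ∀ D : Fin n → K, (∀ k, k ≠ z → k ∉ s → D k = 1) → ∏ x, D x = 1 →
      Matrix.diagonal D ∈ S K n := by
  induction s using Finset.induction_on with
  | empty =>
    intro D h1 h2
    have h3 : ∏ x, D x = D z := by
      rw [Finset.prod_eq_single z]
      · intro b _ hb
        exact h1 b hb (Finset.notMem_empty b)
      · intro h; exact absurd (Finset.mem_univ _) h
    have h4 : D = fun _ => 1 := by
      funext x
      by_cases hx : x = z
      · rw [hx, ← h3, h2]
      · exact h1 x hx (Finset.notMem_empty x)
    rw [h4, Matrix.diagonal_one]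
    exact one_mem _
  | insert k s hk ih =>
    intro D h1 h2
    have hkz : k ≠ z := by
      intro h
      exact hz (by rw [← h]; exact Finset.mem_insert_self k s)
    have hzs : z ∉ s := fun h => hz (Finset.mem_insert_of_mem h)
    have hD : D k ≠ 0 := by
      intro h0
      rw [Finset.prod_eq_zero (Finset.mem_univ k) h0] at h2
      exact zero_ne_one h2
    have h3 := ih hzs (fun x => D x * h k z (D k)⁻¹ x) ?_ ?_
    · have h4 : Matrix.diagonal D = Matrix.diagonal (fun x => D x * h k z (D k)⁻¹ x) *
          Matrix.diagonal (h k z (D k)) := by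
        rw [Matrix.diagonal_mul_diagonal]
        congr 1
        funext x
        rw [mul_assoc, h_mul k z (D k) hD, mul_one]
      rw [h4]
      exact mul_mem h3 (mem_h hkz _ hD)
    · intro x hx hxs
      by_cases hxk : x = k
      · rw [hxk]
        unfold h
        rw [if_pos rfl, if_neg hkz, mul_one, mul_inv_cancel₀ hD]
      · unfold h
        rw [if_neg hxk, if_neg hx, mul_one, mul_one]
        exact h1 x hx (by
          rw [Finset.mem_insert, not_or]
          exact ⟨hxk, hxs⟩)
    · rw [Finset.prod_mul_distrib, h2, prod_h _ (inv_ne_zero hD), one_mul]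

end GSLw

open GSLw

theorem GSL : ST_GSL := by
  intro K _ n x hx
  obtain ⟨L, L', D, hD⟩ := Matrix.Pivot.exists_list_transvec_mul_diagonal_mul_list_transvec x
  have h1 : ∏ i, D i = 1 := by
    have h2 := congrArg Matrix.det hD
    rw [hx, Matrix.det_mul, Matrix.det_mul, Matrix.TransvectionStruct.det_toMatrix_prod,
      Matrix.TransvectionStruct.det_toMatrix_prod, Matrix.det_diagonal, one_mul, mul_one] at h2
    exact h2.symm
  have h3 : Matrix.diagonal D ∈ S K n := by
    rcases Nat.eq_zero_or_pos n with h0 | h0
    · subst h0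
      have : Matrix.diagonal D = 1 := Subsingleton.elim _ _
      rw [this]
      exact one_mem _
    · exact mem_diag ⟨0, h0⟩ (Finset.univ.erase ⟨0, h0⟩) (Finset.notMem_erase _ _) D
        (fun k hk hk' => absurd (Finset.mem_erase.2 ⟨hk, Finset.mem_univ _⟩) hk') h1
  rw [hD]
  exact mul_mem (mul_mem (mem_L L) h3) (mem_L L')

end REC
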