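import Pool.Agent.Helper78.REC.SP0B
import Pool.Agent.Helper53.REC.PBR

/-!
# Reciprocity, row SP0: separation of characters, if the images at `l₀` are small
-/

set_option autoImplicit false
set_option linter.unusedSectionVars false

open scoped Classical
open NumberField Polynomial

namespace REC

open MU

namespace SP0w

/-! ## Combinatorics -/

lemma exists_max {α : Type} [Nonempty α] (f : α → ℕ) (N : ℕ) (h : ∀ a, f a ≤ N) :
    ∃ a, ∀ b, f b ≤ f a := by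
  have h1 : (Set.range f).Finite := (Set.finite_Iic N).subset (by
    rintro x ⟨a, rfl⟩
    exact h a)
  obtain ⟨x, ⟨a, rfl⟩, hx⟩ := Set.exists_max_image (Set.range f) id h1 (Set.range_nonempty f)
  exact ⟨a, fun b => hx (f b) ⟨b, rfl⟩⟩

lemma inj_of_card {I K K' : Type} [Fintype I] (f : I → K) (φ : K → K')
    (h : (Finset.univ.image f).card ≤ (Finset.univ.image fun i => φ (f i)).card) (i j : I)
    (hij : φ (f i) = φ (f j)) : f i = f j := by
  have h1 : (Finset.univ.image f).image φ = Finset.univ.image fun i => φ (f i) := by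
    rw [Finset.image_image]
    rfl
  have h2 : ((Finset.univ.image f).image φ).card = (Finset.univ.image f).card := by
    refine le_antisymm Finset.card_image_le ?_
    rw [h1]
    exact h
  exact Finset.card_image_iff.1 h2 (Finset.mem_coe.2 (Finset.mem_image_of_mem _ (Finset.mem_univ i)))
    (Finset.mem_coe.2 (Finset.mem_image_of_mem _ (Finset.mem_univ j))) hij

lemma card_inst {I K : Type} [Fintype I] (d₁ d₂ : DecidableEq K) (f : I → K) :
    (@Finset.image I K d₁ f Finset.univ).card = (@Finset.image I K d₂ f Finset.univ).card := by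
  rw [Subsingleton.elim d₁ d₂]

lemma combI {L I : Type} [Field L] [Fintype I] (α γ : I → L) (hα : ∀ i, α i ≠ 0)
    (hγ : ∀ i, γ i ≠ 0) (hs : ∀ i j, ∀ N, 0 < N → α i ^ N = α j ^ N → α i = α j)
    (hmax : ∀ k : ℕ, (Finset.univ.image fun i => α i ^ k * γ i).card ≤
      (Finset.univ.image α).card) (i j : I) (hij : α i = α j) : γ i = γ j := by
  let e : Fin (Fintype.card I) ≃ I := (Fintype.equivFin I).symm
  have him : ∀ f : I → L, (Finset.univ.image fun x => f (e x)) = Finset.univ.image f := by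
    intro f
    ext y
    simp only [Finset.mem_image, Finset.mem_univ, true_and]
    constructor
    · rintro ⟨x, hx⟩
      exact ⟨e x, hx⟩
    · rintro ⟨x, hx⟩
      exact ⟨e.symm x, by rw [Equiv.apply_symm_apply]; exact hx⟩
  have h1 := PBR53.comb (fun x => α (e x)) (fun x => γ (e x)) (fun x => hα _) (fun x => hγ _)
    (fun x y => hs _ _) (fun k => by
      rw [him α, him (fun i => α i ^ k * γ i)]
      exact hmax k) (e.symm i) (e.symm j) (by
      show α (e (e.symm i)) = α (e (e.symm j))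
      rw [Equiv.apply_symm_apply, Equiv.apply_symm_apply, hij])
  have h2 : γ (e (e.symm i)) = γ (e (e.symm j)) := h1
  rw [Equiv.apply_symm_apply, Equiv.apply_symm_apply] at h2
  exact h2

lemma dvd_prod_sub {A I : Type} [CommRing A] [Fintype I] (r : A) (f : I → A)
    (h : ∀ i, r ∣ f i - 1) : r ∣ (∏ i, f i) - 1 := by
  have h1 : ∀ s : Finset I, r ∣ (∏ i ∈ s, f i) - 1 := by
    intro s
    induction s using Finset.induction_on with
    | empty =>
      rw [Finset.prod_empty, sub_self]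
      exact dvd_zero r
    | insert i s hi ih =>
      rw [Finset.prod_insert hi]
      exact dvd_mul_sub (h i) ih
  exact h1 _

lemma tr_diag {A : Type} [CommRing A] {n : ℕ} (X C C' : Matrix (Fin n) (Fin n) A) (d : Fin n → A)
    (h : C * C' = 1) (hd : C' * X * C = Matrix.diagonal d) (j : ℕ) :
    (X ^ j).trace = ∑ x, d x ^ j := by
  have h1 : ∀ j : ℕ, C' * X ^ j * C = Matrix.diagonal d ^ j := by
    intro j
    induction j with
    | zero => rw [pow_zero, pow_zero, mul_one, mul_eq_one_comm.1 h]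
    | succ j ih =>
      rw [pow_succ, pow_succ, ← ih, ← hd]
      calc C' * (X ^ j * X) * C = C' * X ^ j * 1 * X * C := by simp only [mul_assoc, one_mul]
        _ = C' * X ^ j * C * (C' * X * C) := by
          rw [← h]
          simp only [mul_assoc]
  have h2 : (X ^ j).trace = (C' * X ^ j * C).trace := by
    rw [Matrix.trace_mul_comm, ← mul_assoc, h, one_mul]
  rw [h2, h1, Matrix.diagonal_pow, Matrix.trace_diagonal]
  rfl

/-! ## Families -/

section Fam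

variable {F L : Type} [Field F] [NumberField F] [Field L] [NumberField L] {t : ℕ}
  {n₂ m : Fin t → ℕ} {n n' : ℕ}

lemma cyv_mul {l : ℕ} [Fact l.Prime] {A : Type} [CommRing A] (ϑ : ℤ_[l] →+* A) (g h : Gal F) :
    cyv ϑ (g * h) = cyv ϑ g * cyv ϑ h := by
  unfold cyv
  rw [mul_inv_rev, map_mul, Units.val_mul, map_mul, mul_comm]

lemma cyv_one {l : ℕ} [Fact l.Prime] {A : Type} [CommRing A] (ϑ : ℤ_[l] →+* A) :
    cyv ϑ (1 : Gal F) = 1 := by
  unfold cyv
  rw [inv_one, map_one, Units.val_one, map_one]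

lemma Tp_map {R R' : Type} [CommRing R] [CommRing R'] (f : R →+* R') (B : Fml F n) (B' : Fml F n')
    (M D : ℕ) {l : ℕ} [Fact l.Prime] (ϑ : ℤ_[l] →+* R)
    (RR : ∀ i, Gal F →* Matrix (Fin (m i)) (Fin (m i)) R) (g : Gal F) (k : ℕ) :
    f (Tp B B' M D ϑ RR g k) =
      Tp B B' M D (f.comp ϑ) (fun i => mapr f (RR i)) g k := by
  unfold Tp
  rw [Tk_map]
  have h1 : ∀ i, f (RR i g).det = (mapr f (RR i) g).det := fun i => RingHom.map_det f _
  simp only [h1]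
  rfl

lemma at_sub {n m : ℕ} (b : Blo n m L) {l : ℕ} [Fact l.Prime] {Ω : Type} [Field Ω]
    (A : ValuationSubring Ω) (r : Gal F →* Matrix.GeneralLinearGroup (Fin n) ℤ_[l])
    (ϑ : ℤ_[l] →+* A) (ι : 𝓞 L →+* A) (R : Gal F →* Matrix (Fin m) (Fin m) A)
    (h : b.AtA r ϑ ι R) : b.At r (A.subtype.comp ϑ) (A.subtype.comp ι) (mapr A.subtype R) := by
  refine ⟨?_, fun g => ?_⟩
  · have h1 := (h.1.map A.subtype).ne_zero
    rwa [map_natCast] at h1
  · have h1 := congrArg (fun X => Matrix.map X A.subtype) (h.2 g)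
    have h2 : (b.P.map ι * (r g : Matrix (Fin n) (Fin n) ℤ_[l]).map ϑ).map A.subtype =
        (R g * b.P.map ι).map A.subtype := h1
    rw [Matrix.map_mul, Matrix.map_mul] at h2
    exact h2

lemma det_R {n m : ℕ} (b : Blo n m L) {l : ℕ} [Fact l.Prime] {K : Type} [Field K] [CharZero K]
    (A : ValuationSubring K) (hm : (l : A) ∈ IsLocalRing.maximalIdeal A) (hN : ¬ l ∣ b.N)
    (r : Gal F →* Matrix.GeneralLinearGroup (Fin n) ℤ_[l])
    (ϑ : ℤ_[l] →+* A) (ι : 𝓞 L →+* A) (R : Gal F →* Matrix (Fin m) (Fin m) K)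
    (h : b.At r (A.subtype.comp ϑ) (A.subtype.comp ι) R) (g : Gal F)
    (hg : ∃ C : Matrix (Fin n) (Fin n) ℤ_[l],
      (r g : Matrix (Fin n) (Fin n) ℤ_[l]) = 1 + (l : ℤ_[l]) ^ 2 • C) :
    ∃ z : A, (z : K) = (R g).det ∧ (l : A) ^ 2 ∣ z - 1 := by
  obtain ⟨C, hC⟩ := hg
  have hlp : l.Prime := Fact.out
  have hu : IsUnit (b.N : A) := by
    by_contra hu
    have h1 : (b.N : A) ∈ IsLocalRing.maximalIdeal A := hu
    obtain ⟨a, c, hac⟩ := Nat.isCoprime_iff_coprime.2 ((Nat.Prime.coprime_iff_not_dvd hlp).2 hN)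
    have h10 : ((a : ℤ) : A) * (l : A) + ((c : ℤ) : A) * (b.N : A) = 1 := by
      have := congrArg (fun z : ℤ => (z : A)) hac
      push_cast at this
      exact this
    apply one_notMem (A := A)
    rw [← h10]
    exact Ideal.add_mem _ (Ideal.mul_mem_left _ _ hm) (Ideal.mul_mem_left _ _ h1)
  obtain ⟨N', hN'⟩ := hu.exists_right_inv
  have hPQ : b.P.map ι * b.Q.map ι = (b.N : A) • (1 : Matrix (Fin m) (Fin m) A) := by
    rw [← Matrix.map_mul, b.PQ, Matrix.map_smul' _ _ _ (map_mul _), map_natCast,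
      Matrix.map_one _ (map_zero _) (map_one _)]
  set Ri : Matrix (Fin m) (Fin m) A := N' • (b.P.map ι *
    (r g : Matrix (Fin n) (Fin n) ℤ_[l]).map ϑ * b.Q.map ι) with hRi
  have hr : (r g : Matrix (Fin n) (Fin n) ℤ_[l]).map ϑ = 1 + (l : A) ^ 2 • C.map ϑ := by
    rw [hC]
    ext i j
    rw [Matrix.map_apply, Matrix.add_apply, Matrix.smul_apply, Matrix.add_apply, Matrix.smul_apply,
      Matrix.map_apply, map_add, smul_eq_mul, map_mul, map_pow, map_natCast, smul_eq_mul]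
    congr 1
    by_cases hij : i = j
    · subst hij
      simp
    · simp [Matrix.one_apply_ne hij]
  have h1 : Ri = 1 + (l : A) ^ 2 • (N' • (b.P.map ι * C.map ϑ * b.Q.map ι)) := by
    rw [hRi, hr, Matrix.mul_add, Matrix.mul_one, Matrix.add_mul, hPQ, smul_add, smul_smul,
      mul_comm N', hN', one_smul, Matrix.mul_smul, Matrix.smul_mul, smul_comm]
  refine ⟨Ri.det, ?_, det_dvd Ri _ fun i j => ?_⟩
  · have h2 : A.subtype Ri.det = (R g).det := by
      rw [RingHom.map_det, RingHom.mapMatrix_apply]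
      congr 1
      rw [xb_F1 h g, hRi, Matrix.map_smul' _ _ _ (map_mul _), Matrix.map_mul, Matrix.map_mul]
      have h3 : A.subtype N' = (b.N : K)⁻¹ := by
        have h4 := congrArg A.subtype hN'
        rw [map_mul, map_natCast, map_one] at h4
        exact eq_inv_of_mul_eq_one_right h4
      rw [h3]
      rfl
    exact h2
  · rw [h1, Matrix.add_apply, add_sub_cancel_left, Matrix.smul_apply, smul_eq_mul]
    exact Dvd.intro _ rfl

end Fam

end SP0w

open SP0w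

theorem SP0 (hXDM : ST_XDM) (hCYC : ST_CYC) (hVAL : ST_VAL) : ST_SP0 := by
  intro F L _ _ _ _ S t n₂ m b ρ n n' B B' l₀ _ hb hcyc₀ hfam hfam' hdga hdga' hB₀ hB₀' M D hM
  have hl₀p : l₀.Prime := Fact.out
  obtain ⟨K₀, _, _, _, A₀, ϑA, ιA, hl₀⟩ := hVAL.1 L l₀
  have hm₀ : (l₀ : A₀) ∈ IsLocalRing.maximalIdeal A₀ := by
    rw [← IsLocalRing.residue_eq_zero_iff, map_natCast]
    exact hl₀
  set ϑ₀ : ℤ_[l₀] →+* K₀ := A₀.subtype.comp ϑA with hϑ₀
  set ι₀ : 𝓞 L →+* K₀ := A₀.subtype.comp ιA with hι₀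
  have hι₀i : Function.Injective ι₀ := xb_iota_inj ι₀
  have hNb : ∀ i, ((b i).N : K₀) ≠ 0 := fun i => Nat.cast_ne_zero.2 (b i).pos.ne'
  choose R₀ hR₀ using fun i => (hb i).2.1 l₀ K₀ ϑ₀ ι₀ (hNb i)
  -- the eigenvalues at `l₀`
  choose α hα hαr using fun g : Gal F =>
    exists_eig ((B l₀ g : Matrix (Fin n) (Fin n) ℤ_[l₀]).map ϑ₀)
  choose α' hα' hαr' using fun g : Gal F =>
    exists_eig ((B' l₀ g : Matrix (Fin n') (Fin n') ℤ_[l₀]).map ϑ₀)
  set Λ : Gal F → Ix n n' t D → K₀ := fun g i => Sum.elim (α g) (α' g) i.1 ^ M *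
    (cyv ϑ₀ g ^ (i.2.1 : ℕ) * ∏ j, (R₀ j g).det ^ (i.2.2 j : ℕ)) with hΛd
  have hΛ : ∀ g k, Tp B B' M D ϑ₀ R₀ g k = ∑ i, Λ g i ^ k := fun g k =>
    Tk_list M D _ _ _ _ (α g) (α' g) (hα g) (hα' g) k
  have hΛ' : ∀ g, Tp B B' M D ϑ₀ R₀ g = fun k => ∑ i, Λ g i ^ k := fun g => funext (hΛ g)
  -- the maximal number of values
  obtain ⟨g₁, hg₁⟩ := exists_max (fun g : Gal F => (Finset.univ.image (Λ g)).card)
    (Fintype.card (Ix n n' t D)) (fun g => Finset.card_image_le.trans (le_of_eq Finset.card_univ))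
  set ν := (Finset.univ.image (Λ g₁)).card with hν
  obtain ⟨p, 𝔓, k, σ, hp, hpS, hov, hk, hcong, hdet⟩ := DEN hXDM b ρ B B' l₀
    (fun i => (hb i).1 l₀) (hfam.1 l₀) (hfam'.1 l₀) K₀ ϑ₀ ι₀ R₀ hR₀ M D ν g₁ (by
      rw [hΛ']
      exact HK2 (Λ g₁)) (insert l₀ S)
  rw [Finset.mem_insert, not_or] at hpS
  set s : Gal F := σ⁻¹ with hs
  obtain ⟨τ, hτ⟩ := FRO hCYC b ρ S B B' hfam hfam' (fun i => (hb i).2.2.1) M D p hp hpS.2 𝔓 hov k σ
    hk hcong
  have hτ₀ : ∀ j, Tp B B' M D ϑ₀ R₀ s j = ι₀ (τ j) :=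
    hτ l₀ (fun h => hpS.1 h.symm) K₀ ϑ₀ ι₀ R₀ hR₀
  have hνs : (Finset.univ.image (Λ s)).card = ν := by
    refine le_antisymm (hg₁ s) ?_
    rw [hΛ'] at hdet
    exact le_of_Hk _ _ hdet
  -- the values are congruent to `1`
  have hΛA : ∀ g i, ∃ z : A₀, (z : K₀) = Λ g i ∧ (l₀ : A₀) ^ 2 ∣ z - 1 := by
    intro g i
    have h1 : ∃ z : A₀, (z : K₀) = Sum.elim (α g) (α' g) i.1 ∧ (l₀ : A₀) ^ 2 ∣ z - 1 := by
      rcases i.1 with x | x
      · obtain ⟨C, hC⟩ := hB₀ g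
        exact eig_int A₀ ϑA _ C hC (α g x) (hαr g x)
      · obtain ⟨C, hC⟩ := hB₀' g
        exact eig_int A₀ ϑA _ C hC (α' g x) (hαr' g x)
    obtain ⟨z₁, hz₁, hd₁⟩ := h1
    have h2 : ∃ z : A₀, (z : K₀) = cyv ϑ₀ g ∧ (l₀ : A₀) ^ 2 ∣ z - 1 := by
      refine ⟨cyv ϑA g, rfl, ?_⟩
      obtain ⟨a, ha⟩ := hcyc₀ g⁻¹
      unfold cyv
      rw [ha, map_add, map_one, add_sub_cancel_left, map_mul, map_pow, map_natCast]
      exact Dvd.intro _ rfl
    obtain ⟨z₂, hz₂, hd₂⟩ := h2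
    choose z₃ hz₃ hd₃ using fun j => det_R (b j) A₀ hm₀ (hb j).2.2.2.1 (ρ j l₀) ϑA ιA (R₀ j)
      (hR₀ j) g ((hb j).2.2.2.2 g)
    refine ⟨z₁ ^ M * (z₂ ^ (i.2.1 : ℕ) * ∏ j, z₃ j ^ (i.2.2 j : ℕ)), ?_, ?_⟩
    · rw [hΛd]
      have h4 : ((z₁ ^ M * (z₂ ^ (i.2.1 : ℕ) * ∏ j, z₃ j ^ (i.2.2 j : ℕ)) : A₀) : K₀) =
          A₀.subtype (z₁ ^ M * (z₂ ^ (i.2.1 : ℕ) * ∏ j, z₃ j ^ (i.2.2 j : ℕ))) := rfl
      rw [h4, map_mul, map_mul, map_pow, map_pow, map_prod]
      simp only [map_pow]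
      have h5 : ∀ z : A₀, A₀.subtype z = (z : K₀) := fun z => rfl
      simp only [h5, hz₁, hz₂, hz₃]
    · exact dvd_mul_sub (dvd_pow_sub hd₁ _) (dvd_mul_sub (dvd_pow_sub hd₂ _)
        (dvd_prod_sub _ _ fun j => dvd_pow_sub (hd₃ j) _))
  -- the Hankel determinants of the powers
  have hN : ∀ N, 0 < N → Hk (fun j => τ (N * j)) ν ≠ 0 := by
    intro N hN0 h0
    have h1 : (Finset.univ.image fun i => Λ s i ^ N).card = ν := by
      rw [← hνs]
      have h2 : (Finset.univ.image fun i => Λ s i ^ N) =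
          (Finset.univ.image (Λ s)).image (fun x => x ^ N) := by
        rw [Finset.image_image]
        rfl
      rw [h2]
      apply Finset.card_image_of_injOn
      intro x hx y hy hxy
      obtain ⟨i, -, rfl⟩ := Finset.mem_image.1 (Finset.mem_coe.1 hx)
      obtain ⟨j, -, rfl⟩ := Finset.mem_image.1 (Finset.mem_coe.1 hy)
      obtain ⟨u, hu, hdu⟩ := hΛA s i
      obtain ⟨v, hv, hdv⟩ := hΛA s j
      have h3 : u ^ N = v ^ N := by
        apply Subtype.ext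
        push_cast
        rw [hu, hv]
        exact hxy
      rw [← hu, ← hv, eq_of_pow l₀ hl₀p hm₀ u v hdu hdv N hN0 h3]
    have h2 := HK2 (fun i => Λ s i ^ N)
    rw [h1] at h2
    apply h2
    have h3 : (fun k => ∑ i, (Λ s i ^ N) ^ k) = fun j => ι₀ (τ (N * j)) := by
      funext j
      rw [← hτ₀, hΛ]
      refine Finset.sum_congr rfl fun i _ => ?_
      rw [← pow_mul]
    rw [h3, ← Hk_map ι₀ (fun j => τ (N * j)), h0, map_zero]
  have hδ : Hk τ ν ≠ 0 := by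
    have h1 := hN 1 one_pos
    simp only [one_mul] at h1
    exact h1
  obtain ⟨c₁, hc₁⟩ := hdga
  obtain ⟨c₂, hc₂⟩ := hdga'
  refine ⟨max (max c₁ c₂) (max (max l₀ p) (Ideal.absNorm (Ideal.span {Hk τ ν}))), ?_⟩
  intro l _ hl Ω _ _ _ A ϑ ι R hlA hR χ χ' hχ hχ' e e' κ κ' he he' hκ hκ' hres g
  have hlp : l.Prime := Fact.out
  rw [max_lt_iff, max_lt_iff, max_lt_iff, max_lt_iff] at hl
  obtain ⟨⟨hl1, hl2⟩, ⟨hll₀, hlp'⟩, hlδ⟩ := hl
  obtain ⟨C, C₁, ξ, hCC, hCC', hξ⟩ := hc₁ l hl1 Ω A ϑ hlA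
  obtain ⟨C', C₁', ξ', hCC₂, hCC₂', hξ'⟩ := hc₂ l hl2 Ω A ϑ hlA
  set ϑΩ : ℤ_[l] →+* Ω := A.subtype.comp ϑ with hϑΩ
  set ιΩ : 𝓞 L →+* Ω := A.subtype.comp ι with hιΩ
  have hιΩi : Function.Injective ιΩ := xb_iota_inj ιΩ
  have hRΩ : ∀ i, (b i).At (ρ i l) ϑΩ ιΩ (mapr A.subtype (R i)) := fun i =>
    at_sub (b i) A (ρ i l) ϑ ι (R i) (hR i)
  set ψ : Ix n n' t D → Gal F → A := fun i g =>
    Sum.elim (fun x => ξ x g) (fun x => ξ' x g) i.1 ^ M *
      (cyv ϑ g ^ (i.2.1 : ℕ) * ∏ j, (R j g).det ^ (i.2.2 j : ℕ)) with hψd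
  have hψ : ∀ g k, Tp B B' M D ϑ R g k = ∑ i, ψ i g ^ k := fun g k =>
    Tk_list M D _ _ _ _ (fun x => ξ x g) (fun x => ξ' x g)
      (tr_diag _ _ _ _ hCC (hξ g)) (tr_diag _ _ _ _ hCC₂ (hξ' g)) k
  have hψΩ : ∀ g k, Tp B B' M D ϑΩ (fun i => mapr A.subtype (R i)) g k =
      ∑ i, (ψ i g : Ω) ^ k := by
    intro g k
    rw [hϑΩ, ← Tp_map, hψ, map_sum]
    refine Finset.sum_congr rfl fun i _ => ?_
    rw [map_pow]
    rfl
  have hψmul : ∀ i g h, ψ i (g * h) = ψ i g * ψ i h := by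
    intro i g h
    have h1 : Sum.elim (fun x => ξ x (g * h)) (fun x => ξ' x (g * h)) i.1 =
        Sum.elim (fun x => ξ x g) (fun x => ξ' x g) i.1 *
          Sum.elim (fun x => ξ x h) (fun x => ξ' x h) i.1 := by
      rcases i.1 with x | x
      · exact map_mul (ξ x) g h
      · exact map_mul (ξ' x) g h
    simp only [hψd]
    rw [h1, cyv_mul]
    simp only [map_mul, Matrix.det_mul, mul_pow, Finset.prod_mul_distrib]
    ring
  have hψone : ∀ i, ψ i 1 = 1 := by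
    intro i
    have h1 : Sum.elim (fun x => ξ x 1) (fun x => ξ' x 1) i.1 = 1 := by
      rcases i.1 with x | x
      · exact map_one (ξ x)
      · exact map_one (ξ' x)
    simp only [hψd]
    rw [h1, cyv_one]
    simp
  have hψ0 : ∀ i g, (ψ i g : Ω) ≠ 0 := by
    intro i g h0
    have h1 : ψ i g * ψ i g⁻¹ = 1 := by rw [← hψmul, mul_inv_cancel, hψone]
    have h2 : ψ i g = 0 := Subtype.ext h0
    rw [h2, zero_mul] at h1
    exact zero_ne_one h1
  have hψpow : ∀ i (k : ℕ) g h, ψ i (g ^ k * h) = ψ i g ^ k * ψ i h := by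
    intro i k g h
    induction k with
    | zero => rw [pow_zero, one_mul, pow_zero, one_mul]
    | succ k ih => rw [pow_succ', mul_assoc, hψmul, ih, pow_succ', mul_assoc (ψ i g)]
  -- the number of values at `l`
  have hmax : ∀ g, (Finset.univ.image fun i => (ψ i g : Ω)).card ≤ ν := by
    intro g
    by_contra hlt
    rw [not_le] at hlt
    have h1 := HK2 (fun i => (ψ i g : Ω))
    have h2 : (fun k => ∑ i, (ψ i g : Ω) ^ k) =
        Tp B B' M D ϑΩ (fun i => mapr A.subtype (R i)) g := (funext (hψΩ g)).symm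
    rw [h2] at h1
    obtain ⟨p', 𝔓', k', σ', hp', hpS', hov', hk', hcong', hdet'⟩ := DEN hXDM b ρ B B' l
      (fun i => (hb i).1 l) (hfam.1 l) (hfam'.1 l) Ω ϑΩ ιΩ _ hRΩ M D _ g h1
      (insert l₀ (insert l S))
    rw [Finset.mem_insert, not_or, Finset.mem_insert, not_or] at hpS'
    obtain ⟨τ', hτ'⟩ := FRO hCYC b ρ S B B' hfam hfam' (fun i => (hb i).2.2.1) M D p' hp' hpS'.2.2
      𝔓' hov' k' σ' hk' hcong'
    have h3 : Tp B B' M D ϑΩ (fun i => mapr A.subtype (R i)) σ'⁻¹ = fun j => ιΩ (τ' j) :=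
      funext (hτ' l (fun h => hpS'.2.1 h.symm) Ω ϑΩ ιΩ _ hRΩ)
    have h4 : Tp B B' M D ϑ₀ R₀ σ'⁻¹ = fun j => ι₀ (τ' j) :=
      funext (hτ' l₀ (fun h => hpS'.1 h.symm) K₀ ϑ₀ ι₀ R₀ hR₀)
    rw [h3, ← Hk_map ιΩ τ'] at hdet'
    have h5 : Hk τ' (Finset.univ.image fun i => (ψ i g : Ω)).card ≠ 0 := fun h =>
      hdet' (by rw [h, map_zero])
    have h6 : ι₀ (Hk τ' (Finset.univ.image fun i => (ψ i g : Ω)).card) ≠ 0 := by
      rw [Ne, map_eq_zero_iff _ hι₀i]
      exact h5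
    rw [Hk_map, ← h4, hΛ'] at h6
    have h7 := le_of_Hk _ _ h6
    exact absurd (h7.trans (hg₁ σ'⁻¹)) (not_le.2 hlt)
  have hτΩ : ∀ j, ∑ i, (ψ i s : Ω) ^ j = ιΩ (τ j) := by
    intro j
    rw [← hψΩ]
    exact hτ l (ne_of_gt hlp') Ω ϑΩ ιΩ _ hRΩ j
  -- no roots of unity
  have hroot : ∀ i j N, 0 < N → (ψ i s : Ω) ^ N = (ψ j s : Ω) ^ N → (ψ i s : Ω) = ψ j s := by
    intro i j N hN0 hij
    refine inj_of_card (fun i => (ψ i s : Ω)) (fun x => x ^ N) ((hmax s).trans ?_) i j hij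
    apply le_of_Hk
    have h1 : (fun k => ∑ i, ((ψ i s : Ω) ^ N) ^ k) = fun j => ιΩ (τ (N * j)) := by
      funext j
      rw [← hτΩ]
      refine Finset.sum_congr rfl fun i _ => ?_
      rw [← pow_mul]
    rw [h1, ← Hk_map ιΩ (fun j => τ (N * j)), Ne, map_eq_zero_iff _ hιΩi]
    exact hN N hN0
  -- reduction is injective on the values at `s`
  have hredinj : ∀ i j, IsLocalRing.residue A (ψ i s) = IsLocalRing.residue A (ψ j s) →
      ψ i s = ψ j s := by
    intro i j hij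
    refine inj_of_card (fun i => ψ i s) (IsLocalRing.residue A) ?_ i j hij
    have h1 : (Finset.univ.image fun i => ψ i s).card ≤ ν := by
      have h2 : (Finset.univ.image fun i => (ψ i s : Ω)) =
          (Finset.univ.image fun i => ψ i s).image (fun x : A => (x : Ω)) := by
        rw [Finset.image_image]
        rfl
      have h3 := hmax s
      rw [h2, Finset.card_image_of_injective _ Subtype.coe_injective] at h3
      exact h3
    refine (le_of_eq (card_inst _ _ _)).trans (h1.trans (le_of_Hk _ _ ?_))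
    have h2 : (fun k => ∑ i, IsLocalRing.residue A (ψ i s) ^ k) =
        fun j => ((IsLocalRing.residue A).comp ι) (τ j) := by
      funext j
      have h3 : ∑ i, ψ i s ^ j = ι (τ j) := by
        apply Subtype.ext
        have h4 := hτΩ j
        rw [AddSubmonoidClass.coe_finsetSum]
        push_cast
        exact h4
      rw [RingHom.comp_apply, ← h3, map_sum]
      refine Finset.sum_congr rfl fun i _ => ?_
      rw [map_pow]
    rw [h2, ← Hk_map ((IsLocalRing.residue A).comp ι) τ]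
    exact ne_of_gt (Hk τ ν) hδ l hlp hlδ _ hlA
  -- the characters
  have hocc : ∀ {n : ℕ} (B : Fml F n) (C C₁ : Matrix (Fin n) (Fin n) A) (ξ : Fin n → Gal F →* A)
      (χ : Gal F →* A), C * C₁ = 1 → (∀ g, C₁ * (B l g : Matrix (Fin n) (Fin n) ℤ_[l]).map ϑ * C =
        Matrix.diagonal fun x => ξ x g) → Occ A (B l) ϑ χ → ∃ x, ∀ g, χ g = ξ x g := by
    intro n B C C₁ ξ χ hC hξ hχ
    obtain ⟨v, hv, hv'⟩ := hχ
    have h1 : C₁.mulVec v ≠ 0 := by
      intro h0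
      apply hv
      have h2 := congrArg C.mulVec h0
      rw [Matrix.mulVec_mulVec, hC, Matrix.one_mulVec, Matrix.mulVec_zero] at h2
      exact h2
    obtain ⟨x, hx⟩ : ∃ x, (C₁.mulVec v) x ≠ 0 := by
      by_contra hno
      push Not at hno
      exact h1 (funext hno)
    refine ⟨x, fun g => ?_⟩
    have h2 : (Matrix.diagonal fun x => ξ x g).mulVec (C₁.mulVec v) = χ g • C₁.mulVec v := by
      rw [← hξ g, Matrix.mulVec_mulVec, Matrix.mul_assoc, hC, Matrix.mul_one,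
        ← Matrix.mulVec_mulVec, hv', Matrix.mulVec_smul]
    have h3 := congrFun h2 x
    rw [Matrix.mulVec_diagonal, Pi.smul_apply, smul_eq_mul] at h3
    exact (mul_right_cancel₀ hx h3).symm
  obtain ⟨x, hx⟩ := hocc B C C₁ ξ χ hCC hξ hχ
  obtain ⟨x', hx'⟩ := hocc B' C' C₁' ξ' χ' hCC₂ hξ' hχ'
  set i₁ : Ix n n' t D := (Sum.inl x, ⟨e, Nat.lt_succ_of_le he⟩,
    fun j => ⟨κ j, Nat.lt_succ_of_le (hκ j)⟩) with hi₁
  set i₂ : Ix n n' t D := (Sum.inr x', ⟨e', Nat.lt_succ_of_le he'⟩,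
    fun j => ⟨κ' j, Nat.lt_succ_of_le (hκ' j)⟩) with hi₂
  have hψ₁ : ∀ g, ψ i₁ g = χ g ^ M * cyv ϑ g ^ e * ∏ i, (R i g).det ^ κ i := by
    intro g
    rw [hx g, mul_assoc]
    rfl
  have hψ₂ : ∀ g, ψ i₂ g = χ' g ^ M * cyv ϑ g ^ e' * ∏ i, (R i g).det ^ κ' i := by
    intro g
    rw [hx' g, mul_assoc]
    rfl
  rw [← hψ₁, ← hψ₂]
  have h1 : ψ i₁ s = ψ i₂ s := by
    apply hredinj
    rw [hψ₁, hψ₂]
    exact hres s
  apply Subtype.ext
  refine combI (fun i => (ψ i s : Ω)) (fun i => (ψ i g : Ω)) (fun i => hψ0 i s)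
    (fun i => hψ0 i g) hroot (fun k => ?_) i₁ i₂ (congrArg _ h1)
  refine le_trans (le_trans (le_of_eq ?_) (hmax (s ^ k * g))) ?_
  · congr 2
    funext i
    rw [hψpow]
    push_cast
    rfl
  · apply le_of_Hk
    have h2 : (fun k => ∑ i, (ψ i s : Ω) ^ k) = fun j => ιΩ (τ j) := funext hτΩ
    rw [h2, ← Hk_map ιΩ τ, Ne, map_eq_zero_iff _ hιΩi]
    exact hδ

end REC
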