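import Pool.Agent.Helper57.REC.Stmts3

/-!
# CBS: the local index at the places in `B` and the real places
-/

set_option autoImplicit false

open scoped Classical
open NumberField

namespace Pool.Agent.Helper78.REC

open _root_.REC
open Pool.Agent.Helper13.ZL (Pl q)

/-- the sign at a real embedding -/
noncomputable def sg {F : Type} [Field F] (σ : F →+* ℝ) : Fˣ →* ℤˣ where
  toFun x := if 0 < σ (x : F) then 1 else -1
  map_one' := by simp
  map_mul' := by
    intro x y
    have hx : σ (x : F) ≠ 0 := by simp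
    have hy : σ (y : F) ≠ 0 := by simp
    simp only [Units.val_mul, map_mul]
    rcases lt_or_gt_of_ne hx with h1 | h1 <;> rcases lt_or_gt_of_ne hy with h2 | h2
    · rw [if_pos (mul_pos_of_neg_of_neg h1 h2), if_neg h1.le.not_gt, if_neg h2.le.not_gt]; rfl
    · rw [if_neg (mul_neg_of_neg_of_pos h1 h2).le.not_gt, if_neg h1.le.not_gt, if_pos h2]; rfl
    · rw [if_neg (mul_neg_of_pos_of_neg h1 h2).le.not_gt, if_pos h1, if_neg h2.le.not_gt]; rfl
    · rw [if_pos (mul_pos h1 h2), if_pos h1, if_pos h2]; rfl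

theorem sg_eq_one {F : Type} [Field F] (σ : F →+* ℝ) (x : Fˣ) : sg σ x = 1 ↔ 0 < σ (x : F) := by
  show (if 0 < σ (x : F) then (1 : ℤˣ) else -1) = 1 ↔ _
  by_cases h : 0 < σ (x : F)
  · simp [h]
  · simp only [h, iff_false]
    decide

theorem sg_of_mul {F : Type} [Field F] (σ : F →+* ℝ) (x : Fˣ) (η : ℤˣ)
    (h : 0 < ((η : ℤ) : ℝ) * σ (x : F)) : sg σ x = η := by
  show (if 0 < σ (x : F) then (1 : ℤˣ) else -1) = η
  rcases Int.units_eq_one_or η with rfl | rfl
  · rw [if_pos (by simpa using h)]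
  · have h1 : ¬ 0 < σ (x : F) := by
      simp only [Units.val_neg, Units.val_one, Int.cast_neg, Int.cast_one, neg_mul, one_mul,
        Left.neg_pos_iff] at h
      exact h.le.not_gt
    rw [if_neg h1]

theorem st_CBS : ST_CBI → ST_INFP → ST_APX → ST_CBS := by
  intro hCBI hINFP hAPX F L _ _ _ _ _ _ σ hσ B
  obtain ⟨C, hC1, hC2, hC3, N, hN⟩ := hCBI F L σ hσ B
  obtain ⟨-, -, -, i4⟩ := hINFP F L
  have hW : ∀ w : {w : InfinitePlace F // nw L w = 2}, ∃ e : F →+* ℝ,
      (∀ x, w.1 x = |e x|) ∧ ∀ x : L, x ≠ 0 → 0 < e (Algebra.norm F x) := by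
    intro w
    rcases i4 w.1 with h | ⟨-, h⟩
    · have := w.2
      omega
    · exact h
  choose e he1 he2 using hW
  have hinj : Function.Injective e := by
    intro w w' h
    apply Subtype.ext
    apply InfinitePlace.ext
    intro x
    rw [he1, he1, h]
  let Φ : Fˣ →* ({w : InfinitePlace F // nw L w = 2} → ℤˣ) := MonoidHom.pi fun w => sg (e w)
  have hΦ : ∀ (x : Fˣ) (w : {w : InfinitePlace F // nw L w = 2}), Φ x w = sg (e w) x :=
    fun x w => rfl
  have hval : ∀ (x : 𝓞 F) (v : Pl F) (n : ℕ), x - 1 ∈ v.asIdeal ^ n →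
      v.valuation F ((x : F) - 1) ≤ WithZero.exp (-(n : ℤ)) := by
    intro x v n h
    have h1 : ((x : F) - 1) = algebraMap (𝓞 F) F (x - 1) := by simp
    rw [h1, v.valuation_of_algebraMap]
    exact (v.intValuation_le_pow_iff_mem _ _).mpr h
  have hsur : C.map Φ = ⊤ := by
    rw [eq_top_iff]
    intro η _
    obtain ⟨x, hx0, hx1, hx2⟩ := hAPX F B N (fun _ => 1)
      (fun τ => if h : ∃ w, e w = τ then (((η h.choose : ℤˣ) : ℤ) : ℝ) else 1)
      (by
        intro τ
        split_ifs with h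
        · exact_mod_cast Units.ne_zero _
        · exact one_ne_zero)
    have hx0' : (x : F) ≠ 0 := RingOfIntegers.coe_ne_zero_iff.mpr hx0
    have hxC : Units.mk0 (x : F) hx0' ∈ C := hN _ fun v hv => hval x v N (hx1 v hv)
    refine ⟨Units.mk0 (x : F) hx0', hxC, funext fun w => ?_⟩
    rw [hΦ]
    have h1 := hx2 (e w)
    have hex : ∃ w', e w' = e w := ⟨w, rfl⟩
    have hch : hex.choose = w := hinj hex.choose_spec
    simp only [dif_pos hex] at h1
    rw [hch] at h1
    exact sg_of_mul (e w) (Units.mk0 (x : F) hx0') (η w) h1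
  have hidx : (Φ.ker ⊓ C).index =
      2 ^ Fintype.card {w : InfinitePlace F // nw L w = 2} * C.index := by
    rw [← Subgroup.relIndex_mul_index (inf_le_right : Φ.ker ⊓ C ≤ C), Subgroup.inf_relIndex_right,
      Subgroup.relIndex_ker, hsur]
    congr 1
    rw [Nat.card_congr (Subgroup.topEquiv
      (G := ({w : InfinitePlace F // nw L w = 2} → ℤˣ))).toEquiv, Nat.card_pi]
    simp
  have hprod : ∏ w : InfinitePlace F, nw L w =
      2 ^ Fintype.card {w : InfinitePlace F // nw L w = 2} := by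
    have h1 : ∀ w : InfinitePlace F, nw L w = if nw L w = 2 then 2 else 1 := by
      intro w
      rcases i4 w with h | ⟨h, -⟩
      · rw [h]; rfl
      · rw [h]; rfl
    calc ∏ w : InfinitePlace F, nw L w = ∏ w : InfinitePlace F, if nw L w = 2 then 2 else 1 :=
          Finset.prod_congr rfl fun w _ => h1 w
      _ = 2 ^ (Finset.univ.filter fun w : InfinitePlace F => nw L w = 2).card := by
          rw [Finset.prod_ite]; simp
      _ = _ := by rw [Fintype.card_subtype]
  refine ⟨Φ.ker ⊓ C, ?_, ?_, ?_, N + 1, Nat.succ_pos N, ?_⟩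
  · intro y
    refine ⟨?_, hC1 y⟩
    show Φ (Nu F L y) = 1
    funext w
    exact (sg_eq_one (e w) _).mpr (he2 w (y : L) (Units.ne_zero y))
  · rw [hidx]
    exact mul_ne_zero (by positivity) hC2
  · rw [hidx, hprod, mul_comm]
    exact Nat.mul_le_mul_left _ hC3
  · intro x hx hxv
    refine ⟨?_, hN x fun v hv => ?_⟩
    · show Φ x = 1
      funext w
      exact (sg_eq_one (e w) _).mpr (hx (e w))
    · refine (hxv v hv).trans ?_
      rw [WithZero.exp_le_exp]
      push_cast
      linarith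

end Pool.Agent.Helper78.REC
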