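import Pool.Agent.Helper57.REC.Stmts3

/-!
# NIX: the index of the group of relations
-/

set_option autoImplicit false

open scoped Classical
open NumberField

namespace Pool.Agent.Helper78.REC

open _root_.REC
open Pool.Agent.Helper13.ZL (Pl q)

/-- the multiples of `n` -/
def mulN (n : ℕ) : Subgroup (Multiplicative ℤ) where
  carrier := {x | (n : ℤ) ∣ Multiplicative.toAdd x}
  mul_mem' := by
    intro a b ha hb
    show (n : ℤ) ∣ Multiplicative.toAdd (a * b)
    rw [toAdd_mul]
    exact dvd_add ha hb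
  one_mem' := by
    show (n : ℤ) ∣ Multiplicative.toAdd 1
    simp
  inv_mem' := by
    intro a ha
    show (n : ℤ) ∣ Multiplicative.toAdd a⁻¹
    rw [toAdd_inv]
    exact (dvd_neg).mpr ha

theorem mulN_index (n : ℕ) : (mulN n).index = n := by
  let f : Multiplicative ℤ →* Multiplicative (ZMod n) :=
    AddMonoidHom.toMultiplicative (Int.castAddHom (ZMod n))
  have h1 : f.ker = mulN n := by
    ext x
    rw [MonoidHom.mem_ker]
    show Multiplicative.ofAdd (((Multiplicative.toAdd x : ℤ) : ZMod n)) = 1 ↔ _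
    rw [ofAdd_eq_one, ZMod.intCast_zmod_eq_zero_iff_dvd]
    rfl
  have h2 : Function.Surjective f := by
    intro y
    obtain ⟨z, hz⟩ := ZMod.intCast_surjective (Multiplicative.toAdd y)
    exact ⟨Multiplicative.ofAdd z, congrArg Multiplicative.ofAdd hz⟩
  rw [← h1, Subgroup.index_ker, MonoidHom.range_eq_top.mpr h2,
    Nat.card_congr (Subgroup.topEquiv (G := Multiplicative (ZMod n))).toEquiv]
  exact Nat.card_zmod n

theorem ordv_mul {F : Type} [Field F] [NumberField F] (v : Pl F) (x y : Fˣ) :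
    ordv v (x * y) = ordv v x + ordv v y := by
  unfold ordv
  have hx : v.valuation F (x : F) ≠ 0 := (Valuation.ne_zero_iff _).mpr (Units.ne_zero x)
  have hy : v.valuation F (y : F) ≠ 0 := (Valuation.ne_zero_iff _).mpr (Units.ne_zero y)
  rw [Units.val_mul, map_mul, WithZero.log_mul hx hy]
  ring

/-- the diagonal map -/
noncomputable def dlt {F : Type} [Field F] [NumberField F] (T : Finset (Pl F)) :
    Fˣ →* Fˣ × (T → Multiplicative ℤ) where
  toFun x := (x, fun t => Multiplicative.ofAdd (ordv (t : Pl F) x))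
  map_one' := by
    refine Prod.ext rfl (funext fun t => ?_)
    have h : ordv (t : Pl F) (1 : Fˣ) = 0 := by
      have := ordv_mul (t : Pl F) 1 1
      rw [mul_one] at this
      linarith
    show Multiplicative.ofAdd (ordv (t : Pl F) 1) = 1
    rw [h]; rfl
  map_mul' := by
    intro x y
    refine Prod.ext rfl (funext fun t => ?_)
    show Multiplicative.ofAdd (ordv (t : Pl F) (x * y)) = _
    rw [ordv_mul]; rfl

theorem st_NIX : ST_CBS → ST_SUX → ST_UNV → ST_POV → ST_NIX := by
  intro hCBS hSUX hUNV hPOV F L _ _ _ _ _ _ σ hσ B hunr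
  obtain ⟨C, hC1, hC2, hC3, N, hN0, hN⟩ := hCBS F L σ hσ B
  refine ⟨N, hN0, fun T TL hd hTL hcl => ?_⟩
  obtain ⟨p1, p2, -, -, -, -, -, -⟩ := hPOV F L
  have hn : 0 < Module.finrank F L := Module.finrank_pos
  have hnv : ∀ v : Pl F, nv L v ≠ 0 := by
    intro v h
    have := (p2 v).2.2
    rw [h, zero_mul] at this
    omega
  -- the places over `S`
  have hfin : ∀ v : Pl F, {P : Pl L | OvL v P}.Finite := fun v => (p2 v).1
  let SL : Finset (Pl L) := (B ∪ T).biUnion fun v => (hfin v).toFinset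
  have hSL : IsTL (B ∪ T) SL := by
    intro P
    simp only [SL, Finset.mem_biUnion, Set.Finite.mem_toFinset]
    exact Iff.rfl
  obtain ⟨s1, s2⟩ := hSUX F L σ hσ (B ∪ T) SL hSL
    (fun v hv => hunr v fun h => hv (Finset.mem_union_left _ h))
    (fun I hI => by
      obtain ⟨x, hx, h⟩ := hcl I hI
      exact ⟨x, hx, fun v hv => h v fun h' => hv (Finset.mem_union_right _ h')⟩)
  let R0 : Subgroup (Fˣ × (T → Multiplicative ℤ)) :=
    C.prod (Subgroup.pi Set.univ fun t : T => mulN (nv L (t : Pl F)))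
  have hR0 : R0.index = C.index * ∏ v ∈ T, nv L v := by
    simp only [R0]
    rw [Subgroup.index_prod, Subgroup.index_pi, ← Finset.prod_coe_sort T (fun v => nv L v)]
    congr 1
    exact Finset.prod_congr rfl fun t _ => mulN_index _
  have hmem : ∀ z : Fˣ × (T → Multiplicative ℤ), z ∈ R0 ↔
      z.1 ∈ C ∧ ∀ t : T, (nv L (t : Pl F) : ℤ) ∣ Multiplicative.toAdd (z.2 t) := by
    intro z
    simp only [R0, Subgroup.mem_prod, Subgroup.mem_pi, Set.mem_univ, forall_true_left]
    exact Iff.rfl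
  have hR0n : R0.index ≠ 0 := by
    rw [hR0]
    exact mul_ne_zero hC2 (Finset.prod_ne_zero_iff.mpr fun v _ => hnv v)
  let M : Subgroup (Fˣ × (T → Multiplicative ℤ)) := (SU F (B ∪ T)).map (dlt T)
  have hle : R0 ≤ R0 ⊔ M := le_sup_left
  have hRn : (R0 ⊔ M).index ≠ 0 := by
    intro h
    apply hR0n
    rw [← Subgroup.relIndex_mul_index hle, h, mul_zero]
  refine ⟨R0 ⊔ M, ⟨?_, ?_, ?_⟩, hRn, ?_⟩
  · intro y a ha
    exact hle ((hmem _).mpr ⟨hC1 y, ha⟩)
  · intro x hx hxv
    exact hle ((hmem _).mpr ⟨hN x hx hxv, fun t => by simp⟩)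
  · intro x hx
    exact (le_sup_right : M ≤ R0 ⊔ M) ⟨x, hx, rfl⟩
  · have h1 := Subgroup.relIndex_mul_index hle
    rw [Subgroup.relIndex_sup_left, ← Subgroup.relIndex_comap] at h1
    have h2 : (SU L SL).map (Nu F L) ≤ R0.comap (dlt T) := by
      rintro _ ⟨y, hy, rfl⟩
      show dlt T (Nu F L y) ∈ R0
      rw [hmem]
      refine ⟨hC1 y, fun t => ?_⟩
      show (nv L (t : Pl F) : ℤ) ∣ ordv (t : Pl F) (Nu F L y)
      have htB : (t : Pl F) ∉ B := fun h => Finset.disjoint_left.mp hd t.2 h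
      obtain ⟨-, h3⟩ := hUNV F L (t : Pl F) (hunr _ htB)
      unfold ordv
      rw [show ((Nu F L y : Fˣ) : F) = Algebra.norm F (y : L) from rfl, h3 (y : L),
        WithZero.log_pow]
      rw [nsmul_eq_mul]
      exact (dvd_neg).mpr (dvd_mul_right _ _)
    have h3 := Subgroup.relIndex_dvd_of_le_left (SU F (B ∪ T)) h2
    set i := ((SU L SL).map (Nu F L)).relIndex (SU F (B ∪ T)) with hi
    set r := (R0.comap (dlt T)).relIndex (SU F (B ∪ T)) with hr
    have h4 : r ≤ i := Nat.le_of_dvd (Nat.pos_of_ne_zero s1) h3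
    have h5 : Module.finrank F L * i ≤ R0.index := by
      rw [s2, hR0, Finset.prod_union hd.symm]
      calc (∏ v ∈ B, nv L v) * (∏ v ∈ T, nv L v) * ∏ w : InfinitePlace F, nw L w
          = ((∏ v ∈ B, nv L v) * ∏ w : InfinitePlace F, nw L w) * ∏ v ∈ T, nv L v := by ring
        _ ≤ C.index * ∏ v ∈ T, nv L v := Nat.mul_le_mul_right _ hC3
    rw [← h1] at h5
    have h6 : Module.finrank F L * i ≤ (R0 ⊔ M).index * i := by
      calc Module.finrank F L * i ≤ r * (R0 ⊔ M).index := h5
        _ ≤ i * (R0 ⊔ M).index := Nat.mul_le_mul_right _ h4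
        _ = (R0 ⊔ M).index * i := mul_comm _ _
    exact Nat.le_of_mul_le_mul_right h6 (Nat.pos_of_ne_zero s1)

end Pool.Agent.Helper78.REC
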