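import Pool.Agent.Helper57.REC.Stmts1

/-!
# PZC: the partial zeta functions of the ray classes differ by bounded functions
-/

set_option autoImplicit false

open scoped Classical nonZeroDivisors
open NumberField MeasureTheory

namespace Pool.Agent.Helper78.REC

open _root_.REC
open Pool.Agent.Helper13.ZL (Pl q)

variable {F : Type} [Field F] [NumberField F]

/-! ## The weight -/

theorem tent_nonneg (t : ℝ) : 0 ≤ tent t := le_max_left _ _

theorem tent_le_one (t : ℝ) : tent t ≤ 1 :=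
  max_le zero_le_one (by have := abs_nonneg t; linarith)

theorem wt_nonneg (M : ℕ) (x : mixedEmbedding.mixedSpace F) : 0 ≤ wt M x := by
  unfold wt
  split_ifs
  · exact Finset.prod_nonneg fun i _ => tent_nonneg _
  · exact le_rfl

theorem wt_le_one (M : ℕ) (x : mixedEmbedding.mixedSpace F) : wt M x ≤ 1 := by
  unfold wt
  split_ifs
  · exact Finset.prod_le_one (fun i _ => tent_nonneg _) fun i _ => tent_le_one _
  · exact zero_le_one

/-- the function of GEN -/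
noncomputable def fs (M : ℕ) (s : ℝ) (x : mixedEmbedding.mixedSpace F) : ℝ :=
  wt M x * mixedEmbedding.norm x ^ (-s)

theorem gs_eq (M : ℕ) (s : ℝ) (x : mixedEmbedding.mixedSpace F) :
    gs M s x = max 0 (min 1 (‖x‖ - 1)) * fs M s x := by
  unfold gs fs; ring

theorem cut_nonneg (t : ℝ) : 0 ≤ max 0 (min 1 (t - 1)) := le_max_left _ _

theorem cut_le_one (t : ℝ) : max 0 (min 1 (t - 1)) ≤ 1 := max_le zero_le_one (min_le_left _ _)

theorem cut_eq_one {t : ℝ} (h : 2 ≤ t) : max 0 (min 1 (t - 1)) = 1 := by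
  rw [min_eq_left (by linarith), max_eq_right zero_le_one]

theorem fs_bound (M : ℕ) {s : ℝ} (hs : 0 < s) (x : 𝓞 F) :
    0 ≤ fs M s (mixedEmbedding F (x : F)) ∧ fs M s (mixedEmbedding F (x : F)) ≤ 1 := by
  unfold fs
  have h0 : 0 ≤ mixedEmbedding.norm (mixedEmbedding F (x : F)) := mixedEmbedding.norm_nonneg _
  refine ⟨mul_nonneg (wt_nonneg _ _) (Real.rpow_nonneg h0 _), ?_⟩
  refine mul_le_one₀ (wt_le_one _ _) (Real.rpow_nonneg h0 _) ?_
  by_cases hx : x = 0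
  · subst hx
    simp only [map_zero]
    rw [Real.zero_rpow (by linarith)]
    exact zero_le_one
  · have h1 : 1 ≤ mixedEmbedding.norm (mixedEmbedding F (x : F)) := by
      rw [mixedEmbedding.norm_eq_norm]
      have h2 : (Algebra.norm ℤ x) ≠ 0 := Algebra.norm_ne_zero_iff.mpr hx
      have h3 : (1 : ℤ) ≤ |Algebra.norm ℤ x| := Int.one_le_abs h2
      have h4 : Algebra.norm ℚ (x : F) = ((Algebra.norm ℤ x : ℤ) : ℚ) := by
        rw [Algebra.coe_norm_int]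
      rw [h4]
      exact_mod_cast h3
    exact Real.rpow_le_one_of_one_le_of_nonpos h1 (by linarith)

/-! ## Finitely many points in a ball -/

theorem fin_ball (R : ℝ) : {x : 𝓞 F | ‖mixedEmbedding F (x : F)‖ ≤ R}.Finite := by
  have h := Embeddings.finite_of_norm_le F ℂ R
  refine Set.Finite.of_injOn (f := fun x : 𝓞 F => (x : F)) ?_ ?_ h
  · intro x hx
    refine ⟨x.2, ?_⟩
    rw [← InfinitePlace.le_iff_le]
    intro w
    rw [← mixedEmbedding.normAtPlace_apply]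
    refine le_trans ?_ hx
    rw [mixedEmbedding.norm_eq_sup'_normAtPlace]
    exact Finset.le_sup' (fun w => mixedEmbedding.normAtPlace w (mixedEmbedding F (x : F)))
      (Finset.mem_univ w)
  · exact fun x _ y _ hxy => RingOfIntegers.ext hxy

/-- the correction near the origin -/
theorem corr (𝔞 : Ideal (𝓞 F)) (α : 𝓞 F) (M : ℕ) : ∃ K : ℝ, ∀ s : ℝ, 1 < s →
    Summable (fun β : 𝔞 => gs M s (mixedEmbedding F ((α + β : 𝓞 F) : F))) →
    Summable (fun β : 𝔞 => fs M s (mixedEmbedding F ((α + β : 𝓞 F) : F))) ∧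
    |(∑' β : 𝔞, fs M s (mixedEmbedding F ((α + β : 𝓞 F) : F))) -
      ∑' β : 𝔞, gs M s (mixedEmbedding F ((α + β : 𝓞 F) : F))| ≤ K := by
  have hfin : {β : 𝔞 | ‖mixedEmbedding F ((α + β : 𝓞 F) : F)‖ ≤ 2}.Finite := by
    refine Set.Finite.of_injOn (f := fun β : 𝔞 => α + (β : 𝓞 F)) ?_ ?_ (fin_ball 2)
    · exact fun β hβ => hβ
    · intro β _ γ _ h
      exact Subtype.ext (add_left_cancel h)
  refine ⟨hfin.toFinset.card, fun s hs hsum => ?_⟩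
  set D : 𝔞 → ℝ := fun β => fs M s (mixedEmbedding F ((α + β : 𝓞 F) : F)) -
    gs M s (mixedEmbedding F ((α + β : 𝓞 F) : F)) with hD
  have hD1 : ∀ β : 𝔞, |D β| ≤ 1 := by
    intro β
    obtain ⟨h1, h2⟩ := fs_bound M (by linarith : 0 < s) (α + (β : 𝓞 F))
    have h3 := cut_nonneg ‖mixedEmbedding F ((α + β : 𝓞 F) : F)‖
    have h4 := cut_le_one ‖mixedEmbedding F ((α + β : 𝓞 F) : F)‖
    simp only [hD]
    rw [gs_eq, abs_le]
    constructor <;> nlinarith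
  have hD0 : ∀ β ∉ hfin.toFinset, D β = 0 := by
    intro β hβ
    simp only [Set.Finite.mem_toFinset, Set.mem_ofPred_eq, not_le] at hβ
    simp only [hD]
    rw [gs_eq, cut_eq_one hβ.le]
    ring
  have hDs : HasSum D (∑ β ∈ hfin.toFinset, D β) := hasSum_sum_of_ne_finset_zero hD0
  have e : (fun β : 𝔞 => fs M s (mixedEmbedding F ((α + β : 𝓞 F) : F))) =
      fun β => D β + gs M s (mixedEmbedding F ((α + β : 𝓞 F) : F)) := by
    funext β; simp only [hD]; ring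
  have hf := hDs.add hsum.hasSum
  rw [← e] at hf
  refine ⟨hf.summable, ?_⟩
  rw [hf.tsum_eq, add_sub_cancel_right]
  refine (Finset.abs_sum_le_sum_abs _ _).trans ?_
  refine (Finset.sum_le_card_nsmul _ _ 1 fun β _ => hD1 β).trans ?_
  simp

/-! ## The lattice -/

/-- the lattice of an ideal -/
noncomputable def lat (𝔞 : (Ideal (𝓞 F))⁰) :
    (𝔞 : Ideal (𝓞 F)) ≃ mixedEmbedding.idealLattice F (FractionalIdeal.mk0 F 𝔞) :=
  Equiv.ofBijective
    (fun β => ⟨mixedEmbedding F ((β : 𝓞 F) : F), by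
      rw [mixedEmbedding.mem_idealLattice]
      exact ⟨_, by simp, rfl⟩⟩)
    (by
      constructor
      · intro β γ h
        have h1 := congrArg Subtype.val h
        simp only at h1
        have h2 := (mixedEmbedding_injective F) h1
        exact Subtype.ext (RingOfIntegers.ext h2)
      · rintro ⟨x, hx⟩
        rw [mixedEmbedding.mem_idealLattice] at hx
        obtain ⟨y, hy, rfl⟩ := hx
        simp only [FractionalIdeal.coe_mk0, SetLike.mem_coe, FractionalIdeal.mem_coeIdeal] at hy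
        obtain ⟨a, ha, rfl⟩ := hy
        exact ⟨⟨a, ha⟩, rfl⟩)

theorem lat_apply (𝔞 : (Ideal (𝓞 F))⁰) (β : (𝔞 : Ideal (𝓞 F))) :
    ((lat 𝔞 β : mixedEmbedding.idealLattice F (FractionalIdeal.mk0 F 𝔞)) :
      mixedEmbedding.mixedSpace F) = mixedEmbedding F ((β : 𝓞 F) : F) := rfl

/-- the covolume of the ring of integers -/
noncomputable def cov0 (F : Type) [Field F] [NumberField F] : ℝ :=
  (2⁻¹) ^ InfinitePlace.nrComplexPlaces F * √|discr F|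

theorem cov0_pos : 0 < cov0 F := by
  unfold cov0
  have h : (0 : ℝ) < |(discr F : ℝ)| := abs_pos.mpr (by exact_mod_cast discr_ne_zero F)
  positivity

theorem covol (𝔞 : (Ideal (𝓞 F))⁰) :
    ZLattice.covolume (mixedEmbedding.idealLattice F (FractionalIdeal.mk0 F 𝔞)) volume =
      (Ideal.absNorm (𝔞 : Ideal (𝓞 F)) : ℝ) * cov0 F := by
  rw [mixedEmbedding.covolume_idealLattice]
  simp only [FractionalIdeal.coe_mk0, FractionalIdeal.coeIdeal_absNorm, Rat.cast_natCast, cov0]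
  ring

/-! ## Continuity -/

theorem gs_cont (hGLP : ST_GLP) (M : ℕ) (hM : 0 < M) (s : ℝ) (h1 : 1 ≤ s) (h2 : s ≤ 2) :
    Continuous (gs (F := F) M s) := by
  obtain ⟨C, hC, h⟩ := hGLP F M hM 1
  rw [Metric.continuous_iff]
  intro b ε hε
  have hd : 0 < ε / (C + 1) := by positivity
  refine ⟨min 1 (ε / (C + 1)), lt_min one_pos hd, fun a ha => ?_⟩
  rw [Real.dist_eq]
  have hab : ‖a - b‖ < min 1 (ε / (C + 1)) := by rwa [← dist_eq_norm]
  have h3 := h s h1 h2 a b (hab.le.trans (min_le_left _ _))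
  have h4 : (1 + ‖a‖) ^ (-(Module.finrank ℚ F + 1 : ℝ)) ≤ 1 :=
    Real.rpow_le_one_of_one_le_of_nonpos (by linarith [norm_nonneg a])
      (by have : (0 : ℝ) ≤ Module.finrank ℚ F := Nat.cast_nonneg _
          linarith)
  have h5 : ‖a - b‖ < ε / (C + 1) := hab.trans_le (min_le_right _ _)
  calc |gs M s a - gs M s b| ≤ C * ‖a - b‖ * (1 + ‖a‖) ^ (-(Module.finrank ℚ F + 1 : ℝ)) := h3
    _ ≤ C * ‖a - b‖ * 1 := by
        exact mul_le_mul_of_nonneg_left h4 (mul_nonneg hC (norm_nonneg _))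
    _ ≤ (C + 1) * ‖a - b‖ := by nlinarith [norm_nonneg (a - b)]
    _ < (C + 1) * (ε / (C + 1)) := by
        exact mul_lt_mul_of_pos_left h5 (by linarith)
    _ = ε := by field_simp

theorem gs_int (hGBD : ST_GBD) (hGLP : ST_GLP) (hINTB : ST_INTB) (M : ℕ) (hM : 0 < M) :
    ∃ A : ℝ, 0 ≤ A ∧ ∀ s : ℝ, 1 < s → s ≤ 2 →
      Integrable (gs (F := F) M s) volume ∧ |∫ x, gs (F := F) M s x| ≤ A / (s - 1) := by
  obtain ⟨C, hC⟩ := hGBD F M hM
  obtain ⟨K, hK, hI⟩ := hINTB (mixedEmbedding.mixedSpace F) volume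
  refine ⟨|C| * K, by positivity, fun s hs1 hs2 => ?_⟩
  obtain ⟨hi, hb⟩ := hI s hs1 hs2
  rw [mixedEmbedding.finrank] at hi hb
  have hbd : ∀ x : mixedEmbedding.mixedSpace F,
      ‖gs M s x‖ ≤ |C| * (1 + ‖x‖) ^ (-(Module.finrank ℚ F * s)) := by
    intro x
    obtain ⟨h0, h1⟩ := hC s hs1.le hs2 x
    rw [Real.norm_eq_abs, abs_of_nonneg h0]
    refine h1.trans ?_
    exact mul_le_mul_of_nonneg_right (le_abs_self C)
      (Real.rpow_nonneg (by linarith [norm_nonneg x]) _)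
  have hgi : Integrable (gs (F := F) M s) volume := by
    refine (hi.const_mul |C|).mono' ?_ (Filter.Eventually.of_forall hbd)
    exact (gs_cont hGLP M hM s hs1.le hs2).aestronglyMeasurable
  refine ⟨hgi, ?_⟩
  calc |∫ x, gs (F := F) M s x| = ‖∫ x, gs (F := F) M s x‖ := (Real.norm_eq_abs _).symm
    _ ≤ ∫ x : mixedEmbedding.mixedSpace F, |C| * (1 + ‖x‖) ^ (-(Module.finrank ℚ F * s)) :=
        norm_integral_le_of_norm_le (hi.const_mul |C|) (Filter.Eventually.of_forall hbd)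
    _ = |C| * ∫ x : mixedEmbedding.mixedSpace F, (1 + ‖x‖) ^ (-(Module.finrank ℚ F * s)) :=
        integral_const_mul _ _
    _ ≤ |C| * (K / (s - 1)) := mul_le_mul_of_nonneg_left hb (abs_nonneg _)
    _ = |C| * K / (s - 1) := by ring

/-- the sum over the lattice -/
theorem lat_sum (hGBD : ST_GBD) (hGLP : ST_GLP) (hSUMI : ST_SUMI) (hINTB : ST_INTB) (M : ℕ)
    (hM : 0 < M) (𝔞 : (Ideal (𝓞 F))⁰) (α : 𝓞 F) : ∃ K : ℝ, ∀ s : ℝ, 1 < s → s ≤ 2 →
    Summable (fun β : (𝔞 : Ideal (𝓞 F)) => gs M s (mixedEmbedding F ((α + β : 𝓞 F) : F))) ∧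
    |(∑' β : (𝔞 : Ideal (𝓞 F)), gs M s (mixedEmbedding F ((α + β : 𝓞 F) : F))) -
      ((Ideal.absNorm (𝔞 : Ideal (𝓞 F)) : ℝ) * cov0 F)⁻¹ * ∫ x, gs (F := F) M s x| ≤ K := by
  obtain ⟨ρ, K, hρ, hK, h⟩ := hSUMI (mixedEmbedding.mixedSpace F) volume
    (mixedEmbedding.idealLattice F (FractionalIdeal.mk0 F 𝔞))
  obtain ⟨C, hC, hl⟩ := hGLP F M hM ρ
  obtain ⟨A, hA, hi⟩ := gs_int (F := F) hGBD hGLP hINTB M hM
  refine ⟨K * C, fun s hs1 hs2 => ?_⟩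
  have hl' : ∀ x y : mixedEmbedding.mixedSpace F, ‖x - y‖ ≤ ρ →
      |gs M s x - gs M s y| ≤ C * ‖x - y‖ *
        (1 + ‖x‖) ^ (-(Module.finrank ℝ (mixedEmbedding.mixedSpace F) + 1 : ℝ)) := by
    intro x y hxy
    rw [mixedEmbedding.finrank]
    exact hl s hs1.le hs2 x y hxy
  obtain ⟨hS, hB⟩ := h (gs M s) C (mixedEmbedding F (α : F)) hC hl' (hi s hs1 hs2).1
  have e : ∀ β : (𝔞 : Ideal (𝓞 F)), gs M s (mixedEmbedding F ((α + β : 𝓞 F) : F)) =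
      gs M s (mixedEmbedding F (α : F) + ((lat 𝔞 β :
        mixedEmbedding.idealLattice F (FractionalIdeal.mk0 F 𝔞)) :
          mixedEmbedding.mixedSpace F)) := by
    intro β
    rw [lat_apply, ← map_add]
    simp only [map_add]
  have e' : (fun β : (𝔞 : Ideal (𝓞 F)) => gs M s (mixedEmbedding F ((α + β : 𝓞 F) : F))) =
      (fun l : mixedEmbedding.idealLattice F (FractionalIdeal.mk0 F 𝔞) =>
        gs M s (mixedEmbedding F (α : F) + (l : mixedEmbedding.mixedSpace F))) ∘ (lat 𝔞) := by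
    funext β; exact e β
  rw [covol] at hB
  refine ⟨?_, ?_⟩
  · rw [e']
    exact (lat 𝔞).summable_iff.mpr hS
  · rw [tsum_congr e]
    rw [(lat 𝔞).tsum_eq (fun l : mixedEmbedding.idealLattice F (FractionalIdeal.mk0 F 𝔞) =>
        gs M s (mixedEmbedding F (α : F) + (l : mixedEmbedding.mixedSpace F)))]
    exact hB

theorem rpow_sub_one_le {x t : ℝ} (hx : 1 ≤ x) (ht0 : 0 ≤ t) (ht1 : t ≤ 1) :
    |x ^ t - 1| ≤ (x - 1) * t := by
  have h1 : 1 ≤ x ^ t := Real.one_le_rpow hx ht0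
  rw [abs_of_nonneg (by linarith)]
  have h2 := rpow_one_add_le_one_add_mul_self (by linarith : -1 ≤ x - 1) ht0 ht1
  rw [show 1 + (x - 1) = x by ring] at h2
  linarith

/-- one class -/
theorem one_class (hGBD : ST_GBD) (hGLP : ST_GLP) (hSUMI : ST_SUMI) (hINTB : ST_INTB)
    (B : Finset (Pl F)) (N : ℕ) {G : Type} [CommGroup G] (cl : Ideal (𝓞 F) → G) (M g : ℕ)
    (hM : 0 < M) (hg : 0 < g) (c : G) (𝔟 : Ideal (𝓞 F)) (α : 𝓞 F) (h𝔟 : 𝔟 ≠ ⊥)
    (h : ∀ s : ℝ, 1 < s →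
        Summable (fun β : (𝔟 * ∏ v ∈ B, v.asIdeal ^ N : Ideal (𝓞 F)) =>
          wt M (mixedEmbedding F ((α + β : 𝓞 F) : F)) *
            mixedEmbedding.norm (mixedEmbedding F ((α + β : 𝓞 F) : F)) ^ (-s)) →
        Summable (zc B cl c s) ∧
        g * ∑' I, zc B cl c s I = (Ideal.absNorm 𝔟 : ℝ) ^ s *
          ∑' β : (𝔟 * ∏ v ∈ B, v.asIdeal ^ N : Ideal (𝓞 F)),
            wt M (mixedEmbedding F ((α + β : 𝓞 F) : F)) *
              mixedEmbedding.norm (mixedEmbedding F ((α + β : 𝓞 F) : F)) ^ (-s)) :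
    ∃ C : ℝ, ∀ s : ℝ, 1 < s → s ≤ 2 → Summable (zc B cl c s) ∧
      |(∑' I, zc B cl c s I) -
        (g * ((Ideal.absNorm (∏ v ∈ B, v.asIdeal ^ N) : ℝ) * cov0 F))⁻¹ *
          ∫ x, gs (F := F) M s x| ≤ C := by
  have hm : (∏ v ∈ B, v.asIdeal ^ N : Ideal (𝓞 F)) ≠ ⊥ := by
    rw [← Ideal.zero_eq_bot, Finset.prod_ne_zero_iff]
    exact fun v _ => pow_ne_zero _ v.ne_bot
  have h𝔞 : (𝔟 * ∏ v ∈ B, v.asIdeal ^ N : Ideal (𝓞 F)) ≠ 0 := mul_ne_zero h𝔟 hm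
  set 𝔪 : Ideal (𝓞 F) := ∏ v ∈ B, v.asIdeal ^ N with h𝔪
  let 𝔞 : (Ideal (𝓞 F))⁰ := ⟨𝔟 * 𝔪, mem_nonZeroDivisors_iff_ne_zero.mpr h𝔞⟩
  obtain ⟨K₁, hK₁⟩ := corr (𝔟 * 𝔪) α M
  obtain ⟨K₂, hK₂⟩ := lat_sum hGBD hGLP hSUMI hINTB M hM 𝔞 α
  obtain ⟨A, hA, hi⟩ := gs_int (F := F) hGBD hGLP hINTB M hM
  have hNb : (1 : ℝ) ≤ Ideal.absNorm 𝔟 := by
    have : Ideal.absNorm 𝔟 ≠ 0 := fun h0 => h𝔟 (Ideal.absNorm_eq_zero_iff.mp h0)
    exact_mod_cast Nat.one_le_iff_ne_zero.mpr this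
  have hNm : (1 : ℝ) ≤ Ideal.absNorm 𝔪 := by
    have : Ideal.absNorm 𝔪 ≠ 0 := fun h0 => hm (Ideal.absNorm_eq_zero_iff.mp h0)
    exact_mod_cast Nat.one_le_iff_ne_zero.mpr this
  have hgR : (1 : ℝ) ≤ g := by exact_mod_cast hg
  have hc0 : 0 < cov0 F := cov0_pos
  set b : ℝ := (Ideal.absNorm 𝔟 : ℝ) with hb
  set m : ℝ := (Ideal.absNorm 𝔪 : ℝ) with hm'
  have hmul : (Ideal.absNorm (𝔞 : Ideal (𝓞 F)) : ℝ) = b * m := by
    simp only [𝔞, hb, hm', map_mul, Nat.cast_mul]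
  refine ⟨((m * cov0 F)⁻¹ * A) * (b - 1) + b ^ (2 : ℝ) * (|K₁| + |K₂|), fun s hs1 hs2 => ?_⟩
  obtain ⟨hS2, hB2⟩ := hK₂ s hs1 hs2
  obtain ⟨hS1, hB1⟩ := hK₁ s hs1 hS2
  obtain ⟨hZ, hE⟩ := h s hs1 hS1
  obtain ⟨-, hI⟩ := hi s hs1 hs2
  refine ⟨hZ, ?_⟩
  rw [hmul] at hB2
  set I : ℝ := ∫ x, gs (F := F) M s x with hIdef
  set Z : ℝ := ∑' I, zc B cl c s I with hZdef
  set S : ℝ := ∑' β : (𝔟 * 𝔪 : Ideal (𝓞 F)), wt M (mixedEmbedding F ((α + β : 𝓞 F) : F)) *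
              mixedEmbedding.norm (mixedEmbedding F ((α + β : 𝓞 F) : F)) ^ (-s) with hSdef
  have hS3 : |S - (b * m * cov0 F)⁻¹ * I| ≤ |K₁| + |K₂| := by
    set T : ℝ := ∑' β : (𝔟 * 𝔪 : Ideal (𝓞 F)), gs M s (mixedEmbedding F ((α + β : 𝓞 F) : F))
      with hT
    have h1 : |S - T| ≤ |K₁| := hB1.trans (le_abs_self _)
    have h2 : |T - (b * m * cov0 F)⁻¹ * I| ≤ |K₂| := hB2.trans (le_abs_self _)
    exact (abs_sub_le _ T _).trans (add_le_add h1 h2)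
  -- g * Z = b ^ s * S
  have hs0 : 0 < s - 1 := by linarith
  have hbpos : 0 < b := by linarith
  have hbs : b ^ s = b * b ^ (s - 1) := by
    rw [show s = 1 + (s - 1) by ring, Real.rpow_add hbpos, Real.rpow_one]
    ring_nf
  have hr := rpow_sub_one_le hNb hs0.le (by linarith : s - 1 ≤ 1)
  have hZe : Z - (g * (m * cov0 F))⁻¹ * I =
      (g : ℝ)⁻¹ * ((b ^ (s - 1) - 1) * ((m * cov0 F)⁻¹ * I) +
        b ^ s * (S - (b * m * cov0 F)⁻¹ * I)) := by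
    have : Z = (g : ℝ)⁻¹ * (b ^ s * S) := by
      rw [← hE]; field_simp
    rw [this, hbs]
    field_simp
    ring
  rw [hZe, abs_mul, abs_of_nonneg (by positivity : (0 : ℝ) ≤ (g : ℝ)⁻¹)]
  have hg1 : (g : ℝ)⁻¹ ≤ 1 := inv_le_one_of_one_le₀ hgR
  have hP1 : |(b ^ (s - 1) - 1) * ((m * cov0 F)⁻¹ * I)| ≤ ((m * cov0 F)⁻¹ * A) * (b - 1) := by
    rw [abs_mul, abs_mul, abs_of_nonneg (by positivity : (0 : ℝ) ≤ (m * cov0 F)⁻¹)]
    calc |b ^ (s - 1) - 1| * ((m * cov0 F)⁻¹ * |I|)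
        ≤ ((b - 1) * (s - 1)) * ((m * cov0 F)⁻¹ * (A / (s - 1))) := by
          refine mul_le_mul hr ?_ (by positivity) (mul_nonneg (by linarith) hs0.le)
          exact mul_le_mul_of_nonneg_left hI (by positivity)
      _ = ((m * cov0 F)⁻¹ * A) * (b - 1) := by
          field_simp
  have hP2 : |b ^ s * (S - (b * m * cov0 F)⁻¹ * I)| ≤ b ^ (2 : ℝ) * (|K₁| + |K₂|) := by
    rw [abs_mul, abs_of_nonneg (by positivity : (0 : ℝ) ≤ b ^ s)]
    exact mul_le_mul (Real.rpow_le_rpow_of_exponent_le hNb hs2) hS3 (abs_nonneg _) (by positivity)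
  calc (g : ℝ)⁻¹ * |(b ^ (s - 1) - 1) * ((m * cov0 F)⁻¹ * I) +
        b ^ s * (S - (b * m * cov0 F)⁻¹ * I)|
      ≤ 1 * |(b ^ (s - 1) - 1) * ((m * cov0 F)⁻¹ * I) +
        b ^ s * (S - (b * m * cov0 F)⁻¹ * I)| := mul_le_mul_of_nonneg_right hg1 (abs_nonneg _)
    _ ≤ |(b ^ (s - 1) - 1) * ((m * cov0 F)⁻¹ * I)| +
        |b ^ s * (S - (b * m * cov0 F)⁻¹ * I)| := by rw [one_mul]; exact abs_add_le _ _
    _ ≤ _ := add_le_add hP1 hP2

theorem st_PZC : ST_GEN → ST_GBD → ST_GLP → ST_SUMI → ST_INTB → ST_PZC := by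
  intro hGEN hGBD hGLP hSUMI hINTB F _ _ B N hN G _ _ cl hcl
  obtain ⟨M, g, hM, hg, h⟩ := hGEN F B N hN G cl hcl
  have key : ∀ c : G, ∃ C : ℝ, ∀ s : ℝ, 1 < s → s ≤ 2 → Summable (zc B cl c s) ∧
      |(∑' I, zc B cl c s I) -
        (g * ((Ideal.absNorm (∏ v ∈ B, v.asIdeal ^ N) : ℝ) * cov0 F))⁻¹ *
          ∫ x, gs (F := F) M s x| ≤ C := by
    intro c
    obtain ⟨𝔟, α, h𝔟, hs⟩ := h c
    exact one_class hGBD hGLP hSUMI hINTB B N cl M g hM hg c 𝔟 α h𝔟.1 hs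
  choose C hC using key
  obtain ⟨C', hC'⟩ := (Set.finite_range C).bddAbove
  refine ⟨fun s => (g * ((Ideal.absNorm (∏ v ∈ B, v.asIdeal ^ N) : ℝ) * cov0 F))⁻¹ *
          ∫ x, gs (F := F) M s x, C', fun c s hs1 hs2 => ?_⟩
  obtain ⟨h1, h2⟩ := hC c s hs1 hs2
  exact ⟨h1, h2.trans (hC' ⟨c, rfl⟩)⟩

end Pool.Agent.Helper78.REC
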