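import Pool.Agent.Helper57.REC.Stmts3

/-!
# SUX: norms of `T`-units
-/

set_option autoImplicit false

open scoped Classical
open NumberField

namespace Pool.Agent.Helper78.REC

open _root_.REC
open Pool.Agent.Helper13.ZL (Pl q)

section cyc

variable {F L : Type} [Field F] [NumberField F] [Field L] [NumberField L] [Algebra F L]
  [IsGalois F L]

theorem sig_ord (σ : L ≃ₐ[F] L) (hσ : ∀ τ : L ≃ₐ[F] L, ∃ k : ℕ, τ = σ ^ k) :
    orderOf σ = Module.finrank F L := by
  rw [← IsGalois.card_aut_eq_finrank]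
  refine orderOf_eq_card_of_forall_mem_zpowers fun τ => ?_
  obtain ⟨k, rfl⟩ := hσ τ
  exact ⟨k, by simp⟩

theorem sig_pow (σ : L ≃ₐ[F] L) (hσ : ∀ τ : L ≃ₐ[F] L, ∃ k : ℕ, τ = σ ^ k) :
    σ ^ (Module.finrank F L) = 1 := by
  rw [← sig_ord σ hσ]; exact pow_orderOf_eq_one σ

theorem norm_prod (σ : L ≃ₐ[F] L) (hσ : ∀ τ : L ≃ₐ[F] L, ∃ k : ℕ, τ = σ ^ k) (x : L) :
    algebraMap F L (Algebra.norm F x) =
      ∏ i ∈ Finset.range (Module.finrank F L), (σ ^ i : L ≃ₐ[F] L) x := by
  rw [Algebra.norm_eq_prod_automorphisms]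
  symm
  have hn : 0 < Module.finrank F L := Module.finrank_pos
  refine Finset.prod_nbij (fun i => σ ^ i) ?_ ?_ ?_ ?_
  · intro i _; exact Finset.mem_univ _
  · intro i hi j hj hij
    simp only [Finset.coe_range, Set.mem_Iio] at hi hj
    rw [← sig_ord σ hσ] at hi hj
    exact pow_injOn_Iio_orderOf hi hj hij
  · intro τ _
    obtain ⟨k, rfl⟩ := hσ τ
    refine ⟨k % Module.finrank F L, ?_, ?_⟩
    · simp only [Finset.coe_range, Set.mem_Iio]
      exact Nat.mod_lt _ hn
    · simp only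
      rw [← sig_ord σ hσ, pow_mod_orderOf]
  · intro i _; rfl

end cyc

section places

variable {F L : Type} [Field F] [NumberField F] [Field L] [NumberField L] [Algebra F L]

theorem q_eq (τ : L ≃ₐ[F] L) (P P' : Pl L)
    (h : ∀ x : L, P'.valuation L (τ x) = P.valuation L x) : q P' = q P := by
  let e : 𝓞 L ≃+* 𝓞 L := RingOfIntegers.mapRingEquiv τ
  have he : ∀ x : 𝓞 L, ((e x : 𝓞 L) : L) = τ (x : L) := fun x => rfl
  have hP : P'.asIdeal = P.asIdeal.map (e : 𝓞 L →+* 𝓞 L) := by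
    ext y
    rw [show P.asIdeal.map (e : 𝓞 L →+* 𝓞 L) = P.asIdeal.map e from rfl, Ideal.mem_map_of_equiv]
    constructor
    · intro hy
      refine ⟨e.symm y, ?_, e.apply_symm_apply y⟩
      rw [← P.valuation_lt_one_iff_mem (K := L)]
      have h1 := h ((e.symm y : 𝓞 L) : L)
      rw [← he, e.apply_symm_apply] at h1
      have h2 : P'.valuation L ((y : 𝓞 L) : L) < 1 := (P'.valuation_lt_one_iff_mem y).mpr hy
      rw [h1] at h2
      exact h2
    · rintro ⟨x, hx, rfl⟩
      rw [← P'.valuation_lt_one_iff_mem (K := L)]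
      have h1 := h (x : L)
      rw [← he] at h1
      have h2 : P.valuation L ((x : 𝓞 L) : L) < 1 := (P.valuation_lt_one_iff_mem x).mpr hx
      rw [← h1] at h2
      exact h2
  unfold q
  rw [Ideal.absNorm_apply, Ideal.absNorm_apply, Submodule.cardQuot_apply, Submodule.cardQuot_apply]
  exact (Nat.card_congr (Ideal.quotientEquiv P.asIdeal P'.asIdeal e hP).toEquiv).symm

theorem abv_eq (P P' : Pl L) (x y : L) (hq : q P' = q P)
    (h : P'.valuation L y = P.valuation L x) :
    NumberField.HeightOneSpectrum.adicAbv L P' y = NumberField.HeightOneSpectrum.adicAbv L P x := by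
  rw [NumberField.HeightOneSpectrum.adicAbv_def, NumberField.HeightOneSpectrum.adicAbv_def, h]
  have aux : ∀ (a b : NNReal) (ha : a ≠ 0) (hb : b ≠ 0) (z : WithZero (Multiplicative ℤ)), a = b →
      WithZeroMulInt.toNNReal ha z = WithZeroMulInt.toNNReal hb z := by
    intro a b ha hb z hab; subst hab; rfl
  exact congrArg _ (aux _ _ _ _ _ (by unfold q at hq; exact_mod_cast hq))

end places

/-- an action gives a permutation -/
theorem perm_of_act {X Gp : Type} [Group Gp] (act : Gp → X → X) (h1 : ∀ x, act 1 x = x)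
    (hm : ∀ g h x, act (g * h) x = act g (act h x)) (g : Gp) :
    ∃ π : Equiv.Perm X, ∀ (k : ℕ) (x : X), (π ^ k) x = act (g ^ k) x := by
  let π : Equiv.Perm X := ⟨act g, act g⁻¹, fun x => by rw [← hm, inv_mul_cancel, h1],
    fun x => by rw [← hm, mul_inv_cancel, h1]⟩
  refine ⟨π, fun k => ?_⟩
  induction k with
  | zero => intro x; simp [h1]
  | succ k ih =>
    intro x
    rw [pow_succ, pow_succ, Equiv.Perm.mul_apply, ih, hm]
    rfl

section autos

variable {F L : Type} [Field F] [Field L] [Algebra F L]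

/-- the action on a stable subgroup of the units -/
def autS (S : Subgroup Lˣ)
    (hS : ∀ (τ : L ≃ₐ[F] L) (x : Lˣ), x ∈ S → Units.map (τ : L →* L) x ∈ S) :
    (L ≃ₐ[F] L) →* MulAut S where
  toFun τ :=
    { toFun := fun x => ⟨Units.map (τ : L →* L) x, hS τ x x.2⟩
      invFun := fun x => ⟨Units.map ((τ⁻¹ : L ≃ₐ[F] L) : L →* L) x, hS τ⁻¹ x x.2⟩
      left_inv := by
        intro x
        apply Subtype.ext; apply Units.ext
        simp only [Units.coe_map]
        exact τ.symm_apply_apply _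
      right_inv := by
        intro x
        apply Subtype.ext; apply Units.ext
        simp only [Units.coe_map]
        exact τ.apply_symm_apply _
      map_mul' := by
        intro x y
        apply Subtype.ext
        simp }
  map_one' := by
    apply MulEquiv.ext
    intro x
    apply Subtype.ext; apply Units.ext
    rfl
  map_mul' := by
    intro τ τ'
    apply MulEquiv.ext
    intro x
    apply Subtype.ext; apply Units.ext
    rfl

theorem autS_apply (S : Subgroup Lˣ)
    (hS : ∀ (τ : L ≃ₐ[F] L) (x : Lˣ), x ∈ S → Units.map (τ : L →* L) x ∈ S)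
    (τ : L ≃ₐ[F] L) (x : S) :
    (((autS S hS τ x : S) : Lˣ) : L) = τ ((x : Lˣ) : L) := rfl

theorem nm_autS [NumberField F] [NumberField L] [IsGalois F L] (S : Subgroup Lˣ)
    (hS : ∀ (τ : L ≃ₐ[F] L) (x : Lˣ), x ∈ S → Units.map (τ : L →* L) x ∈ S)
    (σ : L ≃ₐ[F] L) (hσ : ∀ τ : L ≃ₐ[F] L, ∃ k : ℕ, τ = σ ^ k) (x : S) :
    (((nm (autS S hS σ) (Module.finrank F L) x : S) : Lˣ) : L) =
      algebraMap F L (Algebra.norm F ((x : Lˣ) : L)) := by
  rw [norm_prod σ hσ]
  unfold nm
  rw [MonoidHom.finsetProd_apply]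
  rw [SubmonoidClass.coe_finsetProd, Units.coe_prod]
  refine Finset.prod_congr rfl fun i _ => ?_
  rw [← map_pow]
  rfl

theorem dd_autS (S : Subgroup Lˣ)
    (hS : ∀ (τ : L ≃ₐ[F] L) (x : Lˣ), x ∈ S → Units.map (τ : L →* L) x ∈ S)
    (σ : L ≃ₐ[F] L) (x : S) :
    (((dd (autS S hS σ) x : S) : Lˣ) : L) = σ ((x : Lˣ) : L) / ((x : Lˣ) : L) := by
  unfold dd
  rw [MonoidHom.div_apply]
  push_cast
  rfl

end autos

section main

variable {F L : Type} [Field F] [NumberField F] [Field L] [NumberField L] [Algebra F L]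
  [IsGalois F L]

/-- the permutation of the places -/
theorem places (hPOV : ST_POV) (hINFP : ST_INFP) (σ : L ≃ₐ[F] L)
    (hσ : ∀ τ : L ≃ₐ[F] L, ∃ k : ℕ, τ = σ ^ k) (T : Finset (Pl F)) (TL : Finset (Pl L))
    (hTL : IsTL T TL) :
    (∀ (τ : L ≃ₐ[F] L) (x : Lˣ), x ∈ SU L TL → Units.map (τ : L →* L) x ∈ SU L TL) ∧
    ∃ (π : Equiv.Perm ({P // P ∈ TL} ⊕ InfinitePlace L))
      (pr : {P // P ∈ TL} ⊕ InfinitePlace L → {v // v ∈ T} ⊕ InfinitePlace F),
      π ^ (Module.finrank F L) = 1 ∧ IsOrb π pr ∧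
      (∀ (a b : SU L TL), ((b : Lˣ) : L) = σ ((a : Lˣ) : L) → ∀ x, lSU L TL b (π x) = lSU L TL a x) ∧
      (∀ (P : {P // P ∈ TL}) (v : {v // v ∈ T}), pr (Sum.inl P) = Sum.inl v ↔ OvL v.1 P.1) ∧
      (∀ (P : {P // P ∈ TL}) (w : InfinitePlace F), pr (Sum.inl P) ≠ Sum.inr w) ∧
      (∀ (u : InfinitePlace L) (v : {v // v ∈ T}), pr (Sum.inr u) ≠ Sum.inl v) ∧
      (∀ (u : InfinitePlace L) (w : InfinitePlace F), pr (Sum.inr u) = Sum.inr w ↔
        u.comap (algebraMap F L) = w) := by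
  obtain ⟨p1, p2, p3, p4, p5, -, -, -⟩ := hPOV F L
  obtain ⟨i1, i2, i3, -⟩ := hINFP F L
  choose act hact0 using p3
  have hact : ∀ (τ : L ≃ₐ[F] L) (P : Pl L) (x : L),
      (act τ P).valuation L (τ x) = P.valuation L x := fun τ P => (hact0 τ P).1
  have hactu : ∀ (τ : L ≃ₐ[F] L) (P P' : Pl L),
      (∀ x : L, P'.valuation L (τ x) = P.valuation L x) → P' = act τ P :=
    fun τ P P' h => (hact0 τ P).2 P' h
  choose acti hacti0 using i2
  have hacti : ∀ (τ : L ≃ₐ[F] L) (u : InfinitePlace L) (x : L),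
      (acti τ u) (τ x) = u x := fun τ u => (hacti0 τ u).1
  have hactiu : ∀ (τ : L ≃ₐ[F] L) (u u' : InfinitePlace L),
      (∀ x : L, u' (τ x) = u x) → u' = acti τ u :=
    fun τ u u' h => (hacti0 τ u).2 u' h
  have hTLs : ∀ (τ : L ≃ₐ[F] L) (P : Pl L), P ∈ TL → act τ P ∈ TL := by
    intro τ P hP
    obtain ⟨v, hv, hvP⟩ := (hTL P).mp hP
    exact (hTL _).mpr ⟨v, hv, p4 τ P _ (hact τ P) v hvP⟩
  have hone : ∀ P : Pl L, act 1 P = P := fun P => (hactu 1 P P fun x => rfl).symm
  have hmul : ∀ (τ τ' : L ≃ₐ[F] L) (P : Pl L), act (τ * τ') P = act τ (act τ' P) := by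
    intro τ τ' P
    symm
    apply hactu
    intro x
    rw [show (τ * τ') x = τ (τ' x) from rfl, hact, hact]
  have honei : ∀ u : InfinitePlace L, acti 1 u = u := fun u => (hactiu 1 u u fun x => rfl).symm
  have hmuli : ∀ (τ τ' : L ≃ₐ[F] L) (u : InfinitePlace L),
      acti (τ * τ') u = acti τ (acti τ' u) := by
    intro τ τ' u
    symm
    apply hactiu
    intro x
    rw [show (τ * τ') x = τ (τ' x) from rfl, hacti, hacti]
  have hback : ∀ (τ : L ≃ₐ[F] L) (P : Pl L), act τ (act τ⁻¹ P) = P := by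
    intro τ P
    rw [← hmul, mul_inv_cancel, hone]
  refine ⟨?_, ?_⟩
  · intro τ x hx P hP
    have h1 : act τ⁻¹ P ∉ TL := fun h => hP (by rw [← hback τ P]; exact hTLs τ _ h)
    have h2 := hact τ (act τ⁻¹ P) (x : L)
    rw [hback] at h2
    rw [Units.coe_map]
    exact h2.trans (hx _ h1)
  -- the action on the union
  let aX : (L ≃ₐ[F] L) → ({P // P ∈ TL} ⊕ InfinitePlace L) → ({P // P ∈ TL} ⊕ InfinitePlace L) :=
    fun τ x => Sum.elim (fun P => Sum.inl ⟨act τ P.1, hTLs τ P.1 P.2⟩)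
      (fun u => Sum.inr (acti τ u)) x
  have aX1 : ∀ x, aX 1 x = x := by
    rintro (⟨P, hP⟩ | u)
    · simp only [aX, Sum.elim_inl, hone]
    · simp only [aX, Sum.elim_inr, honei]
  have aXm : ∀ g h x, aX (g * h) x = aX g (aX h x) := by
    rintro g h (⟨P, hP⟩ | u)
    · simp only [aX, Sum.elim_inl, hmul]
    · simp only [aX, Sum.elim_inr, hmuli]
  obtain ⟨π, hπ⟩ := perm_of_act aX aX1 aXm σ
  have hv : ∀ P : {P // P ∈ TL}, ∃ v : {v // v ∈ T}, OvL v.1 P.1 := by
    intro P
    obtain ⟨v, hv, hvP⟩ := (hTL P.1).mp P.2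
    exact ⟨⟨v, hv⟩, hvP⟩
  choose pv hpv using hv
  let pr : {P // P ∈ TL} ⊕ InfinitePlace L → {v // v ∈ T} ⊕ InfinitePlace F := fun x =>
    Sum.elim (fun P => Sum.inl (pv P)) (fun u => Sum.inr (u.comap (algebraMap F L))) x
  have huv : ∀ (P : Pl L) (v v' : Pl F), OvL v P → OvL v' P → v = v' := fun P v v' h h' =>
    (p1 P).unique h h'
  have hprl : ∀ (P : {P // P ∈ TL}) (v : {v // v ∈ T}),
      pr (Sum.inl P) = Sum.inl v ↔ OvL v.1 P.1 := by
    intro P v
    simp only [pr, Sum.elim_inl, Sum.inl.injEq]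
    constructor
    · rintro rfl; exact hpv P
    · intro h; exact Subtype.ext (huv P.1 _ _ (hpv P) h)
  refine ⟨π, pr, ?_, ⟨?_, ?_⟩, ?_, hprl, ?_, ?_, ?_⟩
  · apply Equiv.ext
    intro x
    rw [hπ, sig_pow σ hσ, aX1]
    rfl
  · rintro (⟨v, hv⟩ | w)
    · obtain ⟨-, ⟨P, hP⟩, -⟩ := p2 v
      exact ⟨Sum.inl ⟨P, (hTL P).mpr ⟨v, hv, hP⟩⟩, (hprl _ _).mpr hP⟩
    · obtain ⟨⟨u, hu⟩, -⟩ := i1 w
      refine ⟨Sum.inr u, ?_⟩
      simp only [pr, Sum.elim_inr, hu]
  · rintro (⟨P, hP⟩ | u) (⟨P', hP'⟩ | u')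
    · constructor
      · intro h
        have h1 : OvL (pv ⟨P, hP⟩).1 P := hpv ⟨P, hP⟩
        have h2 : OvL (pv ⟨P, hP⟩).1 P' := (hprl ⟨P', hP'⟩ _).mp h.symm
        obtain ⟨τ, hτ⟩ := p5 _ P P' h1 h2
        obtain ⟨k, rfl⟩ := hσ τ
        refine ⟨k, ?_⟩
        rw [hπ]
        simp only [aX, Sum.elim_inl, Sum.inl.injEq, Subtype.mk.injEq]
        exact (hactu _ _ _ hτ).symm
      · rintro ⟨k, hk⟩
        rw [hπ] at hk
        simp only [aX, Sum.elim_inl, Sum.inl.injEq, Subtype.mk.injEq] at hk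
        symm
        refine (hprl ⟨P', hP'⟩ (pv ⟨P, hP⟩)).mpr ?_
        show OvL (pv ⟨P, hP⟩).1 P'
        rw [← hk]
        exact p4 _ P _ (hact _ P) _ (hpv ⟨P, hP⟩)
    · constructor
      · intro h
        simp only [pr, Sum.elim_inl, Sum.elim_inr, reduceCtorEq] at h
      · rintro ⟨k, hk⟩
        rw [hπ] at hk
        simp only [aX, Sum.elim_inl, reduceCtorEq] at hk
    · constructor
      · intro h
        simp only [pr, Sum.elim_inl, Sum.elim_inr, reduceCtorEq] at h
      · rintro ⟨k, hk⟩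
        rw [hπ] at hk
        simp only [aX, Sum.elim_inr, reduceCtorEq] at hk
    · simp only [pr, Sum.elim_inr, Sum.inr.injEq]
      rw [i3]
      constructor
      · rintro ⟨τ, hτ⟩
        obtain ⟨k, rfl⟩ := hσ τ
        refine ⟨k, ?_⟩
        rw [hπ]
        simp only [aX, Sum.elim_inr, Sum.inr.injEq]
        exact (hactiu _ _ _ hτ).symm
      · rintro ⟨k, hk⟩
        rw [hπ] at hk
        simp only [aX, Sum.elim_inr, Sum.inr.injEq] at hk
        refine ⟨σ ^ k, ?_⟩
        rw [← hk]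
        exact hacti _ u
  · intro a b hab x
    have h1 : π x = aX σ x := by
      have := hπ 1 x
      rwa [pow_one, pow_one] at this
    rw [h1]
    rcases x with ⟨P, hP⟩ | u
    · simp only [aX, Sum.elim_inl, lSU]
      rw [hab, abv_eq P (act σ P) _ _ (q_eq σ P _ (hact σ P)) (hact σ P _)]
    · simp only [aX, Sum.elim_inr, lSU]
      have hm : (acti σ u).mult = u.mult := by
        have hc : (acti σ u).comap ((σ : L ≃+* L) : L →+* L) = u := by
          apply InfinitePlace.ext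
          intro x
          exact hacti σ u x
        have hr : u.IsReal ↔ (acti σ u).IsReal := by
          conv_lhs => rw [← hc]
          exact InfinitePlace.isReal_comap_iff (σ : L ≃+* L)
        unfold InfinitePlace.mult
        by_cases h : u.IsReal
        · rw [if_pos h, if_pos (hr.mp h)]
        · rw [if_neg h, if_neg (fun h' => h (hr.mpr h'))]
      rw [hab, hacti, hm]
  · intro P w
    simp only [pr, Sum.elim_inl, ne_eq, reduceCtorEq, not_false_eq_true]
  · intro u v
    simp only [pr, Sum.elim_inr, ne_eq, reduceCtorEq, not_false_eq_true]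
  · intro u w
    simp only [pr, Sum.elim_inr, Sum.inr.injEq]

end main

theorem st_SUX : ST_HES → ST_POV → ST_INFP → ST_SUN → ST_H1S → ST_SUX := by
  intro hHES hPOV hINFP hSUN hH1S F L _ _ _ _ _ _ σ hσ T TL hTL hunr hcl
  obtain ⟨hS, π, pr, hπ, hOrb, hℓ, hp1, hp2, hp3, hp4⟩ := places hPOV hINFP σ hσ T TL hTL
  obtain ⟨p1, p2, -, -, -, -, -, -⟩ := hPOV F L
  obtain ⟨u1, u2, u3⟩ := hSUN L TL
  have hn : 0 < Module.finrank F L := Module.finrank_pos
  let s : MulAut (SU L TL) := autS (SU L TL) hS σ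
  have hs : s ^ (Module.finrank F L) = 1 := by
    simp only [s]
    rw [← map_pow, sig_pow σ hσ, map_one]
  obtain ⟨h0n, h1n, hE⟩ := hHES (SU L TL) ({P // P ∈ TL} ⊕ InfinitePlace L)
    ({v // v ∈ T} ⊕ InfinitePlace F) π pr (lSU L TL) s (Module.finrank F L) hn hs hπ hOrb
    (fun a x => hℓ a (s a) (autS_apply _ _ _ _) x) u1 u2 u3
  have hH1 : h1 s (Module.finrank F L) = 1 := by
    unfold h1
    rw [Subgroup.relIndex_eq_one]
    intro x hx
    rw [MonoidHom.mem_ker] at hx
    have hN : Algebra.norm F ((x : Lˣ) : L) = 1 := by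
      have h1 := nm_autS (SU L TL) hS σ hσ x
      rw [hx] at h1
      apply (algebraMap F L).injective
      rw [← h1, map_one]
      rfl
    obtain ⟨y, hy, hxy⟩ := hH1S F L σ hσ T TL hTL hunr hcl x x.2 hN
    refine ⟨⟨y, hy⟩, ?_⟩
    apply Subtype.ext
    apply Units.ext
    rw [dd_autS]
    exact hxy.symm
  have hH0 : h0 s (Module.finrank F L) = ((SU L TL).map (Nu F L)).relIndex (SU F T) := by
    unfold h0
    have hj : Function.Injective (SU L TL).subtype := Subtype.val_injective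
    have hjF : Function.Injective (Units.map (algebraMap F L : F →* L)) :=
      Units.map_injective (algebraMap F L).injective
    rw [← Subgroup.relIndex_map_map_of_injective _ _ hj,
      ← Subgroup.relIndex_map_map_of_injective ((SU L TL).map (Nu F L)) (SU F T) hjF]
    have e1 : (nm s (Module.finrank F L)).range.map (SU L TL).subtype =
        ((SU L TL).map (Nu F L)).map (Units.map (algebraMap F L : F →* L)) := by
      ext z
      constructor
      · rintro ⟨_, ⟨x, rfl⟩, rfl⟩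
        refine ⟨Nu F L x, ⟨x, x.2, rfl⟩, ?_⟩
        apply Units.ext
        exact (nm_autS (SU L TL) hS σ hσ x).symm
      · rintro ⟨_, ⟨x, hx, rfl⟩, rfl⟩
        refine ⟨_, ⟨⟨x, hx⟩, rfl⟩, ?_⟩
        apply Units.ext
        exact nm_autS (SU L TL) hS σ hσ ⟨x, hx⟩
    have e2 : (dd s).ker.map (SU L TL).subtype =
        (SU F T).map (Units.map (algebraMap F L : F →* L)) := by
      ext z
      constructor
      · rintro ⟨x, hx, rfl⟩
        have hx1 : dd s x = 1 := hx
        have h1 := dd_autS (SU L TL) hS σ x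
        have h2 : (((dd (autS (SU L TL) hS σ) x : SU L TL) : Lˣ) : L) = 1 := by
          have : dd (autS (SU L TL) hS σ) x = 1 := hx1
          rw [this]; rfl
        rw [h2] at h1
        have hx0 : ((x : Lˣ) : L) ≠ 0 := Units.ne_zero _
        have h3 : σ ((x : Lˣ) : L) = ((x : Lˣ) : L) := ((eq_div_iff hx0).mp h1).symm.trans (one_mul _)
        have h4 : ∀ k : ℕ, (σ ^ k : L ≃ₐ[F] L) ((x : Lˣ) : L) = ((x : Lˣ) : L) := by
          intro k
          induction k with
          | zero => rfl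
          | succ k ih =>
            rw [pow_succ]
            show (σ ^ k : L ≃ₐ[F] L) (σ ((x : Lˣ) : L)) = _
            rw [h3, ih]
        have h5 : ((x : Lˣ) : L) ∈ Set.range (algebraMap F L) := by
          rw [IsGalois.mem_range_algebraMap_iff_fixed]
          intro τ
          obtain ⟨k, rfl⟩ := hσ τ
          exact h4 k
        obtain ⟨a, ha⟩ := h5
        have ha0 : a ≠ 0 := by
          rintro rfl
          rw [map_zero] at ha
          exact hx0 ha.symm
        refine ⟨Units.mk0 a ha0, ?_, ?_⟩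
        · intro v hv
          obtain ⟨-, ⟨P, hP⟩, -⟩ := p2 v
          have hPT : P ∉ TL := by
            intro h
            obtain ⟨v', hv', hvP⟩ := (hTL P).mp h
            exact hv (by rw [(p1 P).unique hP hvP]; exact hv')
          have h6 := x.2 P hPT
          rw [← ha] at h6
          exact (hunr v hv P hP a).symm.trans h6
        · apply Units.ext
          exact ha
      · rintro ⟨a, ha, rfl⟩
        have hm : Units.map (algebraMap F L : F →* L) a ∈ SU L TL := by
          intro P hP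
          obtain ⟨v, hv, -⟩ := p1 P
          have hvT : v ∉ T := fun h => hP ((hTL P).mpr ⟨v, h, hv⟩)
          exact (hunr v hvT P hv a).trans (ha v hvT)
        refine ⟨⟨_, hm⟩, ?_, rfl⟩
        show dd s ⟨_, hm⟩ = 1
        apply Subtype.ext
        apply Units.ext
        rw [dd_autS]
        show σ (algebraMap F L a) / algebraMap F L a = 1
        rw [AlgEquiv.commutes]
        exact div_self (by simp)
    rw [e1, e2]
  rw [hH1, mul_one, hH0] at hE
  rw [hH0] at h0n
  refine ⟨h0n, ?_⟩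
  rw [hE, Fintype.prod_sum_type]
  congr 1
  · rw [← Finset.prod_coe_sort T (fun v => nv L v)]
    refine Finset.prod_congr rfl fun v _ => ?_
    unfold nv
    congr 1
    symm
    refine Nat.card_congr (Equiv.ofBijective (fun P : {P : Pl L // OvL (v : Pl F) P} =>
      (⟨Sum.inl ⟨P.1, (hTL P.1).mpr ⟨v.1, v.2, P.2⟩⟩, (hp1 _ _).mpr P.2⟩ :
        {x // pr x = Sum.inl v})) ⟨?_, ?_⟩)
    · intro P P' h
      simp only [Subtype.mk.injEq, Sum.inl.injEq] at h
      exact Subtype.ext h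
    · rintro ⟨P | u, h⟩
      · exact ⟨⟨P.1, (hp1 _ _).mp h⟩, rfl⟩
      · exact absurd h (hp3 u v)
  · refine Finset.prod_congr rfl fun w _ => ?_
    unfold nw
    congr 1
    symm
    refine Nat.card_congr (Equiv.ofBijective
      (fun u : {u : InfinitePlace L // u.comap (algebraMap F L) = w} =>
      (⟨Sum.inr u.1, (hp4 _ _).mpr u.2⟩ : {x // pr x = Sum.inr w})) ⟨?_, ?_⟩)
    · intro P P' h
      simp only [Subtype.mk.injEq, Sum.inr.injEq] at h
      exact Subtype.ext h
    · rintro ⟨P | u, h⟩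
      · exact absurd h (hp2 P w)
      · exact ⟨⟨u, (hp4 _ _).mp h⟩, rfl⟩

end Pool.Agent.Helper78.REC
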