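import Pool.Agent.Helper85.REC.Stmts9
import Pool.Agent.Helper43.MU.Sub

/-!
# INV3: a subgroup of index two whose complement consists of involutions up to scalars
-/

set_option autoImplicit false

open scoped Classical
open Polynomial

namespace Pool.Agent.Helper78.REC.INV3

open _root_.REC (IsForm)

variable {K : Type} [Field K]

/-- an antisymmetric `3 × 3` matrix `C` with `C S C = 0`, `S` invertible, is `0` -/
theorem anti (h2 : (2 : K) ≠ 0) (C S : Matrix (Fin 3) (Fin 3) K) (hC : C.transpose = -C)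
    (hS : S.det ≠ 0) (h : C * (S * C) = 0) : C = 0 := by
  have h1 : C.rank + (S * C).rank ≤ 3 := by
    have := Matrix.rank_add_rank_le_card_of_mul_eq_zero h
    simpa using this
  rw [Matrix.rank_mul_eq_right_of_det_ne_zero S C hS] at h1
  have hr : C.rank ≤ 1 := by omega
  have hanti : ∀ i j, C j i = -C i j := by
    intro i j
    have h3 := congrArg (fun M : Matrix (Fin 3) (Fin 3) K => M i j) hC
    simpa using h3
  have hdiag : ∀ i, C i i = 0 := by
    intro i
    have h3 := hanti i i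
    have h4 : (2 : K) * C i i = 0 := by linear_combination h3
    exact (mul_eq_zero.mp h4).resolve_left h2
  ext i j
  rw [Matrix.zero_apply]
  by_contra hij
  have h5 : (C.submatrix ![i, j] ![i, j]).det ≠ 0 := by
    rw [Matrix.det_fin_two]
    simp only [Matrix.submatrix_apply, Matrix.cons_val_zero, Matrix.cons_val_one]
    rw [hdiag i, hdiag j, hanti i j]
    intro h6
    have h7 : C i j * C i j = 0 := by linear_combination h6
    exact hij (mul_self_eq_zero.mp h7)
  have h6 := Matrix.rank_of_det_ne_zero h5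
  have h7 := Matrix.rank_submatrix_le C ![i, j] ![i, j]
  rw [h6, Fintype.card_fin] at h7
  omega

variable {G : Type} [Group G] (r : G →* Matrix (Fin 3) (Fin 3) K)
  (ψ : Matrix (Fin 3) (Fin 3) K) (ν : G → K)

theorem rinv (g : G) : r g * r g⁻¹ = 1 := by rw [← map_mul, mul_inv_cancel, map_one]

theorem rinv' (g : G) : r g⁻¹ * r g = 1 := by rw [← map_mul, inv_mul_cancel, map_one]

theorem det_ne (g : G) : (r g).det ≠ 0 := by
  have h := congrArg Matrix.det (rinv r g)
  rw [Matrix.det_mul, Matrix.det_one] at h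
  intro h0
  rw [h0, zero_mul] at h
  exact zero_ne_one h

variable {r ψ ν}

theorem det_sq (h : IsForm r ψ ν) (g : G) : (r g).det ^ 2 = ν g ^ 3 := by
  have h1 := congrArg Matrix.det (h.2.2 g)
  rw [Matrix.det_mul, Matrix.det_mul, Matrix.det_transpose, Matrix.det_smul,
    Fintype.card_fin] at h1
  have h2 : ((r g).det ^ 2 - ν g ^ 3) * ψ.det = 0 := by linear_combination h1
  exact sub_eq_zero.mp ((mul_eq_zero.mp h2).resolve_right h.1)

theorem nu_ne (h : IsForm r ψ ν) (g : G) : ν g ≠ 0 := by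
  intro h0
  have h1 := det_sq h g
  rw [h0, zero_pow (by norm_num)] at h1
  exact det_ne r g (pow_eq_zero_iff (by norm_num) |>.mp h1)

theorem nu_mul (h : IsForm r ψ ν) (g g' : G) : ν (g * g') = ν g * ν g' := by
  have h1 := h.2.2 (g * g')
  rw [map_mul, Matrix.transpose_mul] at h1
  have h2 : (r g').transpose * (r g).transpose * ψ * (r g * r g') =
      (r g').transpose * ((r g).transpose * ψ * r g) * r g' := by
    simp only [Matrix.mul_assoc]
  rw [h2, h.2.2 g, Matrix.mul_smul, Matrix.smul_mul, h.2.2 g', smul_smul] at h1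
  have h3 : (ν g * ν g' - ν (g * g')) • ψ = 0 := by rw [sub_smul, h1, sub_self]
  rcases smul_eq_zero.mp h3 with h4 | h4
  · exact (sub_eq_zero.mp h4).symm
  · exact absurd (by rw [h4]; simp) h.1

/-- the quotient of the determinant and the multiplier -/
noncomputable def dlt (r : G →* Matrix (Fin 3) (Fin 3) K) (ν : G → K) (g : G) : K :=
  (r g).det / ν g

theorem dlt_sq (h : IsForm r ψ ν) (g : G) : dlt r ν g ^ 2 = ν g := by
  have h1 := det_sq h g
  have h2 := nu_ne h g
  unfold dlt
  rw [div_pow, h1]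
  field_simp

theorem dlt_ne (h : IsForm r ψ ν) (g : G) : dlt r ν g ≠ 0 := by
  unfold dlt
  exact div_ne_zero (det_ne r g) (nu_ne h g)

theorem dlt_det (h : IsForm r ψ ν) (g : G) : (r g).det = dlt r ν g ^ 3 := by
  have h1 : (r g).det = dlt r ν g * ν g := by
    unfold dlt
    rw [div_mul_cancel₀ _ (nu_ne h g)]
  rw [h1, ← dlt_sq h g]
  ring

/-- `δ` is an eigenvalue -/
theorem dlt_eig (h2 : (2 : K) ≠ 0) (h : IsForm r ψ ν) (g : G) :
    (r g - dlt r ν g • (1 : Matrix (Fin 3) (Fin 3) K)).det = 0 := by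
  set d := dlt r ν g with hd
  have e1 : (r g - d • (1 : Matrix (Fin 3) (Fin 3) K)).transpose * ψ * r g =
      (-d) • (ψ * (r g - d • (1 : Matrix (Fin 3) (Fin 3) K))) := by
    rw [Matrix.transpose_sub, Matrix.sub_mul, Matrix.sub_mul, h.2.2 g, Matrix.transpose_smul,
      Matrix.transpose_one, Matrix.smul_mul, Matrix.one_mul, Matrix.smul_mul, Matrix.mul_sub,
      Matrix.mul_smul, Matrix.mul_one, smul_sub, smul_smul, ← dlt_sq h g, ← hd]
    module
  have e2 := congrArg Matrix.det e1
  rw [Matrix.det_mul, Matrix.det_mul, Matrix.det_transpose, Matrix.det_smul, Fintype.card_fin,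
    Matrix.det_mul, dlt_det h g, ← hd] at e2
  have e3 : (r g - d • (1 : Matrix (Fin 3) (Fin 3) K)).det * (2 * (d ^ 3 * ψ.det)) = 0 := by
    linear_combination e2
  rcases mul_eq_zero.mp e3 with e4 | e4
  · exact e4
  · exfalso
    rcases mul_eq_zero.mp e4 with e5 | e5
    · exact h2 e5
    · rcases mul_eq_zero.mp e5 with e6 | e6
      · exact dlt_ne h g (pow_eq_zero_iff (by norm_num) |>.mp e6)
      · exact h.1 e6

theorem cp (A : Matrix (Fin 3) (Fin 3) K) : A.charpoly = X ^ 3 + C (A.charpoly.coeff 2) * X ^ 2 +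
    C (A.charpoly.coeff 1) * X + C (A.charpoly.coeff 0) := by
  have h1 : A.charpoly.natDegree = 3 := by
    rw [Matrix.charpoly_natDegree_eq_dim, Fintype.card_fin]
  have h3 : A.charpoly.coeff 3 = 1 := by
    have := A.charpoly_monic.coeff_natDegree
    rwa [h1] at this
  have h2 := A.charpoly.as_sum_range_C_mul_X_pow
  rw [h1] at h2
  conv_lhs => rw [h2]
  simp only [Finset.sum_range_succ, Finset.sum_range_zero, h3, map_one]
  ring

/-- the elements outside `G'` are involutions up to scalars -/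
theorem invol (h2 : (2 : K) ≠ 0) (h : IsForm r ψ ν) (g : G)
    (h1 : (r g).charpoly.coeff 1 = -(r g).charpoly.coeff 2 ^ 2)
    (h0 : (r g).charpoly.coeff 0 = -(r g).charpoly.coeff 2 ^ 3) :
    ν g = (r g).charpoly.coeff 2 ^ 2 ∧ r g * r g = ν g • (1 : Matrix (Fin 3) (Fin 3) K) := by
  set A := r g with hA
  set c := A.charpoly.coeff 2 with hc
  have hcp : A.charpoly = X ^ 3 + C c * X ^ 2 + C (-c ^ 2) * X + C (-c ^ 3) := by
    rw [cp A, h1, h0]
  have hν : ν g = c ^ 2 := by
    have e1 : A.charpoly.eval (dlt r ν g) = 0 := by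
      rw [Matrix.eval_charpoly]
      have e2 : Matrix.scalar (Fin 3) (dlt r ν g) - A =
          -(A - dlt r ν g • (1 : Matrix (Fin 3) (Fin 3) K)) := by
        rw [neg_sub, Matrix.smul_one_eq_diagonal]
        rfl
      rw [e2, Matrix.det_neg, dlt_eig h2 h g, mul_zero]
    rw [hcp] at e1
    simp only [eval_add, eval_mul, eval_pow, eval_X, eval_C] at e1
    have e3 : (dlt r ν g + c) * ((dlt r ν g + c) * (dlt r ν g - c)) = 0 := by
      linear_combination e1
    have e4 := dlt_sq h g
    rcases mul_eq_zero.mp e3 with e5 | e5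
    · have e6 : dlt r ν g = -c := by linear_combination e5
      rw [← e4, e6]; ring
    · rcases mul_eq_zero.mp e5 with e6 | e6
      · have e7 : dlt r ν g = -c := by linear_combination e6
        rw [← e4, e7]; ring
      · have e7 : dlt r ν g = c := by linear_combination e6
        rw [← e4, e7]
  refine ⟨hν, ?_⟩
  -- the matrix `B = A ^ 2 - ν`
  set B : Matrix (Fin 3) (Fin 3) K := A * A - ν g • (1 : Matrix (Fin 3) (Fin 3) K) with hB
  have hCH : B * B = 0 := by
    have e1 := Matrix.aeval_self_charpoly A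
    rw [hcp] at e1
    have e2 : B * B = aeval A ((X ^ 3 + C c * X ^ 2 + C (-c ^ 2) * X + C (-c ^ 3)) *
        (X - C c)) := by
      have e3 : B = aeval A (X ^ 2 - C (c ^ 2)) := by
        rw [hB, hν, map_sub, map_pow, aeval_X, aeval_C, Algebra.algebraMap_eq_smul_one, pow_two A]
      rw [e3, ← map_mul]
      congr 1
      simp only [map_neg, map_pow]
      ring
    rw [e2, map_mul, e1, zero_mul]
  set A' := r g⁻¹ with hA'
  have hAA' : A * A' = 1 := rinv r g
  have hA'A : A' * A = 1 := rinv' r g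
  have hψ := h.2.2 g
  -- the antisymmetric matrix
  set Cm : Matrix (Fin 3) (Fin 3) K := ψ * A - A.transpose * ψ with hCm
  have hanti : Cm.transpose = -Cm := by
    rw [hCm, Matrix.transpose_sub, Matrix.transpose_mul, Matrix.transpose_mul,
      Matrix.transpose_transpose, h.2.1]
    abel
  have hCB : Cm * A = ψ * B := by
    rw [hCm, Matrix.sub_mul, hψ, hB, Matrix.mul_sub, Matrix.mul_smul, Matrix.mul_one,
      Matrix.mul_assoc]
  have hCB' : Cm = ψ * (B * A') := by
    have e1 : Cm = Cm * A * A' := by rw [Matrix.mul_assoc, hAA', Matrix.mul_one]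
    rw [e1, hCB, Matrix.mul_assoc]
  have hcomm : A' * B = B * A' := by
    rw [hB, Matrix.mul_sub, Matrix.sub_mul, Matrix.mul_smul, Matrix.smul_mul, Matrix.mul_one,
      Matrix.one_mul, ← Matrix.mul_assoc, hA'A, Matrix.one_mul, Matrix.mul_assoc, hAA',
      Matrix.mul_one]
  have hu : IsUnit ψ.det := isUnit_iff_ne_zero.mpr h.1
  have hz : Cm = 0 := by
    refine anti h2 Cm ψ⁻¹ hanti ?_ ?_
    · exact (Matrix.isUnit_nonsing_inv_det ψ hu).ne_zero
    · have e1 : ψ⁻¹ * Cm = B * A' := by
        rw [hCB', ← Matrix.mul_assoc, Matrix.nonsing_inv_mul ψ hu, Matrix.one_mul]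
      rw [e1, hCB', Matrix.mul_assoc, Matrix.mul_assoc B A' (B * A'),
        ← Matrix.mul_assoc A' B A', hcomm, Matrix.mul_assoc B A' A', ← Matrix.mul_assoc B B,
        hCH, Matrix.zero_mul, Matrix.mul_zero]
  have hψB : ψ * B = 0 := by rw [← hCB, hz, Matrix.zero_mul]
  have hB0 : B = 0 := by
    have e1 : B = ψ⁻¹ * (ψ * B) := by
      rw [← Matrix.mul_assoc, Matrix.nonsing_inv_mul ψ hu, Matrix.one_mul]
    rw [e1, hψB, Matrix.mul_zero]
  exact sub_eq_zero.mp hB0

/-- the eigenspace -/
def eig (A : Matrix (Fin 3) (Fin 3) K) (d : K) : Submodule K (Fin 3 → K) where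
  carrier := {v | A.mulVec v = d • v}
  add_mem' := by
    intro a b ha hb
    simp only [Set.mem_ofPred_eq] at ha hb ⊢
    rw [Matrix.mulVec_add, ha, hb, smul_add]
  zero_mem' := by
    simp only [Set.mem_ofPred_eq]
    rw [Matrix.mulVec_zero, smul_zero]
  smul_mem' := by
    intro c a ha
    simp only [Set.mem_ofPred_eq] at ha ⊢
    rw [Matrix.mulVec_smul, ha, smul_comm]

theorem mem_eig {A : Matrix (Fin 3) (Fin 3) K} {d : K} {v : Fin 3 → K} :
    v ∈ eig A d ↔ A.mulVec v = d • v := Iff.rfl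

theorem eig_ne_bot (h2 : (2 : K) ≠ 0) (h : IsForm r ψ ν) (g : G) : eig (r g) (dlt r ν g) ≠ ⊥ := by
  intro h0
  obtain ⟨v, hv, hv2⟩ := Matrix.exists_mulVec_eq_zero_iff.mpr (dlt_eig h2 h g)
  rw [Matrix.sub_mulVec, Matrix.smul_mulVec, Matrix.one_mulVec, sub_eq_zero] at hv2
  have h1 : v ∈ eig (r g) (dlt r ν g) := mem_eig.mpr hv2
  rw [h0, Submodule.mem_bot] at h1
  exact hv h1

theorem eig_top {A : Matrix (Fin 3) (Fin 3) K} {d : K} (h : eig A d = ⊤) :
    A = d • (1 : Matrix (Fin 3) (Fin 3) K) := by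
  refine Matrix.ext_of_mulVec_single fun i => ?_
  have h1 : (Pi.single i 1 : Fin 3 → K) ∈ eig A d := by rw [h]; exact Submodule.mem_top
  rw [mem_eig] at h1
  rw [h1, Matrix.smul_mulVec, Matrix.one_mulVec]

end Pool.Agent.Helper78.REC.INV3

namespace Pool.Agent.Helper78.REC

open _root_.REC (IsForm ST_INV3)
open INV3 MU

theorem st_INV3 : _root_.REC.ST_INV3 := by
  intro G K _ _ h2 r ψ ν h G' hG' hout hirr
  have hne : ∃ g0, g0 ∉ G' := by
    by_contra h0
    push Not at h0
    have h1 : G' = ⊤ := eq_top_iff.mpr fun x _ => h0 x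
    rw [h1, Subgroup.index_top] at hG'
    omega
  have hmul : ∀ a b, a ∉ G' → b ∈ G' → a * b ∉ G' := by
    intro a b ha hb hab
    exact ha ((G'.mul_mem_cancel_right hb).mp hab)
  have hinv : ∀ g, g ∉ G' → r g * r g = ν g • (1 : Matrix (Fin 3) (Fin 3) K) := fun g hg =>
    (invol h2 h g (hout g hg).1 (hout g hg).2).2
  -- relation
  have hrel : ∀ g x, g ∉ G' → x ∈ G' → r x * r g * r x = ν x • r g := by
    intro g x hg hx
    have e1 := hinv (g * x) (hmul g x hg hx)
    rw [map_mul, nu_mul h] at e1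
    -- `r g * r x * (r g * r x) = ν g ν x`
    have e2 : r g * (r x * r g * r x) = (ν g * ν x) • (1 : Matrix (Fin 3) (Fin 3) K) := by
      rw [← e1]
      simp only [Matrix.mul_assoc]
    have e3 : r g * (r g * (r x * r g * r x)) = r g * ((ν g * ν x) •
        (1 : Matrix (Fin 3) (Fin 3) K)) := by rw [e2]
    rw [← Matrix.mul_assoc, hinv g hg, Matrix.smul_mul, Matrix.one_mul, Matrix.mul_smul,
      Matrix.mul_one, mul_smul] at e3
    have e4 := congrArg (fun M : Matrix (Fin 3) (Fin 3) K => (ν g)⁻¹ • M) e3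
    simp only [smul_smul] at e4
    rw [inv_mul_cancel₀ (nu_ne h g), one_smul, inv_mul_cancel_left₀ (nu_ne h g)] at e4
    exact e4
  have hrel' : ∀ g x, g ∉ G' → x ∈ G' → r g * r x = ν x • (r x⁻¹ * r g) := by
    intro g x hg hx
    rw [← Matrix.mul_smul, ← hrel g x hg hx, Matrix.mul_assoc, ← Matrix.mul_assoc (r x⁻¹),
      rinv', Matrix.one_mul]
  -- `G'` is commutative modulo the kernel
  have hcomm : ∀ x y, x ∈ G' → y ∈ G' → r x * r y = r y * r x := by
    intro x y hx hy
    obtain ⟨g, hg⟩ := hne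
    have e1 := hrel' g (x⁻¹ * y⁻¹) hg (G'.mul_mem (G'.inv_mem hx) (G'.inv_mem hy))
    have e2 : r g * r (x⁻¹ * y⁻¹) = (ν x⁻¹ * ν y⁻¹) • (r x * r y * r g) := by
      rw [map_mul, ← Matrix.mul_assoc, hrel' g x⁻¹ hg (G'.inv_mem hx), Matrix.smul_mul,
        Matrix.mul_assoc, hrel' g y⁻¹ hg (G'.inv_mem hy), Matrix.mul_smul, smul_smul, inv_inv,
        inv_inv, Matrix.mul_assoc]
    rw [e2, mul_inv_rev, inv_inv, inv_inv, map_mul r y x, nu_mul h] at e1
    have hnz : ν x⁻¹ * ν y⁻¹ ≠ 0 := mul_ne_zero (nu_ne h _) (nu_ne h _)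
    have e3 := congrArg (fun M : Matrix (Fin 3) (Fin 3) K => (ν x⁻¹ * ν y⁻¹)⁻¹ • M) e1
    simp only [smul_smul] at e3
    rw [inv_mul_cancel₀ hnz, one_smul, one_smul] at e3
    have e4 := congrArg (fun M : Matrix (Fin 3) (Fin 3) K => M * r g⁻¹) e3
    simp only [Matrix.mul_assoc, rinv, Matrix.mul_one] at e4
    exact e4
  by_cases hsc : ∀ x ∈ G', r x = dlt r ν x • (1 : Matrix (Fin 3) (Fin 3) K)
  · -- all scalar
    obtain ⟨g, hg⟩ := hne
    have hst : ∀ y, ∀ v ∈ eig (r g) (dlt r ν g), (r y).mulVec v ∈ eig (r g) (dlt r ν g) := by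
      intro y v hv
      have hyc : ∃ c : K, ∃ b : Bool, r y = c • (if b then r g else 1) := by
        by_cases hy : y ∈ G'
        · exact ⟨dlt r ν y, false, by rw [hsc y hy]; simp⟩
        · have hy2 : g⁻¹ * y ∈ G' := by
            have := Subgroup.mul_mem_iff_of_index_two hG' (a := g⁻¹) (b := y)
            rw [this, G'.inv_mem_iff]
            exact ⟨fun h => absurd h hg, fun h => absurd h hy⟩
          refine ⟨dlt r ν (g⁻¹ * y), true, ?_⟩
          have e1 : r y = r g * r (g⁻¹ * y) := by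
            rw [← map_mul, ← mul_assoc, mul_inv_cancel, one_mul]
          rw [e1, hsc _ hy2]
          simp
      obtain ⟨c, b, hc⟩ := hyc
      rw [mem_eig] at hv ⊢
      cases b
      · simp only [Bool.false_eq_true, if_false] at hc
        rw [hc, Matrix.smul_mulVec, Matrix.one_mulVec, Matrix.mulVec_smul, hv, smul_comm]
      · simp only [if_true] at hc
        rw [hc, Matrix.smul_mulVec, Matrix.mulVec_smul, hv, Matrix.mulVec_smul, hv,
          smul_comm c]
    rcases irr_stable hirr _ hst with h3 | h3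
    · exact eig_ne_bot h2 h g h3
    · have h4 := eig_top h3
      set d := dlt r ν g with hd
      have h5 := (invol h2 h g (hout g hg).1 (hout g hg).2).1
      have h6 : (r g).charpoly.coeff 2 = -(3 * d) := by
        have e1 := Matrix.trace_eq_neg_charpoly_coeff (r g)
        rw [h4, Matrix.trace_smul, Matrix.trace_one] at e1
        rw [h4]
        simp only [Fintype.card_fin, smul_eq_mul] at e1
        have e2 : (3 : ℕ) - 1 = 2 := rfl
        rw [e2] at e1
        push_cast at e1
        linear_combination e1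
      have h7 := dlt_sq h g
      rw [h5, h6, ← hd] at h7
      have h8 : (2 : K) * ((2 : K) * ((2 : K) * (d * d))) = 0 := by linear_combination -h7
      have h9 : d ≠ 0 := dlt_ne h g
      exact mul_ne_zero h2 (mul_ne_zero h2 (mul_ne_zero h2 (mul_ne_zero h9 h9))) h8
  · push Not at hsc
    obtain ⟨x, hx, hxs⟩ := hsc
    have hst : ∀ y, ∀ v ∈ eig (r x) (dlt r ν x), (r y).mulVec v ∈ eig (r x) (dlt r ν x) := by
      intro y v hv
      rw [mem_eig] at hv ⊢
      by_cases hy : y ∈ G'
      · rw [Matrix.mulVec_mulVec, hcomm x y hx hy, ← Matrix.mulVec_mulVec, hv,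
          Matrix.mulVec_smul]
      · have e1 := hrel y x hy hx
        have e2 := congrArg (fun M : Matrix (Fin 3) (Fin 3) K => M.mulVec v) e1
        simp only [← Matrix.mulVec_mulVec, hv, Matrix.smul_mulVec, Matrix.mulVec_smul] at e2
        have hd := dlt_ne h x
        rw [← dlt_sq h x, pow_two, mul_smul] at e2
        have e3 := congrArg (fun u : Fin 3 → K => (dlt r ν x)⁻¹ • u) e2
        simp only [smul_smul, inv_mul_cancel₀ hd, one_smul] at e3
        rw [← mul_assoc, inv_mul_cancel₀ hd, one_mul] at e3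
        exact e3
    rcases irr_stable hirr _ hst with h3 | h3
    · exact eig_ne_bot h2 h x h3
    · exact hxs (eig_top h3)

end Pool.Agent.Helper78.REC
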