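import Pool.Agent.Helper85.REC.Stmts10
import Pool.Agent.Helper93.REC.ISO0

/-!
REC part 9, ISO2: finitely many isomorphism classes in an isogeny class.
-/

set_option autoImplicit false

open scoped Classical

namespace Pool.Agent.Helper78.REC

open _root_.REC MU
open Pool.Agent.Helper93.REC (exists_reps glQ_inv_map glQ_map_inv gl_inv_map)

section lin

variable {l : ℕ} [Fact l.Prime]

theorem map_mul_left {m n k : ℕ} (φ : ℚ_[l] →ₗ[ℚ] ℚ) (X : Matrix (Fin m) (Fin n) ℚ)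
    (Y : Matrix (Fin n) (Fin k) ℚ_[l]) :
    (X.map (algebraMap ℚ ℚ_[l]) * Y).map φ = X * Y.map φ := by
  ext i j
  simp only [Matrix.map_apply, Matrix.mul_apply, map_sum]
  refine Finset.sum_congr rfl fun s _ => ?_
  rw [← Algebra.smul_def, map_smul, smul_eq_mul]

theorem map_mul_right {m n k : ℕ} (φ : ℚ_[l] →ₗ[ℚ] ℚ) (Y : Matrix (Fin m) (Fin n) ℚ_[l])
    (X : Matrix (Fin n) (Fin k) ℚ) :
    (Y * X.map (algebraMap ℚ ℚ_[l])).map φ = Y.map φ * X := by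
  ext i j
  simp only [Matrix.map_apply, Matrix.mul_apply, map_sum]
  refine Finset.sum_congr rfl fun s _ => ?_
  rw [mul_comm, ← Algebra.smul_def, map_smul, smul_eq_mul, mul_comm]

/-- the commutant of rational matrices is spanned by rational matrices -/
theorem mem_span_comm {n : ℕ} (A : Set (Matrix (Fin n) (Fin n) ℚ))
    (X : Matrix (Fin n) (Fin n) ℚ_[l])
    (hX : ∀ u ∈ A, u.map (algebraMap ℚ ℚ_[l]) * X = X * u.map (algebraMap ℚ ℚ_[l])) :
    X ∈ Submodule.span ℚ_[l] {z : Matrix (Fin n) (Fin n) ℚ_[l] |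
      ∃ b : Matrix (Fin n) (Fin n) ℚ, (∀ u ∈ A, u * b = b * u) ∧
        z = b.map (algebraMap ℚ ℚ_[l])} := by
  let b := Module.Basis.ofVectorSpace ℚ ℚ_[l]
  let K := (Finset.univ : Finset (Fin n × Fin n)).biUnion fun i => (b.repr (X i.1 i.2)).support
  have h1 : X = ∑ k ∈ K, b k • (X.map (b.coord k)).map (algebraMap ℚ ℚ_[l]) := by
    ext i j
    rw [Matrix.sum_apply]
    simp only [Matrix.smul_apply, Matrix.map_apply, smul_eq_mul]
    have h2 := b.linearCombination_repr (X i j)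
    rw [Finsupp.linearCombination_apply, Finsupp.sum] at h2
    have h3 : (b.repr (X i j)).support ⊆ K := fun x hx =>
      Finset.mem_biUnion.2 ⟨(i, j), Finset.mem_univ _, hx⟩
    have h4 : ∑ k ∈ (b.repr (X i j)).support, (b.repr (X i j)) k • b k =
        ∑ k ∈ K, (b.repr (X i j)) k • b k := by
      refine Finset.sum_subset h3 fun x _ hx => ?_
      rw [Finsupp.notMem_support_iff.1 hx, zero_smul]
    rw [h4] at h2
    refine h2.symm.trans (Finset.sum_congr rfl fun k _ => ?_)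
    rw [Algebra.smul_def, mul_comm]
    rfl
  rw [h1]
  refine Submodule.sum_mem _ fun k _ => Submodule.smul_mem _ _ (Submodule.subset_span ?_)
  refine ⟨_, fun u hu => ?_, rfl⟩
  rw [← map_mul_left, ← map_mul_right, hX u hu]

/-- an element of the span of commuting matrices commutes -/
theorem comm_of_span {n : ℕ} (A : Set (Matrix (Fin n) (Fin n) ℚ_[l]))
    (b : Matrix (Fin n) (Fin n) ℚ_[l]) (hb : ∀ u ∈ A, u * b = b * u)
    (y : Matrix (Fin n) (Fin n) ℚ_[l]) (hy : y ∈ Submodule.span ℚ_[l] A) : y * b = b * y := by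
  induction hy using Submodule.span_induction with
  | mem u hu => exact hb u hu
  | zero => rw [Matrix.zero_mul, Matrix.mul_zero]
  | add x y _ _ hx hy => rw [Matrix.add_mul, Matrix.mul_add, hx, hy]
  | smul c x _ hx => rw [Matrix.smul_mul, Matrix.mul_smul, hx]

/-- entrywise images of the elements of a span -/
theorem map_mem_of_span {n : ℕ} (P : Submodule ℚ (Matrix (Fin n) (Fin n) ℚ))
    (φ : ℚ_[l] →ₗ[ℚ] ℚ) (y : Matrix (Fin n) (Fin n) ℚ_[l])
    (hy : y ∈ Submodule.span ℚ_[l] {z : Matrix (Fin n) (Fin n) ℚ_[l] |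
      ∃ u : Matrix (Fin n) (Fin n) ℚ, u ∈ P ∧ z = u.map (algebraMap ℚ ℚ_[l])}) :
    y.map φ ∈ P := by
  have key : ∀ c : ℚ_[l], (c • y).map φ ∈ P := by
    induction hy using Submodule.span_induction with
    | mem z hz =>
      obtain ⟨u, hu, rfl⟩ := hz
      intro c
      have h1 : (c • u.map (algebraMap ℚ ℚ_[l])).map φ = φ c • u := by
        ext i j
        simp only [Matrix.map_apply, Matrix.smul_apply, smul_eq_mul]
        rw [mul_comm, ← Algebra.smul_def, map_smul, smul_eq_mul, mul_comm]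
      rw [h1]
      exact P.smul_mem _ hu
    | zero =>
      intro c
      have h1 : (c • (0 : Matrix (Fin n) (Fin n) ℚ_[l])).map φ = 0 := by
        ext i j
        simp
      rw [h1]
      exact P.zero_mem
    | add x y _ _ hx hy =>
      intro c
      have h1 : (c • (x + y)).map φ = (c • x).map φ + (c • y).map φ := by
        ext i j
        simp
      rw [h1]
      exact P.add_mem (hx c) (hy c)
    | smul d x _ hx =>
      intro c
      rw [smul_smul]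
      exact hx _
  have h := key 1
  rwa [one_smul] at h

/-- a basis matrix of a subspace of `ℚ^n` -/
theorem exists_basis_matrix {n : ℕ} (W : Submodule ℚ (Fin n → ℚ)) :
    ∃ (m : ℕ) (B : Matrix (Fin n) (Fin m) ℚ) (C : Matrix (Fin m) (Fin n) ℚ), C * B = 1 ∧
      (∀ y, B.mulVec y ∈ W) ∧ ∀ x ∈ W, (B * C).mulVec x = x := by
  let b := Module.finBasis ℚ W
  let f : (Fin (Module.finrank ℚ W) → ℚ) →ₗ[ℚ] (Fin n → ℚ) :=
    W.subtype ∘ₗ (b.equivFun.symm : (Fin (Module.finrank ℚ W) → ℚ) →ₗ[ℚ] W)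
  have hf : LinearMap.ker f = ⊥ := by
    rw [LinearMap.ker_eq_bot]
    exact Subtype.val_injective.comp b.equivFun.symm.injective
  obtain ⟨g, hg⟩ := LinearMap.exists_leftInverse_of_injective f hf
  have hfm : ∀ y, (LinearMap.toMatrix' f).mulVec y = f y := fun y =>
    LinearMap.toMatrix'_mulVec f y
  refine ⟨_, LinearMap.toMatrix' f, LinearMap.toMatrix' g, ?_, ?_, ?_⟩
  · rw [← LinearMap.toMatrix'_comp, hg, LinearMap.toMatrix'_id]
  · intro y
    rw [hfm]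
    exact (b.equivFun.symm y).2
  · intro x hx
    obtain ⟨y, hy⟩ : ∃ y, f y = x := ⟨b.equivFun ⟨x, hx⟩, by simp [f]⟩
    rw [← LinearMap.toMatrix'_comp, ← hy]
    rw [LinearMap.toMatrix'_mulVec]
    have h1 := LinearMap.congr_fun hg y
    simp only [LinearMap.comp_apply, LinearMap.id_apply] at h1
    simp only [LinearMap.comp_apply, h1]

end lin

/-- rational numbers which are integral at all primes are integers -/
theorem int_of_padic (x : ℚ) (hx : ∀ (l : ℕ) [Fact l.Prime], ‖(x : ℚ_[l])‖ ≤ 1) :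
    ∃ z : ℤ, x = z := by
  have h1 : x.den = 1 := by
    rw [Nat.eq_one_iff_not_exists_prime_dvd]
    intro l hl hd
    have : Fact l.Prime := ⟨hl⟩
    have h2 := PadicInt.isUnit_den (p := l) x (hx l)
    rw [PadicInt.isUnit_iff] at h2
    have h3 : ‖(((x.den : ℤ)) : ℤ_[l])‖ < 1 :=
      (PadicInt.norm_int_lt_one_iff_dvd (p := l) (x.den : ℤ)).2 (Int.natCast_dvd_natCast.2 hd)
    push_cast at h3
    rw [h2] at h3
    exact lt_irrefl _ h3
  exact ⟨x.num, (Rat.den_eq_one_iff x).1 h1 ▸ rfl⟩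

section main

variable {F : Type} [Field F] [NumberField F] {S : Finset ℕ} {n w : ℕ} {h : Fin n → ℕ}

/-- the space of endomorphisms -/
def endSub (M₀ : Mot F S n w h) : Submodule ℚ (Matrix (Fin n) (Fin n) ℚ) where
  carrier := {u | Hm M₀ M₀ u}
  add_mem' := by
    intro u v hu hv l _ g
    have e : (u + v).map (algebraMap ℚ ℚ_[l]) =
        u.map (algebraMap ℚ ℚ_[l]) + v.map (algebraMap ℚ ℚ_[l]) := by
      ext i j
      simp
    rw [e, Matrix.add_mul, Matrix.mul_add, hu l g, hv l g]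
  zero_mem' := by
    intro l _ g
    have e : (0 : Matrix (Fin n) (Fin n) ℚ).map (algebraMap ℚ ℚ_[l]) = 0 := by
      ext i j
      simp
    rw [e, Matrix.zero_mul, Matrix.mul_zero]
  smul_mem' := by
    intro c u hu l _ g
    have e : (c • u).map (algebraMap ℚ ℚ_[l]) = (c : ℚ_[l]) • u.map (algebraMap ℚ ℚ_[l]) := by
      ext i j
      simp
    rw [e, Matrix.smul_mul, Matrix.mul_smul, hu l g]

theorem mem_endSub (M₀ : Mot F S n w h) (u : Matrix (Fin n) (Fin n) ℚ) :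
    u ∈ endSub M₀ ↔ Hm M₀ M₀ u := Iff.rfl

/-- the centralizer of the endomorphisms -/
def cenB (M₀ : Mot F S n w h) : Subalgebra ℚ (Matrix (Fin n) (Fin n) ℚ) :=
  Subalgebra.centralizer ℚ {u | Hm M₀ M₀ u}

theorem mem_cenB (M₀ : Mot F S n w h) (b : Matrix (Fin n) (Fin n) ℚ) :
    b ∈ cenB M₀ ↔ ∀ u, Hm M₀ M₀ u → u * b = b * u := by
  rw [cenB, Subalgebra.mem_centralizer_iff]
  rfl

/-- the Galois action is in the span of the centralizer of the endomorphisms -/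
theorem rat_mem_span (M₀ : Mot F S n w h) (l : ℕ) [Fact l.Prime] (g : Gal F) :
    rat (M₀.ρ l) g ∈ Submodule.span ℚ_[l] {z : Matrix (Fin n) (Fin n) ℚ_[l] |
      ∃ b : Matrix (Fin n) (Fin n) ℚ, b ∈ cenB M₀ ∧ z = b.map (algebraMap ℚ ℚ_[l])} := by
  have h1 := mem_span_comm {u | Hm M₀ M₀ u} (rat (M₀.ρ l) g) (fun u hu => hu l g)
  refine Submodule.span_mono ?_ h1
  rintro z ⟨b, hb, rfl⟩
  exact ⟨b, (mem_cenB M₀ b).2 hb, rfl⟩

/-- `ℚ^n` is completely reducible under the centralizer of the endomorphisms -/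
theorem exists_proj (M₀ : Mot F S n w h) (hss : ∀ (l : ℕ) [Fact l.Prime], IsSS (rat (M₀.ρ l)))
    (hT : TateHom M₀ M₀) (W : Submodule ℚ (Fin n → ℚ))
    (hW : ∀ b ∈ cenB M₀, ∀ x ∈ W, Matrix.mulVec b x ∈ W) :
    ∃ e : Matrix (Fin n) (Fin n) ℚ, (∀ b ∈ cenB M₀, e * b = b * e) ∧ (∀ x, e.mulVec x ∈ W) ∧
      ∀ x ∈ W, e.mulVec x = x := by
  have : Fact (Nat.Prime 2) := ⟨Nat.prime_two⟩
  obtain ⟨m, B, C, hCB, hB, hBC⟩ := exists_basis_matrix W
  set B' := B.map (algebraMap ℚ ℚ_[2]) with hB'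
  set C' := C.map (algebraMap ℚ ℚ_[2]) with hC'
  have hCB' : C' * B' = 1 := by
    rw [hB', hC', ← Matrix.map_mul, hCB, Matrix.map_one _ (map_zero _) (map_one _)]
  -- stability over `ℚ`
  have h1 : ∀ b ∈ cenB M₀, b * B = B * (C * b * B) := by
    intro b hb
    have h2 : ∀ y, (b * B).mulVec y = (B * (C * b * B)).mulVec y := by
      intro y
      have h3 : (b * B).mulVec y ∈ W := by
        rw [← Matrix.mulVec_mulVec]
        exact hW b hb _ (hB y)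
      have h4 := hBC _ h3
      rw [Matrix.mulVec_mulVec] at h4
      rw [← h4]
      simp only [Matrix.mul_assoc]
    exact Matrix.ext_of_mulVec_single fun i => h2 _
  have h5 : ∀ X ∈ Submodule.span ℚ_[2] {z : Matrix (Fin n) (Fin n) ℚ_[2] |
      ∃ b : Matrix (Fin n) (Fin n) ℚ, b ∈ cenB M₀ ∧ z = b.map (algebraMap ℚ ℚ_[2])},
      X * B' = B' * (C' * X * B') := by
    intro X hX
    induction hX using Submodule.span_induction with
    | mem z hz =>
      obtain ⟨b, hb, rfl⟩ := hz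
      rw [hB', hC', ← Matrix.map_mul, ← Matrix.map_mul, ← Matrix.map_mul, ← Matrix.map_mul,
        ← h1 b hb]
    | zero => simp
    | add x y _ _ hx hy =>
      rw [Matrix.add_mul, hx, hy, Matrix.mul_add, Matrix.add_mul, Matrix.mul_add]
    | smul c x _ hx =>
      rw [Matrix.smul_mul, hx, Matrix.mul_smul, Matrix.smul_mul, Matrix.mul_smul]
  have hsub : IsSub (rat (M₀.ρ 2)) B' (fun g => C' * rat (M₀.ρ 2) g * B') :=
    ⟨⟨C', hCB'⟩, fun g => h5 _ (rat_mem_span M₀ 2 g)⟩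
  obtain ⟨D, hD1, hD2⟩ := hss 2 m B' _ hsub
  have hcomm : ∀ g : Gal F, (B' * D) * rat (M₀.ρ 2) g = rat (M₀.ρ 2) g * (B' * D) := by
    intro g
    have h8 : rat (M₀.ρ 2) g * B' = B' * (C' * rat (M₀.ρ 2) g * B') := hsub.2 g
    rw [Matrix.mul_assoc, hD2 g, ← Matrix.mul_assoc B', ← h8, Matrix.mul_assoc]
  have hspan := hT 2 (B' * D) hcomm
  obtain ⟨φ, hφ⟩ := LinearMap.exists_leftInverse_of_injective (Algebra.linearMap ℚ ℚ_[2]) (by
    rw [LinearMap.ker_eq_bot]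
    exact (algebraMap ℚ ℚ_[2]).injective)
  have hφ1 : ∀ q : ℚ, φ (algebraMap ℚ ℚ_[2] q) = q := fun q => LinearMap.congr_fun hφ q
  have hφm : ∀ {a b : ℕ} (X : Matrix (Fin a) (Fin b) ℚ),
      (X.map (algebraMap ℚ ℚ_[2])).map φ = X := by
    intro a b X
    ext i j
    exact hφ1 _
  have he : (B' * D).map φ ∈ endSub M₀ := map_mem_of_span (endSub M₀) φ _ hspan
  have heB : (B' * D).map φ = B * D.map φ := map_mul_left φ B D
  refine ⟨(B' * D).map φ, fun b hb => (mem_cenB M₀ b).1 hb _ he, fun x => ?_, fun x hx => ?_⟩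
  · rw [heB, ← Matrix.mulVec_mulVec]
    exact hB _
  · have h6 : (B' * D).map φ * B = B := by
      rw [← map_mul_right, ← hB', Matrix.mul_assoc, hD1, Matrix.mul_one, hB', hφm]
    have h7 := hBC x hx
    rw [← Matrix.mulVec_mulVec] at h7
    rw [← h7, Matrix.mulVec_mulVec, h6]

/-- matrices commuting with the Galois action commute with the centralizer of the
endomorphisms -/
theorem comm_cen (M₀ : Mot F S n w h) (hT : TateHom M₀ M₀) (l : ℕ) [Fact l.Prime]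
    (a : Matrix (Fin n) (Fin n) ℚ_[l]) (ha : ∀ g, a * rat (M₀.ρ l) g = rat (M₀.ρ l) g * a)
    (b : Matrix (Fin n) (Fin n) ℚ) (hb : b ∈ cenB M₀) :
    a * b.map (algebraMap ℚ ℚ_[l]) = b.map (algebraMap ℚ ℚ_[l]) * a := by
  refine comm_of_span _ _ ?_ a (hT l a ha)
  rintro z ⟨u, hu, rfl⟩
  rw [← Matrix.map_mul, ← Matrix.map_mul, (mem_cenB M₀ b).1 hb u hu]

/-- matrices commuting with the centralizer of the endomorphisms commute with the Galois
action -/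
theorem comm_rat (M₀ : Mot F S n w h) (a : Matrix (Fin n) (Fin n) ℚ)
    (ha : ∀ b ∈ cenB M₀, a * b = b * a) (l : ℕ) [Fact l.Prime] (g : Gal F) :
    a.map (algebraMap ℚ ℚ_[l]) * rat (M₀.ρ l) g = rat (M₀.ρ l) g * a.map (algebraMap ℚ ℚ_[l]) := by
  refine (comm_of_span _ _ ?_ _ (rat_mem_span M₀ l g)).symm
  rintro z ⟨b, hb, rfl⟩
  rw [← Matrix.map_mul, ← Matrix.map_mul, ha b hb]

/-- the matrix `N x` is integral -/
def Int' {l : ℕ} [Fact l.Prime] {n : ℕ} (x : Matrix (Fin n) (Fin n) ℚ_[l]) : Prop :=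
  ∀ i j, ‖x i j‖ ≤ 1

theorem Int'_mul {l : ℕ} [Fact l.Prime] {n : ℕ} (x y : Matrix (Fin n) (Fin n) ℚ_[l])
    (hx : Int' x) (hy : Int' y) : Int' (x * y) := by
  intro i j
  rw [Matrix.mul_apply]
  refine IsUltrametricDist.norm_sum_le_of_forall_le_of_nonneg zero_le_one fun k _ => ?_
  rw [norm_mul]
  exact mul_le_one₀ (hx i k) (norm_nonneg _) (hy k j)

theorem Int'_map {l : ℕ} [Fact l.Prime] {n : ℕ} (x : Matrix (Fin n) (Fin n) ℤ_[l]) :
    Int' (x.map (algebraMap ℤ_[l] ℚ_[l])) := fun i j => PadicInt.norm_le_one (x i j)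

/-- bounded denominators -/
theorem exists_den {l : ℕ} [Fact l.Prime] {n : ℕ}
    (T : Finset (Matrix.GeneralLinearGroup (Fin n) ℚ_[l])) :
    ∃ N : ℕ, 0 < N ∧ ∀ t ∈ T, Int' ((N : ℚ_[l]) • (t : Matrix (Fin n) (Fin n) ℚ_[l])) ∧
      Int' ((N : ℚ_[l]) • ((t⁻¹ : Matrix.GeneralLinearGroup (Fin n) ℚ_[l]) :
        Matrix (Fin n) (Fin n) ℚ_[l])) := by
  have hl : 1 < l := (Fact.out : l.Prime).one_lt
  let R : ℝ := ∑ t ∈ T, ∑ i, ∑ j, (‖(t : Matrix (Fin n) (Fin n) ℚ_[l]) i j‖ +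
    ‖((t⁻¹ : Matrix.GeneralLinearGroup (Fin n) ℚ_[l]) : Matrix (Fin n) (Fin n) ℚ_[l]) i j‖)
  obtain ⟨k, hk⟩ := pow_unbounded_of_one_lt R (show (1 : ℝ) < (l : ℝ) by exact_mod_cast hl)
  have hle : ∀ t ∈ T, ∀ i j, ‖(t : Matrix (Fin n) (Fin n) ℚ_[l]) i j‖ +
      ‖((t⁻¹ : Matrix.GeneralLinearGroup (Fin n) ℚ_[l]) :
        Matrix (Fin n) (Fin n) ℚ_[l]) i j‖ ≤ R := by
    intro t ht i j
    refine le_trans ?_ (Finset.single_le_sum (f := fun t : Matrix.GeneralLinearGroup (Fin n) ℚ_[l] =>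
      ∑ i, ∑ j, (‖(t : Matrix (Fin n) (Fin n) ℚ_[l]) i j‖ +
        ‖((t⁻¹ : Matrix.GeneralLinearGroup (Fin n) ℚ_[l]) :
          Matrix (Fin n) (Fin n) ℚ_[l]) i j‖)) (fun t _ => Finset.sum_nonneg fun i _ =>
      Finset.sum_nonneg fun j _ => add_nonneg (norm_nonneg _) (norm_nonneg _)) ht)
    refine le_trans ?_ (Finset.single_le_sum (f := fun i =>
      ∑ j, (‖(t : Matrix (Fin n) (Fin n) ℚ_[l]) i j‖ +
        ‖((t⁻¹ : Matrix.GeneralLinearGroup (Fin n) ℚ_[l]) :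
          Matrix (Fin n) (Fin n) ℚ_[l]) i j‖)) (fun i _ =>
      Finset.sum_nonneg fun j _ => add_nonneg (norm_nonneg _) (norm_nonneg _))
      (Finset.mem_univ i))
    exact Finset.single_le_sum (f := fun j =>
      (‖(t : Matrix (Fin n) (Fin n) ℚ_[l]) i j‖ +
        ‖((t⁻¹ : Matrix.GeneralLinearGroup (Fin n) ℚ_[l]) :
          Matrix (Fin n) (Fin n) ℚ_[l]) i j‖)) (fun j _ => add_nonneg (norm_nonneg _)
      (norm_nonneg _)) (Finset.mem_univ j)
  have hlk : (0 : ℝ) < (l : ℝ) ^ k := by positivity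
  have key : ∀ x : ℚ_[l], ‖x‖ ≤ R → ‖((l ^ k : ℕ) : ℚ_[l]) * x‖ ≤ 1 := by
    intro x hx
    push_cast
    rw [norm_mul, norm_pow, Padic.norm_p, inv_pow]
    rw [inv_mul_le_iff₀ hlk, mul_one]
    exact hx.trans hk.le
  refine ⟨l ^ k, pow_pos (by omega) k, fun t ht => ⟨fun i j => ?_, fun i j => ?_⟩⟩
  · rw [Matrix.smul_apply, smul_eq_mul]
    exact key _ (by have := hle t ht i j; have := norm_nonneg (((t⁻¹ :
      Matrix.GeneralLinearGroup (Fin n) ℚ_[l]) : Matrix (Fin n) (Fin n) ℚ_[l]) i j); linarith)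
  · rw [Matrix.smul_apply, smul_eq_mul]
    exact key _ (by have := hle t ht i j; have := norm_nonneg ((t :
      Matrix (Fin n) (Fin n) ℚ_[l]) i j); linarith)

theorem conj_eq {l : ℕ} [Fact l.Prime] {n : ℕ} (a t : Matrix.GeneralLinearGroup (Fin n) ℚ_[l])
    (u : Matrix.GeneralLinearGroup (Fin n) ℤ_[l]) (b V V' : Matrix (Fin n) (Fin n) ℚ_[l])
    (hab : (a : Matrix (Fin n) (Fin n) ℚ_[l]) * b = b * a)
    (hV : V = a * t * (u : Matrix (Fin n) (Fin n) ℤ_[l]).map (algebraMap ℤ_[l] ℚ_[l]))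
    (hV' : V' * V = 1) :
    V' * b * V = ((u⁻¹ : Matrix.GeneralLinearGroup (Fin n) ℤ_[l]) :
        Matrix (Fin n) (Fin n) ℤ_[l]).map (algebraMap ℤ_[l] ℚ_[l]) *
      (((t⁻¹ : Matrix.GeneralLinearGroup (Fin n) ℚ_[l]) : Matrix (Fin n) (Fin n) ℚ_[l]) * b * t) *
      (u : Matrix (Fin n) (Fin n) ℤ_[l]).map (algebraMap ℤ_[l] ℚ_[l]) := by
  set U := (u : Matrix (Fin n) (Fin n) ℤ_[l]).map (algebraMap ℤ_[l] ℚ_[l]) with hU
  set U' := ((u⁻¹ : Matrix.GeneralLinearGroup (Fin n) ℤ_[l]) :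
        Matrix (Fin n) (Fin n) ℤ_[l]).map (algebraMap ℤ_[l] ℚ_[l]) with hU'
  have h1 : U * U' = 1 := by
    rw [hU, hU', ← Matrix.map_mul, ← Units.val_mul, mul_inv_cancel, Units.val_one,
      Matrix.map_one _ (map_zero _) (map_one _)]
  have ha : (a : Matrix (Fin n) (Fin n) ℚ_[l]) *
      ((a⁻¹ : Matrix.GeneralLinearGroup (Fin n) ℚ_[l]) : Matrix (Fin n) (Fin n) ℚ_[l]) = 1 := by
    rw [← Units.val_mul, mul_inv_cancel, Units.val_one]
  have ha' : ((a⁻¹ : Matrix.GeneralLinearGroup (Fin n) ℚ_[l]) : Matrix (Fin n) (Fin n) ℚ_[l]) *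
      (a : Matrix (Fin n) (Fin n) ℚ_[l]) = 1 := by
    rw [← Units.val_mul, inv_mul_cancel, Units.val_one]
  have ht : (t : Matrix (Fin n) (Fin n) ℚ_[l]) *
      ((t⁻¹ : Matrix.GeneralLinearGroup (Fin n) ℚ_[l]) : Matrix (Fin n) (Fin n) ℚ_[l]) = 1 := by
    rw [← Units.val_mul, mul_inv_cancel, Units.val_one]
  have h2 : V * (U' * (((t⁻¹ : Matrix.GeneralLinearGroup (Fin n) ℚ_[l]) :
      Matrix (Fin n) (Fin n) ℚ_[l]) *
      ((a⁻¹ : Matrix.GeneralLinearGroup (Fin n) ℚ_[l]) : Matrix (Fin n) (Fin n) ℚ_[l]))) = 1 := by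
    rw [hV, Matrix.mul_assoc, ← Matrix.mul_assoc U, h1, Matrix.one_mul, Matrix.mul_assoc,
      ← Matrix.mul_assoc (t : Matrix (Fin n) (Fin n) ℚ_[l]), ht, Matrix.one_mul, ha]
  have h3 := left_inv_eq_right_inv hV' h2
  have h4 : ((a⁻¹ : Matrix.GeneralLinearGroup (Fin n) ℚ_[l]) : Matrix (Fin n) (Fin n) ℚ_[l]) *
      b * a = b := by
    rw [Matrix.mul_assoc, ← hab, ← Matrix.mul_assoc, ha', Matrix.one_mul]
  calc V' * b * V = U' * (((t⁻¹ : Matrix.GeneralLinearGroup (Fin n) ℚ_[l]) :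
        Matrix (Fin n) (Fin n) ℚ_[l]) *
        (((a⁻¹ : Matrix.GeneralLinearGroup (Fin n) ℚ_[l]) : Matrix (Fin n) (Fin n) ℚ_[l]) *
        b * a) * t) * U := by
        rw [h3, hV]
        simp only [Matrix.mul_assoc]
    _ = _ := by rw [h4]

/-- the local conjugates are integral up to a fixed factor -/
theorem loc_int (hUNQ : ST_UNQ) (hLTS : ST_LTS) (M₀ : Mot F S n w h)
    (hss : ∀ (l : ℕ) [Fact l.Prime], IsSS (rat (M₀.ρ l))) (c : ℕ)
    (hc : ∀ (l : ℕ) [Fact l.Prime], c < l → Cpl (M₀.ρ l)) (hT : TateHom M₀ M₀)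
    (l : ℕ) (_ : Fact l.Prime) :
    ∃ N : ℕ, 0 < N ∧ (c < l → N = 1) ∧ ∀ (M : Mot F S n w h)
      (v : Matrix.GeneralLinearGroup (Fin n) ℚ),
      (∀ g : Gal F, (v : Matrix (Fin n) (Fin n) ℚ).map (algebraMap ℚ ℚ_[l]) * rat (M.ρ l) g =
        rat (M₀.ρ l) g * (v : Matrix (Fin n) (Fin n) ℚ).map (algebraMap ℚ ℚ_[l])) →
      ∀ b ∈ cenB M₀, Itg b → Int' ((N : ℚ_[l]) •
        (((v⁻¹ : Matrix.GeneralLinearGroup (Fin n) ℚ) : Matrix (Fin n) (Fin n) ℚ).map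
            (algebraMap ℚ ℚ_[l]) * b.map (algebraMap ℚ ℚ_[l]) *
          (v : Matrix (Fin n) (Fin n) ℚ).map (algebraMap ℚ ℚ_[l]))) := by
  have hb' : ∀ b : Matrix (Fin n) (Fin n) ℚ, Itg b → Int' (b.map (algebraMap ℚ ℚ_[l])) := by
    rintro b ⟨z, rfl⟩ i j
    have e : ((z.map (algebraMap ℤ ℚ)).map (algebraMap ℚ ℚ_[l])) i j = ((z i j : ℤ) : ℚ_[l]) := by
      simp
    rw [e]
    exact Padic.norm_int_le_one _
  rcases lt_or_ge c l with hcl | hcl
  · refine ⟨1, one_pos, fun _ => rfl, fun M v hv b hb hbi => ?_⟩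
    obtain ⟨a, u, ha, hu⟩ := hUNQ (Gal F) n l (M₀.ρ l) (hc l hcl) (M.ρ l)
      ⟨_, _, glQ_map_inv v, glQ_inv_map v⟩ hv
    have h1 := conj_eq a 1 u (b.map (algebraMap ℚ ℚ_[l])) _ _
      (comm_cen M₀ hT l a (fun g => ha g) b hb) (by
        rw [Units.val_one, Matrix.mul_one]
        exact hu) (glQ_inv_map v)
    rw [Nat.cast_one, one_smul]
    change Int' (_ * _ * (v : Matrix (Fin n) (Fin n) ℚ).map (algebraMap ℚ ℚ_[l]))
    rw [h1]
    refine Int'_mul _ _ (Int'_mul _ _ (Int'_map _) ?_) (Int'_map _)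
    rw [inv_one, Units.val_one, Matrix.one_mul, Matrix.mul_one]
    exact hb' b hbi
  · obtain ⟨T, hTT⟩ := hLTS (Gal F) n l (M₀.ρ l) (hss l)
    obtain ⟨N, hN0, hN⟩ := exists_den T
    refine ⟨N * N, Nat.mul_pos hN0 hN0, fun h => absurd h (not_lt.2 hcl),
      fun M v hv b hb hbi => ?_⟩
    obtain ⟨t, ht, a, u, ha, hu⟩ := hTT (M.ρ l) ⟨_, _, glQ_map_inv v, glQ_inv_map v⟩ hv
    have h1 := conj_eq a t u (b.map (algebraMap ℚ ℚ_[l])) _ _
      (comm_cen M₀ hT l a (fun g => ha g) b hb) hu (glQ_inv_map v)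
    change Int' (_ • (_ * _ * (v : Matrix (Fin n) (Fin n) ℚ).map (algebraMap ℚ ℚ_[l])))
    rw [h1]
    have h2 : ((N * N : ℕ) : ℚ_[l]) •
        (((u⁻¹ : Matrix.GeneralLinearGroup (Fin n) ℤ_[l]) :
          Matrix (Fin n) (Fin n) ℤ_[l]).map (algebraMap ℤ_[l] ℚ_[l]) *
        (((t⁻¹ : Matrix.GeneralLinearGroup (Fin n) ℚ_[l]) : Matrix (Fin n) (Fin n) ℚ_[l]) *
          b.map (algebraMap ℚ ℚ_[l]) * t) *
        (u : Matrix (Fin n) (Fin n) ℤ_[l]).map (algebraMap ℤ_[l] ℚ_[l])) =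
        ((u⁻¹ : Matrix.GeneralLinearGroup (Fin n) ℤ_[l]) :
          Matrix (Fin n) (Fin n) ℤ_[l]).map (algebraMap ℤ_[l] ℚ_[l]) *
        (((N : ℚ_[l]) • ((t⁻¹ : Matrix.GeneralLinearGroup (Fin n) ℚ_[l]) :
          Matrix (Fin n) (Fin n) ℚ_[l])) *
          b.map (algebraMap ℚ ℚ_[l]) * ((N : ℚ_[l]) • (t : Matrix (Fin n) (Fin n) ℚ_[l]))) *
        (u : Matrix (Fin n) (Fin n) ℤ_[l]).map (algebraMap ℤ_[l] ℚ_[l]) := by
      simp only [Matrix.smul_mul, Matrix.mul_smul, smul_smul, Nat.cast_mul]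
    rw [h2]
    exact Int'_mul _ _ (Int'_mul _ _ (Int'_map _) (Int'_mul _ _ (Int'_mul _ _ (hN t ht).2
      (hb' b hbi)) (hN t ht).1)) (Int'_map _)

theorem st_ISO2 (hJZ : ST_JZ) (hLTS : ST_LTS) (hUNQ : ST_UNQ) : ST_ISO2 := by
  intro F _ _ S n w h M₀ hReg hT
  obtain ⟨hss, c, hc⟩ := hReg
  choose Nl hNl0 hNl1 hNl using loc_int hUNQ hLTS M₀ hss c hc hT
  let N : ℕ := ∏ l ∈ Finset.range (c + 1), if hl : l.Prime then Nl l ⟨hl⟩ else 1
  have hN0 : 0 < N := by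
    refine Finset.prod_pos fun l _ => ?_
    split_ifs with hl
    · exact hNl0 l ⟨hl⟩
    · exact one_pos
  have hdvd : ∀ (l : ℕ) (hl : Fact l.Prime), Nl l hl ∣ N := by
    intro l hl
    rcases lt_or_ge c l with h1 | h1
    · rw [hNl1 l hl h1]
      exact one_dvd _
    · have h2 := Finset.dvd_prod_of_mem
        (fun l => if hl : l.Prime then Nl l ⟨hl⟩ else 1) (Finset.mem_range.2 (Nat.lt_succ_of_le h1))
      simp only [dif_pos hl.out] at h2
      exact h2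
  obtain ⟨T, hTT⟩ := hJZ n (cenB M₀) (exists_proj M₀ hss hT) N hN0
  refine ⟨T.card, fun 𝒯 h𝒯 => ?_⟩
  let R : Mot F S n w h → {t // t ∈ T} → Prop := fun M y =>
    ∃ v : Matrix.GeneralLinearGroup (Fin n) ℚ,
      (∀ (l : ℕ) [Fact l.Prime] (g : Gal F),
        (v : Matrix (Fin n) (Fin n) ℚ).map (algebraMap ℚ ℚ_[l]) * rat (M.ρ l) g =
          rat (M₀.ρ l) g * (v : Matrix (Fin n) (Fin n) ℚ).map (algebraMap ℚ ℚ_[l])) ∧
      ∃ (a : Matrix.GeneralLinearGroup (Fin n) ℚ) (u : Matrix.GeneralLinearGroup (Fin n) ℤ),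
        (∀ b ∈ cenB M₀, (a : Matrix (Fin n) (Fin n) ℚ) * b = b * a) ∧
        (v : Matrix (Fin n) (Fin n) ℚ) =
          a * y.1 * (u : Matrix (Fin n) (Fin n) ℤ).map (algebraMap ℤ ℚ)
  have hR : ∀ M ∈ 𝒯, ∃ y, R M y := by
    intro M hM
    obtain ⟨v, hv⟩ := h𝒯 M hM
    obtain ⟨t, ht, a, u, ha, hu⟩ := hTT v (by
      intro b hb hbi
      have h1 : ∀ i j, ∃ z : ℤ, ((N : ℚ) •
          (((v⁻¹ : Matrix.GeneralLinearGroup (Fin n) ℚ) : Matrix (Fin n) (Fin n) ℚ) * b *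
            (v : Matrix (Fin n) (Fin n) ℚ))) i j = z := by
        intro i j
        refine int_of_padic _ fun l hl => ?_
        obtain ⟨k, hk⟩ := hdvd l hl
        have h2 := hNl l hl M v (fun g => hv l g) b hb hbi i j
        have e : ((((N : ℚ) •
            (((v⁻¹ : Matrix.GeneralLinearGroup (Fin n) ℚ) : Matrix (Fin n) (Fin n) ℚ) * b *
              (v : Matrix (Fin n) (Fin n) ℚ))) i j : ℚ) : ℚ_[l]) = (k : ℚ_[l]) *
            (((Nl l hl : ℕ) : ℚ_[l]) •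
            (((v⁻¹ : Matrix.GeneralLinearGroup (Fin n) ℚ) : Matrix (Fin n) (Fin n) ℚ).map
                (algebraMap ℚ ℚ_[l]) * b.map (algebraMap ℚ ℚ_[l]) *
              (v : Matrix (Fin n) (Fin n) ℚ).map (algebraMap ℚ ℚ_[l]))) i j := by
          rw [← Matrix.map_mul, ← Matrix.map_mul, Matrix.smul_apply, Matrix.smul_apply,
            Matrix.map_apply, smul_eq_mul, smul_eq_mul, hk]
          push_cast
          rw [← mul_assoc, mul_comm ((Nl l hl : ℕ) : ℚ_[l])]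
          rfl
        rw [e, norm_mul]
        refine mul_le_one₀ ?_ (norm_nonneg _) h2
        have h3 := Padic.norm_int_le_one (p := l) (k : ℤ)
        push_cast at h3
        exact h3
      choose z hz using h1
      refine ⟨Matrix.of z, ?_⟩
      ext i j
      rw [hz i j]
      rfl)
    exact ⟨⟨t, ht⟩, v, hv, a, u, ha, hu⟩
  obtain ⟨Tf, h1, h2, h3⟩ := exists_reps 𝒯 R hR
  refine ⟨Tf, h1, ?_, ?_⟩
  · rw [Nat.card_eq_fintype_card, Fintype.card_coe] at h2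
    exact h2
  intro M hM
  obtain ⟨M', hM', y, ⟨v, hv, a, u, ha, hu⟩, ⟨v', hv', a', u', ha', hu'⟩⟩ := h3 M hM
  refine ⟨M', hM', u'⁻¹ * u, fun l _ g => ?_⟩
  -- the intertwining property of `t u`
  have key : ∀ (M : Mot F S n w h) (v a : Matrix.GeneralLinearGroup (Fin n) ℚ)
      (u : Matrix.GeneralLinearGroup (Fin n) ℤ),
      (∀ g : Gal F, (v : Matrix (Fin n) (Fin n) ℚ).map (algebraMap ℚ ℚ_[l]) * rat (M.ρ l) g =
          rat (M₀.ρ l) g * (v : Matrix (Fin n) (Fin n) ℚ).map (algebraMap ℚ ℚ_[l])) →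
      (∀ b ∈ cenB M₀, (a : Matrix (Fin n) (Fin n) ℚ) * b = b * a) →
      (v : Matrix (Fin n) (Fin n) ℚ) =
          a * y.1 * (u : Matrix (Fin n) (Fin n) ℤ).map (algebraMap ℤ ℚ) → ∀ g : Gal F,
      (((y.1 : Matrix (Fin n) (Fin n) ℚ).map (algebraMap ℚ ℚ_[l])) *
        ((u : Matrix (Fin n) (Fin n) ℤ).map (algebraMap ℤ ℚ)).map (algebraMap ℚ ℚ_[l])) *
        rat (M.ρ l) g = rat (M₀.ρ l) g *
        (((y.1 : Matrix (Fin n) (Fin n) ℚ).map (algebraMap ℚ ℚ_[l])) *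
        ((u : Matrix (Fin n) (Fin n) ℤ).map (algebraMap ℤ ℚ)).map (algebraMap ℚ ℚ_[l])) := by
    intro M v a u hv ha hu g
    have h4 := hv g
    rw [hu, Matrix.map_mul, Matrix.map_mul, Matrix.mul_assoc, Matrix.mul_assoc,
      Matrix.mul_assoc, ← Matrix.mul_assoc (rat (M₀.ρ l) g),
      ← comm_rat M₀ a ha l g, Matrix.mul_assoc] at h4
    have h5 := congrArg (fun Z => ((a⁻¹ : Matrix.GeneralLinearGroup (Fin n) ℚ) :
      Matrix (Fin n) (Fin n) ℚ).map (algebraMap ℚ ℚ_[l]) * Z) h4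
    simp only [← Matrix.mul_assoc, glQ_inv_map, Matrix.one_mul] at h5
    rw [h5]
    simp only [Matrix.mul_assoc]
  have hk := key M v a u (fun g => hv l g) ha hu g
  have hk' := key M' v' a' u' (fun g => hv' l g) ha' hu' g
  set Y := (y.1 : Matrix (Fin n) (Fin n) ℚ).map (algebraMap ℚ ℚ_[l]) with hY
  have hz : ∀ z : Matrix (Fin n) (Fin n) ℤ, (z.map (algebraMap ℤ ℚ)).map (algebraMap ℚ ℚ_[l]) =
      (z.map (algebraMap ℤ ℤ_[l])).map (algebraMap ℤ_[l] ℚ_[l]) := by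
    intro z
    ext i j
    simp
  set U := ((u : Matrix (Fin n) (Fin n) ℤ).map (algebraMap ℤ ℚ)).map (algebraMap ℚ ℚ_[l]) with hU
  set U' := ((u' : Matrix (Fin n) (Fin n) ℤ).map (algebraMap ℤ ℚ)).map (algebraMap ℚ ℚ_[l])
    with hU'
  set W := (((u'⁻¹ : Matrix.GeneralLinearGroup (Fin n) ℤ) :
    Matrix (Fin n) (Fin n) ℤ).map (algebraMap ℤ ℚ)).map (algebraMap ℚ ℚ_[l]) with hW
  have hUW : U' * W = 1 := by
    rw [hU', hW, ← Matrix.map_mul, ← Matrix.map_mul, ← Units.val_mul, mul_inv_cancel,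
      Units.val_one, Matrix.map_one _ (map_zero _) (map_one _),
      Matrix.map_one _ (map_zero _) (map_one _)]
  have hWU : W * U' = 1 := mul_eq_one_comm.mp hUW
  have hYY : ((y.1⁻¹ : Matrix.GeneralLinearGroup (Fin n) ℚ) : Matrix (Fin n) (Fin n) ℚ).map
      (algebraMap ℚ ℚ_[l]) * Y = 1 := glQ_inv_map _
  have hfin : (W * U) * rat (M.ρ l) g = rat (M'.ρ l) g * (W * U) := by
    have h6 : (Y * U') * ((W * U) * rat (M.ρ l) g) = (Y * U') * (rat (M'.ρ l) g * (W * U)) := by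
      calc (Y * U') * ((W * U) * rat (M.ρ l) g) = (Y * ((U' * W) * U)) * rat (M.ρ l) g := by
            simp only [Matrix.mul_assoc]
        _ = rat (M₀.ρ l) g * (Y * U) := by rw [hUW, Matrix.one_mul, hk]
        _ = rat (M₀.ρ l) g * (Y * U') * (W * U) := by
            rw [Matrix.mul_assoc, Matrix.mul_assoc Y, ← Matrix.mul_assoc U', hUW, Matrix.one_mul]
        _ = _ := by
            rw [← hk']
            simp only [Matrix.mul_assoc]
    have h7 := congrArg (fun Z => W * (((y.1⁻¹ : Matrix.GeneralLinearGroup (Fin n) ℚ) :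
      Matrix (Fin n) (Fin n) ℚ).map (algebraMap ℚ ℚ_[l]) * Z)) h6
    simp only [← Matrix.mul_assoc, hYY, Matrix.one_mul, hWU] at h7
    simp only [← Matrix.mul_assoc]
    exact h7
  apply map_padic_injective
  change (((u'⁻¹ * u : Matrix.GeneralLinearGroup (Fin n) ℤ) : Matrix (Fin n) (Fin n) ℤ).map
      (algebraMap ℤ ℤ_[l]) * (M.ρ l g : Matrix (Fin n) (Fin n) ℤ_[l])).map
      (algebraMap ℤ_[l] ℚ_[l]) = ((M'.ρ l g : Matrix (Fin n) (Fin n) ℤ_[l]) *
      ((u'⁻¹ * u : Matrix.GeneralLinearGroup (Fin n) ℤ) : Matrix (Fin n) (Fin n) ℤ).map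
      (algebraMap ℤ ℤ_[l])).map (algebraMap ℤ_[l] ℚ_[l])
  rw [Matrix.map_mul, Matrix.map_mul, ← hz, Units.val_mul, Matrix.map_mul, Matrix.map_mul]
  exact hfin

end main

end Pool.Agent.Helper78.REC
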