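import Pool.Agent.Helper85.REC.Stmts7

/-!
# KUM: Kummer characters
-/

set_option autoImplicit false

open scoped Classical
open NumberField

namespace Pool.Agent.Helper78.REC.KUM

open Pool.Agent.Helper13.ZL (Pl q)
open MU (Gal Zb Over CongPow)
open _root_.REC

variable {K : Type} [Field K] [NumberField K]

/-- the embedding of the integers of `K` into the algebraic closure -/
noncomputable def io (K : Type) [Field K] [NumberField K] : 𝓞 K →+* AlgebraicClosure K :=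
  (algebraMap K (AlgebraicClosure K)).comp (algebraMap (𝓞 K) K)

theorem io_apply (x : 𝓞 K) : io K x = algebraMap K (AlgebraicClosure K) (x : K) := rfl

theorem io_inj : Function.Injective (io K) := by
  intro x y h
  exact RingOfIntegers.coe_injective ((algebraMap K (AlgebraicClosure K)).injective h)

theorem io_int (x : 𝓞 K) : IsIntegral ℤ (io K x) := by
  have h1 : IsIntegral ℤ (x : K) := x.isIntegral_coe
  exact h1.map ((algebraMap K (AlgebraicClosure K)).toIntAlgHom)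

theorem io_fix (σ : Gal K) (x : 𝓞 K) : σ (io K x) = io K x := by
  rw [io_apply]
  exact σ.commutes _

theorem roots (n : ℕ) (hK : HasRt K n) (ω : AlgebraicClosure K) (hω : ω ^ n = 1) :
    ∃ ζ : (𝓞 K)ˣ, ζ ^ n = 1 ∧ io K (ζ : 𝓞 K) = ω := by
  obtain ⟨hn, ζ₀, hζ₀⟩ := hK
  have h1 : IsPrimitiveRoot (ζ₀ : 𝓞 K) n := IsPrimitiveRoot.coe_units_iff.mpr hζ₀
  have h2 : IsPrimitiveRoot (io K (ζ₀ : 𝓞 K)) n := h1.map_of_injective io_inj
  have : NeZero n := ⟨hn.ne'⟩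
  obtain ⟨i, _, hi⟩ := h2.eq_pow_of_pow_eq_one hω
  refine ⟨ζ₀ ^ i, ?_, ?_⟩
  · rw [← pow_mul, mul_comm, pow_mul, hζ₀.pow_eq_one, one_pow]
  · rw [Units.val_pow_eq_pow_val, map_pow, hi]

/-- `n` divides `q w - 1` -/
theorem ndvd (hS : ST_SYB) (n : ℕ) (hK : HasRt K n) (w : Pl K) (hw : (n : 𝓞 K) ∉ w.asIdeal) :
    n ∣ q w - 1 := by
  obtain ⟨hn, ζ₀, hζ₀⟩ := hK
  have h5 := (hS K n ⟨hn, ζ₀, hζ₀⟩).2.2.2.2
  have hmax : w.asIdeal.IsMaximal := w.isMaximal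
  let _ : Field (𝓞 K ⧸ w.asIdeal) := Ideal.Quotient.field _
  let f : (𝓞 K)ˣ →* (𝓞 K ⧸ w.asIdeal)ˣ := Units.map (Ideal.Quotient.mk w.asIdeal).toMonoidHom
  have h1 : n ∣ orderOf (f ζ₀) := by
    have h2 : (f ζ₀) ^ orderOf (f ζ₀) = 1 := pow_orderOf_eq_one _
    rw [← map_pow] at h2
    have h3 : ((ζ₀ ^ orderOf (f ζ₀) : (𝓞 K)ˣ) : 𝓞 K) - ((1 : (𝓞 K)ˣ) : 𝓞 K) ∈ w.asIdeal := by
      rw [← Ideal.Quotient.eq]
      have h4 := congrArg (Units.val) h2
      exact h4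
    have h6 := h5 (ζ₀ ^ orderOf (f ζ₀)) 1 w (by
      rw [← pow_mul, mul_comm, pow_mul, hζ₀.pow_eq_one, one_pow]) (one_pow n) hw h3
    exact hζ₀.dvd_of_pow_eq_one _ h6
  have h7 : orderOf (f ζ₀) ∣ Nat.card (𝓞 K ⧸ w.asIdeal)ˣ := orderOf_dvd_natCard _
  have h8 : Nat.card (𝓞 K ⧸ w.asIdeal)ˣ = q w - 1 := by
    rw [Nat.card_units]
    rfl
  rw [← h8]
  exact h1.trans h7

theorem geom (q j : ℕ) (hq : 1 ≤ q) : q ^ j - 1 = (q - 1) * ∑ i ∈ Finset.range j, q ^ i := by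
  induction j with
  | zero => simp
  | succ j ih =>
    rw [Finset.sum_range_succ, mul_add, ← ih, pow_succ]
    have h1 : 1 ≤ q ^ j := Nat.one_le_pow _ _ hq
    obtain ⟨a, rfl⟩ : ∃ a, q = a + 1 := ⟨q - 1, by omega⟩
    obtain ⟨b, hb⟩ : ∃ b, (a + 1) ^ j = b + 1 := ⟨(a + 1) ^ j - 1, by omega⟩
    rw [hb]
    simp only [Nat.add_sub_cancel]
    ring_nf
    omega

theorem pow_geom {G : Type} [Group G] (ζ : G) (n q j : ℕ) (hn : ζ ^ n = 1) (hq : n ∣ q - 1)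
    (hq1 : 1 ≤ q) : ζ ^ (∑ i ∈ Finset.range j, q ^ i) = ζ ^ j := by
  have h1 : ∀ i, ζ ^ (q ^ i) = ζ := by
    intro i
    have h2 : n ∣ q ^ i - 1 := hq.trans ⟨_, geom q i hq1⟩
    obtain ⟨c, hc⟩ := h2
    have h3 : 1 ≤ q ^ i := Nat.one_le_pow _ _ hq1
    have h4 : q ^ i = n * c + 1 := by omega
    rw [h4, pow_succ, pow_mul, hn, one_pow, one_mul]
  induction j with
  | zero => simp
  | succ j ih => rw [Finset.sum_range_succ, pow_add, ih, h1, pow_succ]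

theorem q_pos (w : Pl K) : 1 ≤ q w := by
  have h : q w ≠ 0 := by
    unfold q
    rw [Ne, Ideal.absNorm_eq_zero_iff]
    exact w.ne_bot
  omega

end Pool.Agent.Helper78.REC.KUM

namespace Pool.Agent.Helper78.REC

open Pool.Agent.Helper13.ZL (Pl q)
open MU (Gal Zb Over CongPow)
open _root_.REC KUM

theorem st_KUM (hS : ST_SYB) : _root_.REC.ST_KUM := by
  intro K _ _ n hK γ hγ
  have hK' := hK
  obtain ⟨hn, ζ₀, hζ₀⟩ := hK'
  obtain ⟨s1, -, -, -, s5⟩ := hS K n hK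
  obtain ⟨y0, hy0⟩ := IsAlgClosed.exists_pow_nat_eq (io K γ) hn
  have hy0n : y0 ≠ 0 := by
    rintro rfl
    rw [zero_pow hn.ne'] at hy0
    exact hγ (io_inj (by rw [← hy0, map_zero]))
  -- the values
  have hex : ∀ σ : Gal K, ∃ ζ : (𝓞 K)ˣ, ζ ^ n = 1 ∧ σ y0 = io K (ζ : 𝓞 K) * y0 := by
    intro σ
    obtain ⟨ζ, h1, h2⟩ := roots n hK (σ y0 / y0) (by
      rw [div_pow, ← map_pow, hy0, io_fix, div_self]
      intro h
      exact hγ (io_inj (by rw [h, map_zero])))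
    exact ⟨ζ, h1, by rw [h2, div_mul_cancel₀ _ hy0n]⟩
  choose k0 hk1 hk2 using hex
  have hun : ∀ a b : (𝓞 K)ˣ, io K (a : 𝓞 K) * y0 = io K (b : 𝓞 K) * y0 → a = b := by
    intro a b h
    exact Units.ext (io_inj (mul_right_cancel₀ hy0n h))
  let κ : Gal K →* (𝓞 K)ˣ :=
    { toFun := k0
      map_one' := by
        refine hun _ _ ?_
        rw [← hk2, Units.val_one, map_one, one_mul]
        rfl
      map_mul' := by
        intro σ τ
        refine hun _ _ ?_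
        rw [← hk2, AlgEquiv.mul_apply, hk2 τ, map_mul, io_fix, hk2 σ, Units.val_mul, map_mul]
        ring }
  have hκ : ∀ σ, σ y0 = io K ((κ σ : (𝓞 K)ˣ) : 𝓞 K) * y0 := hk2
  have hκn : ∀ σ, κ σ ^ n = 1 := hk1
  refine ⟨κ, ?_, ?_, hκn, ?_⟩
  · intro σ y hy
    have hy' : y ^ n = io K γ := hy
    obtain ⟨ζ, h1, h2⟩ := roots n hK (y / y0) (by
      rw [div_pow, hy0, hy', div_self]
      intro h
      exact hγ (io_inj (by rw [h, map_zero])))
    have h3 : y = io K (ζ : 𝓞 K) * y0 := by rw [h2, div_mul_cancel₀ _ hy0n]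
    show σ y = io K ((κ σ : (𝓞 K)ˣ) : 𝓞 K) * y
    rw [h3, map_mul, io_fix, hκ]
    ring
  · -- open kernel
    let E : IntermediateField K (AlgebraicClosure K) := IntermediateField.adjoin K {y0}
    have hint : IsIntegral K y0 := (Algebra.IsAlgebraic.isAlgebraic y0).isIntegral
    have : FiniteDimensional K E := IntermediateField.adjoin.finiteDimensional hint
    have h1 : IsOpen (E.fixingSubgroup : Set (Gal K)) := IntermediateField.fixingSubgroup_isOpen E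
    have h2 : E.fixingSubgroup ≤ κ.ker := by
      intro σ hσ
      rw [MonoidHom.mem_ker]
      refine hun _ _ ?_
      rw [← hκ, Units.val_one, map_one, one_mul]
      rw [IntermediateField.mem_fixingSubgroup_iff] at hσ
      exact hσ y0 (IntermediateField.mem_adjoin_simple_self K y0)
    exact Subgroup.isOpen_mono h2 h1
  · intro w hnw hγw 𝔓 hP j σ hσ
    have hsy := s1 γ w hnw hγw
    obtain ⟨hsy1, hsy2⟩ := hsy
    set ζ : (𝓞 K)ˣ := sy n γ w with hζ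
    have hdv := ndvd hS n hK w hnw
    have hq1 := q_pos w
    have hPp : 𝔓.IsPrime := hP.1
    -- the ring homomorphism into the ring of algebraic integers
    let c : 𝓞 K →+* Zb K := (io K).codRestrict (integralClosure ℤ (AlgebraicClosure K)).toSubring
      (fun x => io_int x)
    have hc : ∀ x, ((c x : Zb K) : AlgebraicClosure K) = io K x := fun x => rfl
    have hcm : ∀ x, c x ∈ 𝔓 ↔ x ∈ w.asIdeal := fun x => hP.2 x (c x) rfl
    have hyI : IsIntegral ℤ y0 := IsIntegral.of_pow hn (by rw [hy0]; exact io_int γ)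
    let Y : Zb K := ⟨y0, hyI⟩
    have hYn : Y ^ n = c γ := Subtype.ext (by
      show ((Y ^ n : Zb K) : AlgebraicClosure K) = io K γ
      rw [← hy0]
      rfl)
    have hYP : Y ∉ 𝔓 := by
      intro h
      have h1 : Y ^ n ∈ 𝔓 := Ideal.pow_mem_of_mem 𝔓 h n hn
      rw [hYn, hcm] at h1
      exact hγw h1
    have h1 : c ((κ σ : (𝓞 K)ˣ) : 𝓞 K) * Y - Y ^ (q w ^ j) ∈ 𝔓 := by
      refine hσ Y _ ?_
      show io K ((κ σ : (𝓞 K)ˣ) : 𝓞 K) * y0 = σ y0
      rw [hκ]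
    have hqj : 1 ≤ q w ^ j := Nat.one_le_pow _ _ hq1
    have h2 : c ((κ σ : (𝓞 K)ˣ) : 𝓞 K) - Y ^ (q w ^ j - 1) ∈ 𝔓 := by
      have h3 : (c ((κ σ : (𝓞 K)ˣ) : 𝓞 K) - Y ^ (q w ^ j - 1)) * Y ∈ 𝔓 := by
        rw [sub_mul, ← pow_succ, Nat.sub_add_cancel hqj]
        exact h1
      exact (hPp.mem_or_mem h3).resolve_right hYP
    obtain ⟨e, he⟩ := hdv
    have he' : (q w - 1) / n = e := by rw [he]; exact Nat.mul_div_cancel_left e hn
    have h4 : Y ^ (q w ^ j - 1) = c (γ ^ e) ^ (∑ i ∈ Finset.range j, q w ^ i) := by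
      rw [geom (q w) j hq1, he, map_pow, ← hYn]
      rw [← pow_mul, ← pow_mul, mul_assoc]
    have h5 : c (γ ^ e) - c (ζ : 𝓞 K) ∈ 𝔓 := by
      rw [← map_sub, hcm]
      rw [he'] at hsy2
      have := w.asIdeal.neg_mem hsy2
      rw [neg_sub] at this
      exact this
    have h6 : c (γ ^ e) ^ (∑ i ∈ Finset.range j, q w ^ i) -
        c (ζ : 𝓞 K) ^ (∑ i ∈ Finset.range j, q w ^ i) ∈ 𝔓 := by
      obtain ⟨d, hd⟩ := sub_dvd_pow_sub_pow (c (γ ^ e)) (c (ζ : 𝓞 K))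
        (∑ i ∈ Finset.range j, q w ^ i)
      rw [hd]
      exact 𝔓.mul_mem_right _ h5
    have h7 : c (ζ : 𝓞 K) ^ (∑ i ∈ Finset.range j, q w ^ i) = c ((ζ ^ j : (𝓞 K)ˣ) : 𝓞 K) := by
      rw [← pow_geom ζ n (q w) j hsy1 ⟨e, he⟩ hq1, Units.val_pow_eq_pow_val, map_pow]
    have h8 : c ((κ σ : (𝓞 K)ˣ) : 𝓞 K) - c ((ζ ^ j : (𝓞 K)ˣ) : 𝓞 K) ∈ 𝔓 := by
      rw [h4] at h2
      rw [h7] at h6
      have h9 := 𝔓.add_mem h2 h6
      rw [sub_add_sub_cancel] at h9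
      exact h9
    rw [← map_sub, hcm] at h8
    exact s5 (κ σ) (ζ ^ j) w (hκn σ) (by rw [← pow_mul, mul_comm, pow_mul, hsy1, one_pow]) hnw h8

end Pool.Agent.Helper78.REC
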