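import Pool.Agent.Helper85.REC.Stmts7

/-!
# PRK: the symbol of `γ` is trivial at the elements close to `1`
-/

set_option autoImplicit false

open scoped Classical
open NumberField

namespace Pool.Agent.Helper78.REC.PRK

open Pool.Agent.Helper13.ZL (Pl q)
open MU (Gal Zb Over CongPow)
open _root_.REC

variable {K : Type} [Field K] [NumberField K]

theorem pow_near {R : Type} [CommRing R] (w : Ideal R) (p : ℕ) (hp : (p : R) ∈ w) (y : R)
    (hy : y - 1 ∈ w) : ∀ k : ℕ, y ^ (p ^ k) - 1 ∈ w ^ (k + 1) := by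
  intro k
  induction k with
  | zero => simpa using hy
  | succ k ih =>
    set z := y ^ (p ^ k) with hz
    have h1 : y ^ (p ^ (k + 1)) = z ^ p := by rw [hz, ← pow_mul, ← pow_succ]
    have h2 : z - 1 ∈ w := Ideal.pow_le_self (Nat.succ_ne_zero k) ih
    have h3 : z ^ p - 1 = (∑ i ∈ Finset.range p, z ^ i) * (z - 1) := (geom_sum_mul z p).symm
    have h4 : (∑ i ∈ Finset.range p, z ^ i) ∈ w := by
      have h5 : (∑ i ∈ Finset.range p, z ^ i) =
          (∑ i ∈ Finset.range p, (z ^ i - 1)) + (p : R) := by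
        rw [Finset.sum_sub_distrib, Finset.sum_const, Finset.card_range, nsmul_eq_mul, mul_one]
        ring
      rw [h5]
      refine w.add_mem (w.sum_mem fun i _ => ?_) hp
      obtain ⟨d, hd⟩ := sub_dvd_pow_sub_pow z 1 i
      rw [one_pow] at hd
      rw [hd]
      exact w.mul_mem_right _ h2
    rw [h1, h3, pow_succ' w (k + 1)]
    exact Ideal.mul_mem_mul h4 ih

theorem one_add_pow {R : Type} [CommRing R] (z : R) (n : ℕ) :
    ∃ c, (1 + z) ^ n = 1 + n * z + z ^ 2 * c := by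
  induction n with
  | zero => exact ⟨0, by simp⟩
  | succ n ih =>
    obtain ⟨c, hc⟩ := ih
    refine ⟨n + c + z * c, ?_⟩
    rw [pow_succ, hc]
    push_cast
    ring

/-- removing an `n`-th power -/
theorem wild {R : Type} [CommRing R] (n : R) (nn : ℕ) (hn : n = (nn : R)) (y : R)
    (hy : n ^ 3 ∣ y - 1) : ∀ M : ℕ, ∃ s : R, n ^ (M + 3) ∣ s ^ nn * y - 1 := by
  intro M
  induction M with
  | zero => exact ⟨1, by simpa using hy⟩
  | succ M ih =>
    obtain ⟨s, t, ht⟩ := ih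
    obtain ⟨c, hc⟩ := one_add_pow (-(n ^ (M + 2) * t)) nn
    refine ⟨s * (1 + -(n ^ (M + 2) * t)), ?_⟩
    have h1 : s ^ nn * y = 1 + n ^ (M + 3) * t := by rw [← ht]; ring
    have h2 : (s * (1 + -(n ^ (M + 2) * t))) ^ nn * y =
        (1 + -(n ^ (M + 2) * t)) ^ nn * (s ^ nn * y) := by rw [mul_pow]; ring
    rw [h2, h1, hc, ← hn]
    refine ⟨-(n ^ (M + 2) * t ^ 2) + n ^ M * t ^ 2 * c * (1 + n ^ (M + 3) * t), ?_⟩
    ring

theorem ev_pow (hEV : ST_EV) {A : Type} [CommMonoid A] (f : Pl K → A) (I : Ideal (𝓞 K))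
    (hI : I ≠ ⊥) (n : ℕ) : ev f (I ^ n) = ev f I ^ n := by
  obtain ⟨e1, e2, -⟩ := hEV K A
  induction n with
  | zero =>
    rw [pow_zero, pow_zero, Ideal.one_eq_top]
    exact e1 f
  | succ n ih =>
    rw [pow_succ, e2 f _ _ (pow_ne_zero n hI) hI, ih, pow_succ]

theorem ev_one (hEV : ST_EV) {A : Type} [CommMonoid A] (I : Ideal (𝓞 K)) :
    ev (fun _ : Pl K => (1 : A)) I = 1 := by
  obtain ⟨-, -, -, -, -, e6, -⟩ := hEV K A
  exact e6 A (1 : A →* A) (fun _ => 1) I

theorem ev_pow' (hEV : ST_EV) {A : Type} [CommMonoid A] (f : Pl K → A) (I : Ideal (𝓞 K))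
    (n : ℕ) (hf : ∀ v, f v ^ n = 1) : ev f I ^ n = 1 := by
  obtain ⟨-, -, -, -, -, e6, -⟩ := hEV K A
  have h := e6 A (powMonoidHom n) f I
  rw [powMonoidHom_apply] at h
  rw [← h]
  have h2 : (fun v : Pl K => (powMonoidHom n : A →* A) (f v)) = fun _ => 1 := by
    funext v
    rw [powMonoidHom_apply, hf v]
  rw [h2]
  exact ev_one hEV I

theorem sy_pow (n : ℕ) (γ : 𝓞 K) (w : Pl K) : sy n γ w ^ n = 1 := by
  unfold sy
  split_ifs with h
  · exact (h.2.2.choose_spec).1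
  · exact one_pow n

theorem resid (w : Pl K) : ∃ p : ℕ, p.Prime ∧ (p : 𝓞 K) ∈ w.asIdeal := by
  have hq : (q w : 𝓞 K) ∈ w.asIdeal := Ideal.absNorm_mem w.asIdeal
  have hq0 : q w ≠ 0 := by
    unfold q
    rw [Ne, Ideal.absNorm_eq_zero_iff]
    exact w.ne_bot
  have hpr : w.asIdeal.IsPrime := w.isPrime
  generalize q w = m at hq hq0
  induction m using Nat.recOnMul with
  | zero => exact absurd rfl hq0
  | one =>
    rw [Nat.cast_one] at hq
    exact absurd (w.asIdeal.eq_top_iff_one.mpr hq) hpr.ne_top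
  | prime p hp => exact ⟨p, hp, hq⟩
  | mul a b iha ihb =>
    rw [Nat.cast_mul] at hq
    rcases hpr.mem_or_mem hq with h | h
    · exact iha h (by rintro rfl; simp at hq0)
    · exact ihb h (by rintro rfl; simp at hq0)

end Pool.Agent.Helper78.REC.PRK

namespace Pool.Agent.Helper78.REC

open Pool.Agent.Helper13.ZL (Pl q)
open MU (Gal Zb Over CongPow)
open _root_.REC PRK

theorem st_PRK : ST_REC → ST_KUM → ST_SYB → ST_EV → ST_APX → _root_.REC.ST_PRK := by
  intro hREC hKUM _hSYB hEV hAPX K _ _ n hK γ y hγ hy hpos hyn hyγ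
  have hn : 0 < n := hK.1
  have hn0 : (n : 𝓞 K) ≠ 0 := Nat.cast_ne_zero.mpr hn.ne'
  obtain ⟨κ, -, hκo, -, hκF⟩ := hKUM K n hK γ hγ
  -- the bad places
  have hfin : {v : Pl K | v.asIdeal ∣ Ideal.span {(n : 𝓞 K) * γ}}.Finite := by
    refine Ideal.finite_factors ?_
    rw [Ne, Ideal.zero_eq_bot, Ideal.span_singleton_eq_bot]
    exact mul_ne_zero hn0 hγ
  let B : Finset (Pl K) := hfin.toFinset
  have hB : ∀ v : Pl K, v ∈ B ↔ ((n : 𝓞 K) ∈ v.asIdeal ∨ γ ∈ v.asIdeal) := by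
    intro v
    have hpr : v.asIdeal.IsPrime := v.isPrime
    have h1 : v ∈ B ↔ v.asIdeal ∣ Ideal.span {(n : 𝓞 K) * γ} := by
      simp only [B, Set.Finite.mem_toFinset]
      rfl
    rw [h1, Ideal.dvd_span_singleton]
    constructor
    · intro h
      exact hpr.mem_or_mem h
    · rintro (h | h)
      · exact v.asIdeal.mul_mem_right _ h
      · exact v.asIdeal.mul_mem_left _ h
  have hPhi : IsPhi κ B (sy n γ) := by
    constructor
    · intro v hv
      rw [hB] at hv
      unfold sy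
      rw [dif_neg]
      rintro ⟨h1, h2, -⟩
      rcases hv with h | h
      · exact h1 h
      · exact h2 h
    · intro v hv
      rw [hB, not_or] at hv
      exact hκF v hv.1 hv.2
  obtain ⟨N, hN, hRay⟩ := hREC K (𝓞 K)ˣ κ hκo B (sy n γ) hPhi
  -- local `n`-th powers
  have hloc : ∀ w : Pl K, w ∈ B → ∃ a : 𝓞 K, a ^ n * y - 1 ∈ w.asIdeal ^ N := by
    intro w hw
    by_cases hnw : (n : 𝓞 K) ∈ w.asIdeal
    · have h1 : (n : 𝓞 K) ^ 3 ∣ y - 1 := by
        rw [Ideal.span_singleton_pow, Ideal.mem_span_singleton] at hyn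
        exact hyn
      obtain ⟨s, hs⟩ := wild (n : 𝓞 K) n rfl y h1 N
      refine ⟨s, ?_⟩
      obtain ⟨t, ht⟩ := hs
      rw [ht]
      refine Ideal.mul_mem_right _ _ ?_
      exact Ideal.pow_le_pow_right (by omega : N ≤ N + 3) (Ideal.pow_mem_pow hnw (N + 3))
    · have hγw : γ ∈ w.asIdeal := ((hB w).mp hw).resolve_left hnw
      have hy1 := hyγ w hγw
      obtain ⟨p, hp, hpw⟩ := resid w
      have h1 := pow_near w.asIdeal p hpw y hy1 N
      have h2 : y ^ (p ^ N) - 1 ∈ w.asIdeal ^ N := Ideal.pow_le_pow_right (Nat.le_succ N) h1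
      have hcop : Nat.Coprime n (p ^ N) := by
        refine Nat.Coprime.pow_right N ?_
        rw [Nat.coprime_comm, hp.coprime_iff_not_dvd]
        rintro ⟨c, hc⟩
        refine hnw ?_
        rw [hc, Nat.cast_mul]
        exact w.asIdeal.mul_mem_right _ hpw
      -- `a n + 1` divisible by `p ^ N`
      obtain ⟨a, m, hm⟩ : ∃ a m : ℕ, a * n + 1 = p ^ N * m := by
        have h3 : 0 < p ^ N := pow_pos hp.pos N
        have h4 := Nat.exists_mul_mod_eq_of_coprime (p ^ N - 1) hcop h3.ne'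
        obtain ⟨x, -, hx⟩ := h4
        refine ⟨x, n * x / p ^ N + 1, ?_⟩
        have h5 := Nat.div_add_mod (n * x) (p ^ N)
        rw [hx, Nat.mod_eq_of_lt (by omega : p ^ N - 1 < p ^ N)] at h5
        rw [mul_add, mul_one, mul_comm x n]
        omega
      refine ⟨y ^ a, ?_⟩
      rw [← pow_mul, ← pow_succ, hm, pow_mul]
      obtain ⟨d, hd⟩ := sub_dvd_pow_sub_pow (y ^ p ^ N) 1 m
      rw [one_pow] at hd
      rw [hd]
      exact Ideal.mul_mem_right _ _ h2
  let a : Pl K → 𝓞 K := fun w => if h : w ∈ B then (hloc w h).choose else 0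
  have ha : ∀ w ∈ B, (a w) ^ n * y - 1 ∈ w.asIdeal ^ N := by
    intro w hw
    simp only [a, dif_pos hw]
    exact (hloc w hw).choose_spec
  obtain ⟨s, hs0, hsa, hspos⟩ := hAPX K B N a (fun _ => 1) (fun _ => one_ne_zero)
  have hx : Ray B N (s ^ n * y) := by
    refine ⟨mul_ne_zero (pow_ne_zero n hs0) hy, ?_, ?_⟩
    · intro σ
      have h1 := hspos σ
      rw [one_mul] at h1
      have h2 := hpos σ
      have h3 : σ ((s ^ n * y : 𝓞 K) : K) = σ (s : K) ^ n * σ (y : K) := by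
        rw [← map_pow, ← map_mul]
        congr 1
      rw [h3]
      positivity
    · intro v hv
      have h1 : s ^ n * y - 1 = (s ^ n - a v ^ n) * y + (a v ^ n * y - 1) := by ring
      rw [h1]
      refine Ideal.add_mem _ (Ideal.mul_mem_right _ _ ?_) (ha v hv)
      obtain ⟨d, hd⟩ := sub_dvd_pow_sub_pow s (a v) n
      rw [hd]
      exact Ideal.mul_mem_right _ _ (hsa v hv)
  have h1 := hRay _ hx
  have hs' : Ideal.span {s} ≠ ⊥ := by
    rw [Ne, Ideal.span_singleton_eq_bot]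
    exact hs0
  have hy' : Ideal.span {y} ≠ ⊥ := by
    rw [Ne, Ideal.span_singleton_eq_bot]
    exact hy
  have h2 : Ideal.span {s ^ n * y} = Ideal.span {s} ^ n * Ideal.span {y} := by
    rw [Ideal.span_singleton_pow, Ideal.span_singleton_mul_span_singleton]
  rw [h2, (hEV K (𝓞 K)ˣ).2.1 _ _ _ (pow_ne_zero n hs') hy', ev_pow hEV _ _ hs',
    ev_pow' hEV _ _ n (fun v => sy_pow n γ v), one_mul] at h1
  exact h1

end Pool.Agent.Helper78.REC
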