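import Pool.Agent.Helper48.REC.HKL

/-!
# Reciprocity, row SP0, part A: Hankel determinants and power sums
-/

set_option autoImplicit false

open scoped Classical
open Polynomial

namespace REC

namespace SP0w

/-! ## Hankel determinants -/

/-- Hankel determinants -/
noncomputable def Hk {R : Type} [CommRing R] (T : ℕ → R) (m : ℕ) : R :=
  (Matrix.of fun a b : Fin m => T ((a : ℕ) + (b : ℕ))).det

lemma Hk_map {R R' : Type} [CommRing R] [CommRing R'] (f : R →+* R') (T : ℕ → R) (m : ℕ) :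
    f (Hk T m) = Hk (fun k => f (T k)) m := by
  unfold Hk
  rw [RingHom.map_det]
  rfl

section Hankel

variable {K I : Type} [Field K] [Fintype I]

lemma HK1 (Λ : I → K) (m : ℕ) (h : (Finset.univ.image Λ).card < m) :
    Hk (fun k => ∑ i, Λ i ^ k) m = 0 := by
  unfold Hk
  rw [← Matrix.exists_mulVec_eq_zero_iff]
  set Q : K[X] := ∏ v ∈ Finset.univ.image Λ, (Polynomial.X - C v) with hQ
  have hQm : Q.Monic := monic_prod_of_monic _ _ fun v _ => monic_X_sub_C v
  have hQd : Q.natDegree = (Finset.univ.image Λ).card := by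
    rw [hQ, natDegree_prod_of_monic _ _ fun v _ => monic_X_sub_C v]
    simp
  refine ⟨fun b => Q.coeff b, ?_, ?_⟩
  · intro h0
    have h1 := congrFun h0 ⟨Q.natDegree, by rw [hQd]; exact h⟩
    rw [Pi.zero_apply] at h1
    have h2 : Q.coeff Q.natDegree = 0 := h1
    rw [hQm.coeff_natDegree] at h2
    exact one_ne_zero h2
  · funext a
    have h1 : ∀ i, Q.eval (Λ i) = 0 := by
      intro i
      rw [hQ, Polynomial.eval_prod]
      exact Finset.prod_eq_zero (Finset.mem_image_of_mem Λ (Finset.mem_univ i)) (by simp)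
    have h2 : ∀ i, Q.eval (Λ i) = ∑ b : Fin m, Q.coeff b * Λ i ^ (b : ℕ) := by
      intro i
      rw [Polynomial.eval_eq_sum_range' (n := m) (by rw [hQd]; exact h), Finset.sum_range]
    show ∑ b : Fin m, (∑ i, Λ i ^ ((a : ℕ) + (b : ℕ))) * Q.coeff b = 0
    calc ∑ b : Fin m, (∑ i, Λ i ^ ((a : ℕ) + (b : ℕ))) * Q.coeff b
        = ∑ b : Fin m, ∑ i, Λ i ^ (a : ℕ) * (Q.coeff b * Λ i ^ (b : ℕ)) := by
          refine Finset.sum_congr rfl fun b _ => ?_
          rw [Finset.sum_mul]
          refine Finset.sum_congr rfl fun i _ => ?_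
          rw [pow_add]
          ring
      _ = ∑ i, Λ i ^ (a : ℕ) * Q.eval (Λ i) := by
          rw [Finset.sum_comm]
          refine Finset.sum_congr rfl fun i _ => ?_
          rw [h2, Finset.mul_sum]
      _ = 0 := Finset.sum_eq_zero fun i _ => by rw [h1, mul_zero]

lemma HK2 [CharZero K] (Λ : I → K) :
    Hk (fun k => ∑ i, Λ i ^ k) (Finset.univ.image Λ).card ≠ 0 := by
  set s := Finset.univ.image Λ with hs
  unfold Hk
  intro h0
  rw [← Matrix.exists_mulVec_eq_zero_iff] at h0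
  obtain ⟨c, hc0, hc⟩ := h0
  set Q : K[X] := ∑ b : Fin s.card, C (c b) * Polynomial.X ^ (b : ℕ) with hQ
  have hQe : ∀ x, Q.eval x = ∑ b : Fin s.card, c b * x ^ (b : ℕ) := by
    intro x
    rw [hQ, Polynomial.eval_finsetSum]
    simp
  have h1 : ∀ a : ℕ, a < s.card → ∑ i, Λ i ^ a * Q.eval (Λ i) = 0 := by
    intro a ha
    have h2 : ∑ b : Fin s.card, (∑ i, Λ i ^ (a + (b : ℕ))) * c b = 0 := congrFun hc ⟨a, ha⟩
    rw [← h2]
    calc ∑ i, Λ i ^ a * Q.eval (Λ i) = ∑ i, ∑ b : Fin s.card, Λ i ^ (a + (b : ℕ)) * c b := by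
          refine Finset.sum_congr rfl fun i _ => ?_
          rw [hQe, Finset.mul_sum]
          refine Finset.sum_congr rfl fun b _ => ?_
          rw [pow_add]
          ring
      _ = _ := by
          rw [Finset.sum_comm]
          refine Finset.sum_congr rfl fun b _ => ?_
          rw [Finset.sum_mul]
  have h3 : ∀ P : K[X], P.natDegree < s.card → ∑ i, P.eval (Λ i) * Q.eval (Λ i) = 0 := by
    intro P hP
    calc ∑ i, P.eval (Λ i) * Q.eval (Λ i)
        = ∑ i, ∑ a ∈ Finset.range s.card, P.coeff a * (Λ i ^ a * Q.eval (Λ i)) := by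
          refine Finset.sum_congr rfl fun i _ => ?_
          rw [Polynomial.eval_eq_sum_range' hP, Finset.sum_mul]
          refine Finset.sum_congr rfl fun a _ => ?_
          ring
      _ = ∑ a ∈ Finset.range s.card, P.coeff a * ∑ i, Λ i ^ a * Q.eval (Λ i) := by
          rw [Finset.sum_comm]
          refine Finset.sum_congr rfl fun a _ => ?_
          rw [Finset.mul_sum]
      _ = 0 := Finset.sum_eq_zero fun a ha => by rw [h1 a (Finset.mem_range.1 ha), mul_zero]
  have h4 : ∀ v ∈ s, Q.eval v = 0 := by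
    intro v hv
    set P : K[X] := ∏ w ∈ s.erase v, (Polynomial.X - C w) with hP
    have hPd : P.natDegree < s.card := by
      rw [hP, natDegree_prod_of_monic _ _ fun v _ => monic_X_sub_C v]
      simp only [natDegree_X_sub_C, Finset.sum_const, smul_eq_mul, mul_one]
      exact Finset.card_erase_lt_of_mem hv
    have h5 := h3 P hPd
    have h6 : ∀ i, P.eval (Λ i) * Q.eval (Λ i) =
        if Λ i = v then P.eval v * Q.eval v else 0 := by
      intro i
      by_cases hi : Λ i = v
      · rw [if_pos hi, hi]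
      · rw [if_neg hi, hP, Polynomial.eval_prod, Finset.prod_eq_zero (i := Λ i)
          (Finset.mem_erase.2 ⟨hi, Finset.mem_image_of_mem Λ (Finset.mem_univ i)⟩) (by simp),
          zero_mul]
    rw [Finset.sum_congr rfl fun i _ => h6 i, ← Finset.sum_filter, Finset.sum_const,
      nsmul_eq_mul] at h5
    have h7 : ((Finset.univ.filter fun i => Λ i = v).card : K) ≠ 0 := by
      rw [Nat.cast_ne_zero, Finset.card_ne_zero]
      obtain ⟨i, -, hi⟩ := Finset.mem_image.1 hv
      exact ⟨i, Finset.mem_filter.2 ⟨Finset.mem_univ i, hi⟩⟩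
    have h8 : P.eval v ≠ 0 := by
      rw [hP, Polynomial.eval_prod, Finset.prod_ne_zero_iff]
      intro w hw
      rw [eval_sub, eval_X, eval_C, sub_ne_zero]
      exact (Finset.mem_erase.1 hw).1.symm
    exact ((mul_eq_zero.1 ((mul_eq_zero.1 h5).resolve_left h7)).resolve_left h8)
  have h5 : Q = 0 := by
    refine Polynomial.eq_zero_of_degree_lt_of_eval_finset_eq_zero s ?_ h4
    rw [hQ]
    refine lt_of_le_of_lt (Polynomial.degree_sum_le _ _) ?_
    rw [Finset.sup_lt_iff (by
      rw [WithBot.bot_lt_iff_ne_bot]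
      exact WithBot.coe_ne_bot)]
    intro b _
    refine lt_of_le_of_lt (Polynomial.degree_C_mul_X_pow_le _ _) ?_
    exact_mod_cast b.2
  apply hc0
  funext b
  have h6 := congrArg (fun P => P.coeff (b : ℕ)) h5
  simp only [hQ, Polynomial.finsetSum_coeff, Polynomial.coeff_C_mul, Polynomial.coeff_X_pow,
    Polynomial.coeff_zero] at h6
  rw [Finset.sum_eq_single b] at h6
  · rw [if_pos rfl, mul_one] at h6
    exact h6
  · intro b' _ hb'
    rw [if_neg, mul_zero]
    intro h
    exact hb' (Fin.ext h.symm)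
  · intro h
    exact absurd (Finset.mem_univ b) h

/-- few different values, if the Hankel determinants vanish -/
lemma le_of_Hk (Λ : I → K) (m : ℕ) (h : Hk (fun k => ∑ i, Λ i ^ k) m ≠ 0) :
    m ≤ (Finset.univ.image Λ).card := by
  by_contra hlt
  exact h (HK1 Λ m (not_le.1 hlt))

end Hankel

/-! ## Traces of powers -/

section Trace

variable {L : Type} [Field L] [IsAlgClosed L] [CharZero L] {n : ℕ}

lemma tr_pow (A : Matrix (Fin n) (Fin n) L) (k : ℕ) :
    (A ^ k).trace = (A.charpoly.roots.map fun a => a ^ k).sum := by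
  rcases Nat.eq_zero_or_pos k with rfl | hk
  · simp [hkl_card A]
  · rw [Matrix.trace_eq_sum_roots_charpoly, hkl_roots_pow A k hk]

lemma exists_eig (A : Matrix (Fin n) (Fin n) L) : ∃ α : Fin n → L,
    (∀ k, (A ^ k).trace = ∑ x, α x ^ k) ∧ ∀ x, A.charpoly.eval (α x) = 0 := by
  obtain ⟨s, hs⟩ : ∃ s : List L, (s : Multiset L) = A.charpoly.roots :=
    Quot.exists_rep A.charpoly.roots
  have hn : s.length = n := by
    rw [← Multiset.coe_card, hs, hkl_card]
  subst hn
  refine ⟨s.get, fun k => ?_, fun x => ?_⟩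
  · rw [tr_pow, ← hs]
    have h1 : (s : Multiset L) = Finset.univ.val.map s.get := by
      rw [Fin.univ_val_map, List.ofFn_get]
    rw [h1, Multiset.map_map]
    rfl
  · have h1 : s.get x ∈ A.charpoly.roots := by
      rw [← hs]
      exact List.get_mem s x
    exact (Polynomial.mem_roots'.1 h1).2

end Trace

lemma exists_comp (P : ℤ[X]) (hP : P.Monic) :
    ∃ (d : ℕ) (M : Matrix (Fin d) (Fin d) ℤ), M.charpoly = P := by
  refine ⟨_, Algebra.leftMulMatrix (AdjoinRoot.powerBasis' hP).basis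
    (AdjoinRoot.powerBasis' hP).gen, ?_⟩
  have h1 : (Algebra.leftMulMatrix (AdjoinRoot.powerBasis' hP).basis
      (AdjoinRoot.powerBasis' hP).gen).charpoly = minpoly ℤ (AdjoinRoot.powerBasis' hP).gen :=
    charpoly_leftMulMatrix (AdjoinRoot.powerBasis' hP)
  have hm := Matrix.charpoly_monic (Algebra.leftMulMatrix (AdjoinRoot.powerBasis' hP).basis
      (AdjoinRoot.powerBasis' hP).gen)
  have hd := Matrix.charpoly_natDegree_eq_dim (Algebra.leftMulMatrix
    (AdjoinRoot.powerBasis' hP).basis (AdjoinRoot.powerBasis' hP).gen)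
  refine (Polynomial.eq_of_monic_of_dvd_of_natDegree_le hP hm ?_ ?_)
  · rw [h1]
    have h2 : Polynomial.aeval (AdjoinRoot.root P) (minpoly ℤ (AdjoinRoot.root P)) = 0 :=
      minpoly.aeval _ _
    rw [AdjoinRoot.aeval_eq, AdjoinRoot.mk_eq_zero] at h2
    exact h2
  · rw [hd, Fintype.card_fin]
    exact le_of_eq rfl

lemma exists_tr (P : ℤ[X]) : ∃ t : ℕ → ℤ, ∀ (n : ℕ) (K : Type) [Field K] [IsAlgClosed K]
    [CharZero K] (A : Matrix (Fin n) (Fin n) K), A.charpoly = P.map (Int.castRingHom K) →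
    ∀ j, (A ^ j).trace = (t j : K) := by
  by_cases hP : P.Monic
  · obtain ⟨d, M, hM⟩ := exists_comp P hP
    refine ⟨fun j => (M ^ j).trace, ?_⟩
    intro n K _ _ _ A hA j
    have h1 : (((M ^ j).trace : ℤ) : K) = ((M.map (Int.castRingHom K)) ^ j).trace := by
      have h2 := RingHom.map_pow ((Int.castRingHom K).mapMatrix (m := Fin d)) M j
      rw [RingHom.mapMatrix_apply, RingHom.mapMatrix_apply] at h2
      rw [← h2]
      simp [Matrix.trace]
    rw [h1, tr_pow, tr_pow, Matrix.charpoly_map, hM, hA]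
  · refine ⟨0, ?_⟩
    intro n K _ _ _ A hA j
    exfalso
    apply hP
    have h1 := A.charpoly_monic
    rw [hA] at h1
    exact monic_of_injective (RingHom.injective_int (Int.castRingHom K)) h1

/-! ## The power sums -/

/-- the power sums -/
noncomputable def Tk {R : Type} [CommRing R] {n n' t : ℕ} (M D : ℕ) (A : Matrix (Fin n) (Fin n) R)
    (A' : Matrix (Fin n') (Fin n') R) (u : R) (δ : Fin t → R) (k : ℕ) : R :=
  ∑ e : Fin (D + 1), ∑ κ : Fin t → Fin (D + 1),
    ((A ^ (M * k)).trace + (A' ^ (M * k)).trace) * (u ^ (e : ℕ) * ∏ i, δ i ^ (κ i : ℕ)) ^ k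

lemma trace_pow_map {R R' : Type} [CommRing R] [CommRing R'] {n : ℕ} (f : R →+* R')
    (A : Matrix (Fin n) (Fin n) R) (k : ℕ) : f (A ^ k).trace = ((A.map f) ^ k).trace := by
  have h2 := RingHom.map_pow (f.mapMatrix (m := Fin n)) A k
  rw [RingHom.mapMatrix_apply, RingHom.mapMatrix_apply] at h2
  rw [← h2]
  simp [Matrix.trace, map_sum]

lemma Tk_map {R R' : Type} [CommRing R] [CommRing R'] {n n' t : ℕ} (f : R →+* R') (M D : ℕ)
    (A : Matrix (Fin n) (Fin n) R) (A' : Matrix (Fin n') (Fin n') R) (u : R) (δ : Fin t → R)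
    (k : ℕ) : f (Tk M D A A' u δ k) =
      Tk M D (A.map f) (A'.map f) (f u) (fun i => f (δ i)) k := by
  unfold Tk
  simp only [map_sum, map_mul, map_add, map_pow, map_prod, trace_pow_map]

/-- the indices of the list -/
abbrev Ix (n n' t D : ℕ) : Type := (Fin n ⊕ Fin n') × Fin (D + 1) × (Fin t → Fin (D + 1))

lemma Tk_list {R : Type} [CommRing R] {n n' t : ℕ} (M D : ℕ) (A : Matrix (Fin n) (Fin n) R)
    (A' : Matrix (Fin n') (Fin n') R) (u : R) (δ : Fin t → R) (α : Fin n → R) (α' : Fin n' → R)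
    (h : ∀ j, (A ^ j).trace = ∑ x, α x ^ j) (h' : ∀ j, (A' ^ j).trace = ∑ x, α' x ^ j) (k : ℕ) :
    Tk M D A A' u δ k = ∑ i : Ix n n' t D,
      (Sum.elim α α' i.1 ^ M * (u ^ (i.2.1 : ℕ) * ∏ j, δ j ^ (i.2.2 j : ℕ))) ^ k := by
  unfold Tk
  rw [Fintype.sum_prod_type]
  rw [Finset.sum_comm (s := (Finset.univ : Finset (Fin n ⊕ Fin n')))]
  rw [Fintype.sum_prod_type]
  refine Finset.sum_congr rfl fun e _ => Finset.sum_congr rfl fun κ _ => ?_
  rw [Fintype.sum_sum_type, h, h', add_mul, Finset.sum_mul, Finset.sum_mul]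
  congr 1
  · refine Finset.sum_congr rfl fun x _ => ?_
    show α x ^ (M * k) * (u ^ (e : ℕ) * ∏ i, δ i ^ (κ i : ℕ)) ^ k =
      (α x ^ M * (u ^ (e : ℕ) * ∏ i, δ i ^ (κ i : ℕ))) ^ k
    rw [pow_mul, ← mul_pow]
  · refine Finset.sum_congr rfl fun x _ => ?_
    show α' x ^ (M * k) * (u ^ (e : ℕ) * ∏ i, δ i ^ (κ i : ℕ)) ^ k =
      (α' x ^ M * (u ^ (e : ℕ) * ∏ i, δ i ^ (κ i : ℕ))) ^ k
    rw [pow_mul, ← mul_pow]

end SP0w

end REC
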