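import Pool.Agent.Helper78.REC.SP0A
import Pool.Agent.Helper27.REC.StmtsT2
import Pool.Agent.Helper39.REC.XDN

/-!
# Reciprocity, row SP0, part B: the prime `l₀`, density and Frobenius elements
-/

set_option autoImplicit false

open scoped Classical
open NumberField Polynomial

namespace REC

open MU

namespace SP0w

/-! ## Roots of unity -/

section Local

variable {A : Type} [CommRing A] [IsDomain A] [IsLocalRing A] [CharZero A]

omit [IsDomain A] [CharZero A] in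
lemma one_notMem : (1 : A) ∉ IsLocalRing.maximalIdeal A :=
  (Ideal.ne_top_iff_one _).1 (IsLocalRing.maximalIdeal.isMaximal A).ne_top

omit [IsDomain A] [CharZero A] in
lemma prime_eq (q q₀ : ℕ) (hq : q.Prime) (hq₀ : q₀.Prime)
    (h : (q : A) ∈ IsLocalRing.maximalIdeal A) (h₀ : (q₀ : A) ∈ IsLocalRing.maximalIdeal A) :
    q = q₀ := by
  by_contra hqq
  have h9 : IsCoprime (q : ℤ) (q₀ : ℤ) :=
    Nat.isCoprime_iff_coprime.2 ((Nat.coprime_primes hq hq₀).2 hqq)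
  obtain ⟨a, b, hab⟩ := h9
  have h10 : ((a : ℤ) : A) * (q : A) + ((b : ℤ) : A) * (q₀ : A) = 1 := by
    have := congrArg (fun z : ℤ => (z : A)) hab
    push_cast at this
    exact this
  apply one_notMem (A := A)
  rw [← h10]
  exact Ideal.add_mem _ (Ideal.mul_mem_left _ _ h) (Ideal.mul_mem_left _ _ h₀)

omit [IsDomain A] [IsLocalRing A] [CharZero A] in
lemma dvd_pow_sub {r w : A} (h : r ∣ w - 1) (k : ℕ) : r ∣ w ^ k - 1 := by
  refine h.trans ?_
  have := sub_dvd_pow_sub_pow w 1 k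
  rwa [one_pow] at this

omit [IsDomain A] [IsLocalRing A] [CharZero A] in
lemma dvd_mul_sub {r w w' : A} (h : r ∣ w - 1) (h' : r ∣ w' - 1) : r ∣ w * w' - 1 := by
  have e : w * w' - 1 = (w - 1) * w' + (w' - 1) := by ring
  rw [e]
  exact dvd_add (Dvd.dvd.mul_right h _) h'

lemma one_of_pow (q₀ : ℕ) (hq₀ : q₀.Prime) (hm : (q₀ : A) ∈ IsLocalRing.maximalIdeal A) (N : ℕ) :
    ∀ w : A, (q₀ : A) ^ 2 ∣ w - 1 → 0 < N → w ^ N = 1 → w = 1 := by
  induction N using Nat.strong_induction_on with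
  | _ N ih =>
    intro w hw hN hwN
    by_cases h1 : N = 1
    · rw [h1, pow_one] at hwN
      exact hwN
    · obtain ⟨q, hq, N', rfl⟩ := Nat.exists_prime_and_dvd h1
      have hN' : 0 < N' := by
        rcases Nat.eq_zero_or_pos N' with h | h
        · rw [h, mul_zero] at hN
          exact absurd hN (lt_irrefl 0)
        · exact h
      have h2 : (q₀ : A) ^ 2 ∣ w ^ N' - 1 := dvd_pow_sub hw N'
      have h3 : (w ^ N') ^ q = 1 := by rw [← pow_mul, mul_comm, hwN]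
      have h4 : w ^ N' = 1 := by
        by_contra hne
        have h5 : ∑ i ∈ Finset.range q, (w ^ N') ^ i = 0 := by
          have h6 := mul_geom_sum (w ^ N') q
          rw [h3, sub_self] at h6
          exact (mul_eq_zero.1 h6).resolve_left (sub_ne_zero.2 hne)
        have h6 : (q₀ : A) ^ 2 ∣ (q : A) := by
          have h7 : (q : A) = -∑ i ∈ Finset.range q, ((w ^ N') ^ i - 1) := by
            rw [Finset.sum_sub_distrib, h5]
            simp
          rw [h7, dvd_neg]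
          exact Finset.dvd_sum fun i _ => dvd_pow_sub h2 i
        have h7 : (q : A) ∈ IsLocalRing.maximalIdeal A := by
          obtain ⟨y, hy⟩ := h6
          rw [hy, pow_two, mul_assoc]
          exact Ideal.mul_mem_right _ _ hm
        have h8 := prime_eq q q₀ hq hq₀ h7 hm
        subst h8
        obtain ⟨y, hy⟩ := h6
        have h9 : (q : A) ≠ 0 := by exact_mod_cast hq.ne_zero
        have h10 : (1 : A) = q * y := by
          apply mul_left_cancel₀ h9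
          rw [mul_one, ← mul_assoc, ← pow_two]
          exact hy
        apply one_notMem (A := A)
        rw [h10]
        exact Ideal.mul_mem_right _ _ hm
      refine ih N' ?_ w hw hN' h4
      have := hq.two_le
      nlinarith

lemma eq_of_pow (q₀ : ℕ) (hq₀ : q₀.Prime) (hm : (q₀ : A) ∈ IsLocalRing.maximalIdeal A) (u v : A)
    (hu : (q₀ : A) ^ 2 ∣ u - 1) (hv : (q₀ : A) ^ 2 ∣ v - 1) (N : ℕ) (hN : 0 < N)
    (h : u ^ N = v ^ N) : u = v := by
  have h1 : IsUnit v := by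
    by_contra hv'
    have h2 : v ∈ IsLocalRing.maximalIdeal A := hv'
    obtain ⟨y, hy⟩ := hv
    apply one_notMem (A := A)
    have h3 : (1 : A) = v - q₀ * (q₀ * y) := by
      rw [← mul_assoc, ← pow_two, ← hy]
      ring
    rw [h3]
    exact Ideal.sub_mem _ h2 (Ideal.mul_mem_right _ _ hm)
  obtain ⟨v', hv'⟩ := h1.exists_right_inv
  have h2 : u * v' = 1 := by
    refine one_of_pow q₀ hq₀ hm N (u * v') ?_ hN ?_
    · have e : u * v' - 1 = ((u - 1) - (v - 1)) * v' := by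
        rw [← hv']
        ring
      rw [e]
      exact Dvd.dvd.mul_right (dvd_sub hu hv) _
    · rw [mul_pow, h, ← mul_pow, hv', one_pow]
  calc u = u * (v * v') := by rw [hv', mul_one]
    _ = (u * v') * v := by ring
    _ = v := by rw [h2, one_mul]

end Local

lemma det_dvd {A : Type} [CommRing A] {n : ℕ} (X : Matrix (Fin n) (Fin n) A) (r : A)
    (h : ∀ i j, r ∣ X i j - (1 : Matrix (Fin n) (Fin n) A) i j) : r ∣ X.det - 1 := by
  rw [← Ideal.mem_span_singleton, ← Ideal.Quotient.eq]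
  have h1 : (Ideal.Quotient.mk (Ideal.span {r})).mapMatrix X =
      (Ideal.Quotient.mk (Ideal.span {r})).mapMatrix (1 : Matrix (Fin n) (Fin n) A) := by
    ext i j
    rw [RingHom.mapMatrix_apply, RingHom.mapMatrix_apply, Matrix.map_apply, Matrix.map_apply,
      Ideal.Quotient.eq, Ideal.mem_span_singleton]
    exact h i j
  rw [RingHom.map_det, h1, ← RingHom.map_det, Matrix.det_one]

section Eig

variable {K : Type} [Field K] [CharZero K] (A : ValuationSubring K) {l : ℕ} [Fact l.Prime]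
  (ϑ : ℤ_[l] →+* A)

lemma eig_int {n : ℕ} (B C : Matrix (Fin n) (Fin n) ℤ_[l]) (hB : B = 1 + (l : ℤ_[l]) ^ 2 • C)
    (a : K) (ha : (B.map (A.subtype.comp ϑ)).charpoly.eval a = 0) :
    ∃ z : A, (z : K) = a ∧ (l : A) ^ 2 ∣ z - 1 := by
  have hl : (l : K) ≠ 0 := by
    rw [Nat.cast_ne_zero]
    exact (Fact.out : l.Prime).ne_zero
  set g : ℤ_[l] →+* K := A.subtype.comp ϑ with hg
  set c := (a - 1) / (l : K) ^ 2 with hc
  have hac : a = 1 + (l : K) ^ 2 * c := by rw [hc]; field_simp; ring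
  have h3 : (Matrix.scalar (Fin n) a - B.map g).det = 0 := by
    rw [← Matrix.eval_charpoly]
    exact ha
  have h4 : Matrix.scalar (Fin n) a - B.map g =
      (l : K) ^ 2 • (Matrix.scalar (Fin n) c - C.map g) := by
    rw [hB]
    ext i j
    rw [Matrix.sub_apply, Matrix.map_apply, Matrix.add_apply, Matrix.smul_apply, Matrix.smul_apply,
      Matrix.sub_apply, Matrix.map_apply, map_add, smul_eq_mul, map_mul, map_pow, map_natCast]
    by_cases hij : i = j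
    · subst hij
      simp only [Matrix.scalar_apply, Matrix.diagonal_apply_eq, Matrix.one_apply_eq, map_one,
        smul_eq_mul]
      rw [hac]
      ring
    · simp only [Matrix.scalar_apply, Matrix.diagonal_apply_ne _ hij, Matrix.one_apply_ne hij,
        map_zero, smul_eq_mul]
      ring
  rw [h4, Matrix.det_smul] at h3
  have h5 : (Matrix.scalar (Fin n) c - C.map g).det = 0 := by
    rcases mul_eq_zero.1 h3 with h | h
    · exact absurd h (pow_ne_zero _ (pow_ne_zero _ hl))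
    · exact h
  have h6 : IsIntegral A c := by
    refine ⟨(C.map ϑ).charpoly, (C.map ϑ).charpoly_monic, ?_⟩
    rw [← Matrix.eval_charpoly] at h5
    have h7 : C.map g = (C.map ϑ).map A.subtype := by
      ext i j
      rfl
    rw [h7, Matrix.charpoly_map, Polynomial.eval_map] at h5
    exact h5
  obtain ⟨y, hy⟩ := IsIntegrallyClosed.isIntegral_iff.1 h6
  refine ⟨1 + (l : A) ^ 2 * y, ?_, ⟨y, by ring⟩⟩
  have hy' : (y : K) = c := hy
  push_cast
  rw [hy', ← hac]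

end Eig

lemma ne_of_gt {L : Type} [Field L] [NumberField L] (z : 𝓞 L) (hz0 : z ≠ 0) (l : ℕ)
    (hlp : l.Prime) (hcl : Ideal.absNorm (Ideal.span {z}) < l) {Ω : Type} [Field Ω]
    (ι : 𝓞 L →+* Ω) (hl : (l : Ω) = 0) : ι z ≠ 0 := by
  intro hz
  have h1 : Ideal.absNorm (Ideal.span {z}) ≠ 0 := by
    rw [Ne, Ideal.absNorm_eq_zero_iff, Ideal.span_singleton_eq_bot]
    exact hz0
  have h2 : ((Ideal.absNorm (Ideal.span {z}) : ℕ) : 𝓞 L) ∈ Ideal.span {z} :=
    Ideal.absNorm_mem _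
  rw [Ideal.mem_span_singleton] at h2
  obtain ⟨y, hy⟩ := h2
  have h3 : ((Ideal.absNorm (Ideal.span {z}) : ℕ) : Ω) = 0 := by
    rw [← map_natCast ι, hy, map_mul, hz, zero_mul]
  have h5 : Nat.Coprime l (Ideal.absNorm (Ideal.span {z})) := by
    rw [Nat.Prime.coprime_iff_not_dvd hlp]
    intro hd
    exact absurd (Nat.le_of_dvd (Nat.pos_of_ne_zero h1) hd) (not_le.2 hcl)
  obtain ⟨a, b, hab⟩ := Nat.isCoprime_iff_coprime.2 h5
  have h7 := congrArg (fun z : ℤ => (z : Ω)) hab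
  push_cast at h7
  rw [h3, hl, mul_zero, mul_zero, add_zero] at h7
  exact zero_ne_one h7

/-! ## The power sums of families -/

section Fam

variable {F L : Type} [Field F] [NumberField F] [Field L] [NumberField L] {t : ℕ}
  {n₂ m : Fin t → ℕ} {n n' : ℕ}

/-- the power sums at `g` -/
noncomputable def Tp (B : Fml F n) (B' : Fml F n') (M D : ℕ) {l : ℕ} [Fact l.Prime] {R : Type}
    [CommRing R] (ϑ : ℤ_[l] →+* R) (RR : ∀ i, Gal F →* Matrix (Fin (m i)) (Fin (m i)) R)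
    (g : Gal F) (k : ℕ) : R :=
  Tk M D ((B l g : Matrix (Fin n) (Fin n) ℤ_[l]).map ϑ)
    ((B' l g : Matrix (Fin n') (Fin n') ℤ_[l]).map ϑ) (cyv ϑ g) (fun i => (RR i g).det) k

lemma FRO (hCYC : ST_CYC) (b : ∀ i, Blo (n₂ i) (m i) L) (ρ : ∀ i, Fml F (n₂ i)) (S : Finset ℕ)
    (B : Fml F n) (B' : Fml F n') (hfam : IsFam S B) (hfam' : IsFam S B')
    (hCmp : ∀ i, (b i).Cmp S (ρ i)) (M D p : ℕ) (hp : p.Prime) (hpS : p ∉ S) (𝔓 : Ideal (Zb F))
    (hov : Over p 𝔓) (k : ℕ) (σ : Gal F) (hk : 1 ≤ k) (hc : CongPow 𝔓 (p ^ k) σ) :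
    ∃ τ : ℕ → 𝓞 L, ∀ (l : ℕ) [Fact l.Prime], l ≠ p → ∀ (Ω : Type) [Field Ω] [IsAlgClosed Ω]
      [CharZero Ω] (ϑ : ℤ_[l] →+* Ω) (ι : 𝓞 L →+* Ω)
      (R : ∀ i, Gal F →* Matrix (Fin (m i)) (Fin (m i)) Ω), (∀ i, (b i).At (ρ i l) ϑ ι (R i)) →
      ∀ j, Tp B B' M D ϑ R σ⁻¹ j = ι (τ j) := by
  obtain ⟨P, hP⟩ := hfam.2 p hp hpS 𝔓 hov k σ hk hc
  obtain ⟨P', hP'⟩ := hfam'.2 p hp hpS 𝔓 hov k σ hk hc
  choose Φ hΦ using fun i => hCmp i p hp hpS 𝔓 hov k σ hk hc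
  obtain ⟨tt, htt⟩ := exists_tr P
  obtain ⟨tt', htt'⟩ := exists_tr P'
  refine ⟨fun j => ∑ e : Fin (D + 1), ∑ κ : Fin t → Fin (D + 1),
    (((tt (M * j) : ℤ) : 𝓞 L) + ((tt' (M * j) : ℤ) : 𝓞 L)) * (((p : 𝓞 L) ^ k) ^ (e : ℕ) *
      ∏ i, ((-1) ^ m i * (Φ i).coeff 0) ^ (κ i : ℕ)) ^ j, ?_⟩
  intro l _ hlp Ω _ _ _ ϑ ι R hR j
  have h1 : ∀ j, (((B l σ⁻¹ : Matrix (Fin n) (Fin n) ℤ_[l]).map ϑ) ^ j).trace = ((tt j : ℤ) : Ω) :=
    htt n Ω _ (by
      rw [Matrix.charpoly_map, hP l hlp, Polynomial.map_map]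
      congr 1
      exact RingHom.ext_int _ _)
  have h2 : ∀ j, (((B' l σ⁻¹ : Matrix (Fin n') (Fin n') ℤ_[l]).map ϑ) ^ j).trace =
      ((tt' j : ℤ) : Ω) :=
    htt' n' Ω _ (by
      rw [Matrix.charpoly_map, hP' l hlp, Polynomial.map_map]
      congr 1
      exact RingHom.ext_int _ _)
  have h3 : cyv ϑ σ⁻¹ = (p : Ω) ^ k := by
    unfold cyv
    rw [inv_inv, hCYC F F l p hp (fun h => hlp h.symm) 𝔓 hov k σ hc, map_pow, map_natCast]
  have h4 : ∀ i, (R i σ⁻¹).det = ι ((-1) ^ m i * (Φ i).coeff 0) := by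
    intro i
    rw [Matrix.det_eq_sign_charpoly_coeff, hΦ i l hlp Ω ϑ ι (R i) (hR i), Polynomial.coeff_map,
      Fintype.card_fin, map_mul, map_pow, map_neg, map_one]
  unfold Tp Tk
  simp only [h1, h2, h3, h4, map_sum, map_mul, map_add, map_pow, map_prod, map_intCast,
    map_natCast]

/-! ## Density -/

/-- the ranks of the representations -/
def nn (n₂ : Fin t → ℕ) (n n' : ℕ) : Option (Option (Fin t)) → ℕ
  | none => n
  | some none => n'
  | some (some i) => n₂ i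

/-- the representations -/
noncomputable def rr (ρ : ∀ i, Fml F (n₂ i)) (B : Fml F n) (B' : Fml F n') (l : ℕ) [Fact l.Prime] :
    ∀ i : Option (Option (Fin t)), Gal F →* Matrix.GeneralLinearGroup (Fin (nn n₂ n n' i)) ℤ_[l]
  | none => B l
  | some none => B' l
  | some (some i) => ρ i l

lemma DEN (hXDM : ST_XDM) (b : ∀ i, Blo (n₂ i) (m i) L) (ρ : ∀ i, Fml F (n₂ i)) (B : Fml F n)
    (B' : Fml F n') (l : ℕ) [Fact l.Prime] (hρ : ∀ i, Continuous (ρ i l)) (hB : Continuous (B l))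
    (hB' : Continuous (B' l)) (Ω : Type) [Field Ω] [CharZero Ω] (ϑ : ℤ_[l] →+* Ω)
    (ι : 𝓞 L →+* Ω) (R : ∀ i, Gal F →* Matrix (Fin (m i)) (Fin (m i)) Ω)
    (hR : ∀ i, (b i).At (ρ i l) ϑ ι (R i)) (M D m₁ : ℕ) (g : Gal F)
    (hg : Hk (Tp B B' M D ϑ R g) m₁ ≠ 0) (S : Finset ℕ) :
    ∃ (p : ℕ) (𝔓 : Ideal (Zb F)) (k : ℕ) (σ : Gal F), p.Prime ∧ p ∉ S ∧ Over p 𝔓 ∧ 1 ≤ k ∧
      CongPow 𝔓 (p ^ k) σ ∧ Hk (Tp B B' M D ϑ R σ⁻¹) m₁ ≠ 0 := by
  by_contra hno
  push Not at hno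
  apply hg
  set 𝒢 : Set (Gal F → Ω) := {f : Gal F → Ω | ∃ (i : Option (Option (Fin t)))
      (x y : Fin (nn n₂ n n' i)), f = fun g =>
          ϑ ((rr ρ B B' l i g : Matrix (Fin (nn n₂ n n' i)) (Fin (nn n₂ n n' i)) ℤ_[l]) x y)} ∪
        {f : Gal F → Ω | f = fun g => cyv ϑ g} with h𝒢
  let 𝒜 : Subalgebra Ω (Gal F → Ω) := Algebra.adjoin Ω 𝒢
  let ev : Gal F → (𝒜 →+* Ω) := fun g => (Pi.evalRingHom (fun _ => Ω) g).comp 𝒜.val.toRingHom
  have hev : ∀ (g : Gal F) (f : 𝒜), ev g f = (f : Gal F → Ω) g := fun g f => rfl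
  let Bt : Matrix (Fin n) (Fin n) 𝒜 := Matrix.of fun x y =>
    ⟨fun g => ϑ ((B l g : Matrix (Fin n) (Fin n) ℤ_[l]) x y),
      Algebra.subset_adjoin (Or.inl ⟨none, x, y, rfl⟩)⟩
  let Bt' : Matrix (Fin n') (Fin n') 𝒜 := Matrix.of fun x y =>
    ⟨fun g => ϑ ((B' l g : Matrix (Fin n') (Fin n') ℤ_[l]) x y),
      Algebra.subset_adjoin (Or.inl ⟨some none, x, y, rfl⟩)⟩
  let ρt : ∀ i, Matrix (Fin (n₂ i)) (Fin (n₂ i)) 𝒜 := fun i => Matrix.of fun x y =>
    ⟨fun g => ϑ ((ρ i l g : Matrix (Fin (n₂ i)) (Fin (n₂ i)) ℤ_[l]) x y),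
      Algebra.subset_adjoin (Or.inl ⟨some (some i), x, y, rfl⟩)⟩
  let ut : 𝒜 := ⟨fun g => cyv ϑ g, Algebra.subset_adjoin (Or.inr rfl)⟩
  let Rt : ∀ i, Matrix (Fin (m i)) (Fin (m i)) 𝒜 := fun i =>
    algebraMap Ω 𝒜 ((b i).N : Ω)⁻¹ • (((b i).P.map ι).map (algebraMap Ω 𝒜) * ρt i *
      ((b i).Q.map ι).map (algebraMap Ω 𝒜))
  have e1 : ∀ g, Bt.map (ev g) = (B l g : Matrix (Fin n) (Fin n) ℤ_[l]).map ϑ := fun g => rfl
  have e2 : ∀ g, Bt'.map (ev g) = (B' l g : Matrix (Fin n') (Fin n') ℤ_[l]).map ϑ := fun g => rfl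
  have e3 : ∀ g, ev g ut = cyv ϑ g := fun g => rfl
  have e4 : ∀ g i, (ρt i).map (ev g) =
    (ρ i l g : Matrix (Fin (n₂ i)) (Fin (n₂ i)) ℤ_[l]).map ϑ := fun g i => rfl
  have e5 : ∀ (g : Gal F) (z : Ω), ev g (algebraMap Ω 𝒜 z) = z := fun g z => rfl
  have e6 : ∀ g i, ev g (Rt i).det = (R i g).det := by
    intro g i
    rw [RingHom.map_det, RingHom.mapMatrix_apply]
    congr 1
    have h1 : (Rt i).map (ev g) = ((b i).N : Ω)⁻¹ • ((b i).P.map ι *
        (ρ i l g : Matrix (Fin (n₂ i)) (Fin (n₂ i)) ℤ_[l]).map ϑ * (b i).Q.map ι) := by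
      show (algebraMap Ω 𝒜 ((b i).N : Ω)⁻¹ • (((b i).P.map ι).map (algebraMap Ω 𝒜) * ρt i *
        ((b i).Q.map ι).map (algebraMap Ω 𝒜))).map (ev g) = _
      rw [Matrix.map_smul' _ _ _ (map_mul _), Matrix.map_mul, Matrix.map_mul, e4, e5]
      rfl
    rw [h1, ← xb_F1 (hR i) g]
  set ft : 𝒜 := Hk (Tk M D Bt Bt' ut (fun i => (Rt i).det)) m₁ with hft
  have e7 : ∀ g, (ft : Gal F → Ω) g = Hk (Tp B B' M D ϑ R g) m₁ := by
    intro g
    rw [← hev, hft, Hk_map]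
    congr 1
    funext k
    rw [Tk_map, e1, e2, e3]
    unfold Tp
    congr 1
    funext i
    exact e6 g i
  have h1 := hXDM F l (Option (Option (Fin t))) (nn n₂ n n') (rr ρ B B' l) (by
    intro i
    match i with
    | none => exact hB
    | some none => exact hB'
    | some (some i) => exact hρ i) Ω ϑ (ft : Gal F → Ω) ft.2 S (by
    intro p 𝔓 k σ hp hpS hov hk hc
    rw [e7]
    exact hno p 𝔓 k σ hp hpS hov hk hc)
  rw [← e7]
  exact h1 g

end Fam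

end SP0w

end REC
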