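import Pool.Agent.Helper85.REC.Stmts9
import Pool.Agent.Helper39.MU.BNS
import Pool.Agent.Helper84.MU.CYC

/-!
# SYM: a motive of odd rank, irreducible at `l`, is orthogonal at `l`
-/

set_option autoImplicit false

open scoped Classical
open NumberField Polynomial

namespace Pool.Agent.Helper78.REC.SYM

open MU

/-- the trace of the inverse matrix -/
theorem trinv {R : Type} [CommRing R] [Nontrivial R] {n : ℕ} (hn : 0 < n)
    (A B : Matrix (Fin n) (Fin n) R) (h : A * B = 1) :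
    A.charpoly.coeff 0 * B.trace = -A.charpoly.coeff 1 := by
  have hne : Nonempty (Fin n) := ⟨⟨0, hn⟩⟩
  have hu : IsUnit A.det := by
    have h1 := congrArg Matrix.det h
    rw [Matrix.det_mul, Matrix.det_one] at h1
    exact IsUnit.of_mul_eq_one _ h1
  have hA : IsUnit A := (Matrix.isUnit_iff_isUnit_det A).mpr hu
  have hB : A⁻¹ = B := Matrix.inv_eq_right_inv h
  have h1 := Matrix.charpoly_inv A hA
  rw [hB, Fintype.card_fin] at h1
  have h2 := congrArg (fun f : R[X] => f.coeff (n - 1)) h1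
  have h3 := Matrix.trace_eq_neg_charpoly_coeff B
  rw [Fintype.card_fin] at h3
  have h4 : A.charpolyRev.coeff (n - 1) = A.charpoly.coeff 1 := by
    rw [← Matrix.reverse_charpoly, Polynomial.coeff_reverse, Matrix.charpoly_natDegree_eq_dim,
      Fintype.card_fin, Polynomial.revAt_le (by omega)]
    congr 1
    omega
  have h5 : ((-1 : R[X]) ^ n * C (Ring.inverse A.det) * A.charpolyRev).coeff (n - 1) =
      (-1) ^ n * Ring.inverse A.det * A.charpoly.coeff 1 := by
    have h6 : (-1 : R[X]) ^ n * C (Ring.inverse A.det) * A.charpolyRev =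
        C ((-1) ^ n * Ring.inverse A.det) * A.charpolyRev := by
      simp only [map_mul, map_pow, map_neg, map_one]
    rw [h6, Polynomial.coeff_C_mul, h4]
  rw [h5] at h2
  have h7 := Matrix.det_eq_sign_charpoly_coeff A
  rw [Fintype.card_fin] at h7
  have h8 : A.det * Ring.inverse A.det = 1 := Ring.mul_inverse_cancel _ hu
  have h9 : ((-1 : R) ^ n) * ((-1 : R) ^ n) = 1 := by
    rw [← pow_add, ← two_mul, pow_mul]
    norm_num
  have h10 : A.charpoly.coeff 0 = (-1) ^ n * A.det := by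
    rw [h7, ← mul_assoc, h9, one_mul]
  rw [h3, h2, h10]
  linear_combination (-A.charpoly.coeff 1 * ((-1 : R) ^ n) * ((-1 : R) ^ n)) * h8 -
    A.charpoly.coeff 1 * h9

/-- the functional equation -/
theorem palin (P : ℤ[X]) (n : ℕ) (hn : 0 < n) (hP : P.Monic) (hd : P.natDegree = n) (Q : ℕ)
    (hQ : 0 < Q) (hr : ∀ z : ℂ, (P.map (Int.castRingHom ℂ)).IsRoot z → ‖z‖ ^ 2 = (Q : ℝ)) :
    P.coeff 1 * (Q : ℤ) = P.coeff 0 * P.coeff (n - 1) := by
  set f : ℂ[X] := P.map (Int.castRingHom ℂ) with hf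
  have hfm : f.Monic := hP.map _
  have hfd : f.natDegree = n := by rw [hf, hP.natDegree_map, hd]
  have hQ' : (Q : ℂ) ≠ 0 := Nat.cast_ne_zero.mpr hQ.ne'
  have hf0 : f.eval 0 ≠ 0 := by
    intro h0
    have h1 := hr 0 h0
    rw [norm_zero, zero_pow two_ne_zero] at h1
    have h2 : (0 : ℝ) < Q := Nat.cast_pos.mpr hQ
    linarith
  have hsp : f.Splits := IsAlgClosed.splits f
  have h1 := hsp.eval_derivative_div_eval_of_ne_zero hf0
  have h2 : f.derivative.eval 0 = f.coeff 1 := by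
    rw [← Polynomial.coeff_zero_eq_eval_zero, Polynomial.coeff_derivative]
    simp
  have h3 : f.eval 0 = f.coeff 0 := (Polynomial.coeff_zero_eq_eval_zero f).symm
  have h4 := hsp.nextCoeff_eq_neg_sum_roots_of_monic hfm
  have h5 : f.nextCoeff = f.coeff (n - 1) := by
    rw [Polynomial.nextCoeff_of_natDegree_pos (by rw [hfd]; exact hn), hfd]
  have h6 : (f.roots.map fun z => 1 / (0 - z)) =
      f.roots.map fun z => (-(Q : ℂ)⁻¹) * (starRingEnd ℂ) z := by
    refine Multiset.map_congr rfl fun z hz => ?_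
    have hz1 : f.IsRoot z := (Polynomial.mem_roots'.mp hz).2
    have hz2 := hr z hz1
    have hz3 : z * (starRingEnd ℂ) z = (Q : ℂ) := by
      rw [Complex.mul_conj, Complex.normSq_eq_norm_sq, hz2]
      simp
    have hz0 : z ≠ 0 := by
      rintro rfl
      rw [zero_mul] at hz3
      exact hQ' hz3.symm
    rw [zero_sub, ← hz3, mul_inv]
    have hc : (starRingEnd ℂ) z ≠ 0 := by
      intro h0
      rw [h0, mul_zero] at hz3
      exact hQ' hz3.symm
    field_simp
  have h7 : (f.roots.map fun z => (-(Q : ℂ)⁻¹) * (starRingEnd ℂ) z).sum =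
      (-(Q : ℂ)⁻¹) * (starRingEnd ℂ) f.roots.sum := by
    rw [Multiset.sum_map_mul_left, map_multiset_sum]
  have h8 : f.roots.sum = -((P.coeff (n - 1) : ℤ) : ℂ) := by
    have : f.coeff (n - 1) = ((P.coeff (n - 1) : ℤ) : ℂ) := by
      rw [hf, Polynomial.coeff_map]
      simp
    rw [← this, ← h5, h4, neg_neg]
  rw [h6, h7, h8, map_neg, h2, h3] at h1
  have h9 : (starRingEnd ℂ) ((P.coeff (n - 1) : ℤ) : ℂ) = ((P.coeff (n - 1) : ℤ) : ℂ) := by
    simp
  rw [h9] at h1
  have h10 : f.coeff 1 = ((P.coeff 1 : ℤ) : ℂ) := by rw [hf, Polynomial.coeff_map]; simp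
  have h11 : f.coeff 0 = ((P.coeff 0 : ℤ) : ℂ) := by rw [hf, Polynomial.coeff_map]; simp
  rw [h3, h11] at hf0
  rw [h10, h11, div_eq_iff hf0] at h1
  have h12 : ((P.coeff 1 : ℤ) : ℂ) * (Q : ℂ) = ((P.coeff 0 : ℤ) : ℂ) * ((P.coeff (n - 1) : ℤ) : ℂ) := by
    rw [h1]
    field_simp
  exact_mod_cast h12

/-- `ψ` is nondegenerate -/
theorem nondeg {G K : Type} [Group G] [Field K] {n : ℕ} (r : G →* Matrix (Fin n) (Fin n) K)
    (hr : IsIrr r) (ψ : Matrix (Fin n) (Fin n) K) (ν : G → K)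
    (h : ∀ g, (r g).transpose * ψ * r g = ν g • ψ) (h0 : ψ ≠ 0) : ψ.det ≠ 0 := by
  intro hd
  obtain ⟨v, hv, hv2⟩ := Matrix.exists_mulVec_eq_zero_iff.mpr hd
  have hst : ∀ g, ∀ v ∈ LinearMap.ker ψ.mulVecLin, (r g).mulVec v ∈ LinearMap.ker ψ.mulVecLin := by
    intro g v hv
    rw [LinearMap.mem_ker, Matrix.mulVecLin_apply] at hv ⊢
    have e1 : (r g).transpose.mulVec (ψ.mulVec ((r g).mulVec v)) = 0 := by
      rw [Matrix.mulVec_mulVec, Matrix.mulVec_mulVec, h g, Matrix.smul_mulVec, hv, smul_zero]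
    have e2 : (r g⁻¹).transpose * (r g).transpose = 1 := by
      rw [← Matrix.transpose_mul, ← map_mul, mul_inv_cancel, map_one, Matrix.transpose_one]
    have e3 := congrArg (fun u => (r g⁻¹).transpose.mulVec u) e1
    simp only [Matrix.mulVec_mulVec, Matrix.mulVec_zero] at e3
    rw [← Matrix.mul_assoc, ← Matrix.mul_assoc, e2, Matrix.one_mul] at e3
    rw [Matrix.mulVec_mulVec]
    exact e3
  rcases irr_stable hr _ hst with h3 | h3
  · have h4 : v ∈ LinearMap.ker ψ.mulVecLin := by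
      rw [LinearMap.mem_ker, Matrix.mulVecLin_apply]
      exact hv2
    rw [h3, Submodule.mem_bot] at h4
    exact hv h4
  · apply h0
    refine Matrix.ext_of_mulVec_single fun i => ?_
    have h4 : (Pi.single i 1 : Fin n → K) ∈ LinearMap.ker ψ.mulVecLin := by
      rw [h3]; exact Submodule.mem_top
    rw [LinearMap.mem_ker, Matrix.mulVecLin_apply] at h4
    rw [h4, Matrix.zero_mulVec]

/-- open normal subgroups of the absolute Galois group -/
theorem exists_openNormal (F : Type) [Field F] [NumberField F] (U : Set (Gal F)) (hU : IsOpen U)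
    (h1 : (1 : Gal F) ∈ U) : ∃ Y : Subgroup (Gal F), Y.Normal ∧ IsOpen (Y : Set (Gal F)) ∧
      (Y : Set (Gal F)) ⊆ U := by
  obtain ⟨H, hH⟩ := ProfiniteGrp.exist_openNormalSubgroup_sub_open_nhds_of_one hU h1
  exact ⟨H.toSubgroup, H.isNormal', H.isOpen', hH⟩

variable {F : Type} [Field F] [NumberField F] {S : Finset ℕ} {n w : ℕ} {h : Fin n → ℕ}

theorem trace_frob (M : Mot F S n w h) (hn : 0 < n) (l : ℕ) [Fact l.Prime] (p : ℕ) (hp : p.Prime)
    (hpS : p ∉ S) (hpl : p ≠ l) (𝔓 : Ideal (Zb F)) (hP : Over p 𝔓) (k : ℕ) (hk : 1 ≤ k)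
    (σ : Gal F) (hσ : CongPow 𝔓 (p ^ k) σ) :
    ((M.ρ l σ⁻¹ : Matrix.GeneralLinearGroup (Fin n) ℤ_[l]) : Matrix (Fin n) (Fin n) ℤ_[l]).trace =
      ((cyc l F σ : ℤ_[l]ˣ) : ℤ_[l]) ^ w *
        ((M.ρ l σ : Matrix.GeneralLinearGroup (Fin n) ℤ_[l]) : Matrix (Fin n) (Fin n) ℤ_[l]).trace := by
  obtain ⟨P, hroot, hchar⟩ := M.pure p hp hpS 𝔓 hP k σ hk hσ
  set A : Matrix (Fin n) (Fin n) ℤ_[l] :=
    ((M.ρ l σ⁻¹ : Matrix.GeneralLinearGroup (Fin n) ℤ_[l]) : Matrix (Fin n) (Fin n) ℤ_[l]) with hA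
  set B : Matrix (Fin n) (Fin n) ℤ_[l] :=
    ((M.ρ l σ : Matrix.GeneralLinearGroup (Fin n) ℤ_[l]) : Matrix (Fin n) (Fin n) ℤ_[l]) with hB
  have hAB : A * B = 1 := by
    rw [hA, hB, ← Units.val_mul, ← map_mul, inv_mul_cancel, map_one, Units.val_one]
  have hc := hchar l (Ne.symm hpl)
  have hinj : Function.Injective (Int.castRingHom ℤ_[l]) := (Int.castRingHom ℤ_[l]).injective_int
  have hPm : P.Monic := by
    have := A.charpoly_monic
    rw [hc] at this
    exact (hinj.monic_map_iff).mpr this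
  have hPd : P.natDegree = n := by
    have := A.charpoly_natDegree_eq_dim
    rw [hc, hPm.natDegree_map, Fintype.card_fin] at this
    exact this
  have hpal := palin P n hn hPm hPd (p ^ (k * w)) (pow_pos hp.pos _) (by
    intro z hz
    rw [hroot z hz]
    push_cast
    rfl)
  have htr := trinv hn A B hAB
  have hne : Nonempty (Fin n) := ⟨⟨0, hn⟩⟩
  have htA := Matrix.trace_eq_neg_charpoly_coeff A
  rw [Fintype.card_fin] at htA
  rw [hc] at htr htA
  simp only [Polynomial.coeff_map, eq_intCast] at htr htA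
  have hpal' : ((P.coeff 1 : ℤ) : ℤ_[l]) * ((p : ℤ_[l]) ^ (k * w)) =
      ((P.coeff 0 : ℤ) : ℤ_[l]) * ((P.coeff (n - 1) : ℤ) : ℤ_[l]) := by
    have := congrArg (Int.cast : ℤ → ℤ_[l]) hpal
    push_cast at this
    exact this
  have hcy := st_CYC F F l p hp hpl 𝔓 hP k σ hσ
  have h0 : ((P.coeff 0 : ℤ) : ℤ_[l]) ≠ 0 := by
    intro h0
    have hdet := Matrix.det_eq_sign_charpoly_coeff A
    rw [hc, Polynomial.coeff_map, eq_intCast, h0, mul_zero] at hdet
    have h1 := congrArg Matrix.det hAB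
    rw [Matrix.det_mul, hdet, zero_mul, Matrix.det_one] at h1
    exact zero_ne_one h1
  apply mul_left_cancel₀ h0
  rw [hcy, ← pow_mul]
  linear_combination ((P.coeff 0 : ℤ) : ℤ_[l]) * htA - (p : ℤ_[l]) ^ (k * w) * htr + hpal'

theorem trace_all (hFRB : ST_FRB) (M : Mot F S n w h) (hn : 0 < n) (l : ℕ) [Fact l.Prime]
    (g : Gal F) :
    ((M.ρ l g⁻¹ : Matrix.GeneralLinearGroup (Fin n) ℤ_[l]) : Matrix (Fin n) (Fin n) ℤ_[l]).trace =
      ((cyc l F g : ℤ_[l]ˣ) : ℤ_[l]) ^ w *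
        ((M.ρ l g : Matrix.GeneralLinearGroup (Fin n) ℤ_[l]) : Matrix (Fin n) (Fin n) ℤ_[l]).trace := by
  by_contra hne
  let f : Gal F → ℤ_[l] := fun g =>
    ((M.ρ l g⁻¹ : Matrix.GeneralLinearGroup (Fin n) ℤ_[l]) : Matrix (Fin n) (Fin n) ℤ_[l]).trace -
      ((cyc l F g : ℤ_[l]ˣ) : ℤ_[l]) ^ w *
        ((M.ρ l g : Matrix.GeneralLinearGroup (Fin n) ℤ_[l]) : Matrix (Fin n) (Fin n) ℤ_[l]).trace
  have hc1 : Continuous fun g : Gal F => ((M.ρ l g : Matrix.GeneralLinearGroup (Fin n) ℤ_[l]) :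
      Matrix (Fin n) (Fin n) ℤ_[l]).trace :=
    (Units.continuous_val.comp (M.continuous l)).matrix_trace
  have hc2 : Continuous fun g : Gal F => ((cyc l F g : ℤ_[l]ˣ) : ℤ_[l]) :=
    Units.continuous_val.comp (cyclotomicCharacter.continuous l F (AlgebraicClosure F))
  have hf : Continuous f := (hc1.comp continuous_inv).sub ((hc2.pow w).mul hc1)
  let V : Set (Gal F) := (fun σ => g * σ) ⁻¹' {σ | f σ ≠ 0}
  have hVo : IsOpen V :=
    IsOpen.preimage (continuous_const.mul continuous_id) (isOpen_ne_fun hf continuous_const)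
  have hV1 : (1 : Gal F) ∈ V := by
    show f (g * 1) ≠ 0
    rw [mul_one]
    exact sub_ne_zero.mpr hne
  obtain ⟨Y, hYn, hYo, hYV⟩ := exists_openNormal F V hVo hV1
  obtain ⟨p, 𝔓, k, σ, hp, hpS, hover, hk, hcong, hσ⟩ := hFRB F Y hYn hYo (insert l S) g
  simp only [Finset.mem_insert, not_or] at hpS
  have h1 := hYV hσ
  have h2 : f (g * (g⁻¹ * σ)) ≠ 0 := h1
  rw [← mul_assoc, mul_inv_cancel, one_mul] at h2
  exact h2 (sub_eq_zero.mpr (trace_frob M hn l p hp hpS.2 hpS.1 𝔓 hover k hk σ hcong))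

end Pool.Agent.Helper78.REC.SYM

namespace Pool.Agent.Helper78.REC

open SYM MU

theorem st_SYM : ST_FRB → _root_.REC.ST_SYM := by
  intro hFRB F _ _ S _ n w h M hodd l _ hirr
  have hn : 0 < n := hodd.pos
  let r := rat (M.ρ l)
  let cy : Gal F → ℚ_[l] := fun g => ((((cyc l F g)⁻¹ : ℤ_[l]ˣ) : ℤ_[l]) : ℚ_[l]) ^ w
  have hcy1 : cy 1 = 1 := by
    simp only [cy, map_one, inv_one, Units.val_one, PadicInt.coe_one, one_pow]
  have hcym : ∀ g g', cy (g * g') = cy g * cy g' := by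
    intro g g'
    simp only [cy, map_mul, mul_inv, Units.val_mul, PadicInt.coe_mul, mul_pow]
  have hcyi : ∀ g, cy g * ((((cyc l F g : ℤ_[l]ˣ) : ℤ_[l]) : ℚ_[l]) ^ w) = 1 := by
    intro g
    simp only [cy]
    rw [← mul_pow, ← PadicInt.coe_mul, ← Units.val_mul, inv_mul_cancel, Units.val_one,
      PadicInt.coe_one, one_pow]
  let s : Gal F →* Matrix (Fin n) (Fin n) ℚ_[l] :=
    { toFun := fun g => cy g • (r g⁻¹).transpose
      map_one' := by
        simp only [inv_one, map_one, Matrix.transpose_one, hcy1, one_smul]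
      map_mul' := by
        intro g g'
        simp only [mul_inv_rev, map_mul, Matrix.transpose_mul, hcym, Matrix.smul_mul,
          Matrix.mul_smul, smul_smul]
        rw [mul_comm (cy g) (cy g')] }
  have hs : ∀ g, s g = cy g • (r g⁻¹).transpose := fun g => rfl
  have hrat : ∀ g, (r g).trace =
      ((((M.ρ l g : Matrix.GeneralLinearGroup (Fin n) ℤ_[l]) :
        Matrix (Fin n) (Fin n) ℤ_[l]).trace : ℤ_[l]) : ℚ_[l]) := by
    intro g
    have h1 : r g = ((M.ρ l g : Matrix.GeneralLinearGroup (Fin n) ℤ_[l]) :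
      Matrix (Fin n) (Fin n) ℤ_[l]).map (algebraMap ℤ_[l] ℚ_[l]) := rfl
    rw [h1]
    simp only [Matrix.trace, Matrix.diag_apply, Matrix.map_apply]
    rw [← map_sum]
    rfl
  have htr : ∀ g, (r g).trace = (s g).trace := by
    intro g
    rw [hs, Matrix.trace_smul, Matrix.trace_transpose, hrat, hrat, trace_all hFRB M hn l g,
      smul_eq_mul, PadicInt.coe_mul, PadicInt.coe_pow, ← mul_assoc, hcyi, one_mul]
  obtain ⟨u, hu⟩ := st_BNS (Gal F) ℚ_[l] n r s hirr htr
  have hrel : ∀ g, (r g).transpose * (u : Matrix (Fin n) (Fin n) ℚ_[l]) * r g =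
      cy g • (u : Matrix (Fin n) (Fin n) ℚ_[l]) := by
    intro g
    rw [Matrix.mul_assoc, hu g, hs, Matrix.smul_mul, Matrix.mul_smul, ← Matrix.mul_assoc,
      ← Matrix.transpose_mul, ← map_mul, inv_mul_cancel, map_one, Matrix.transpose_one,
      Matrix.one_mul]
  have hrel' : ∀ g, (r g).transpose * (u : Matrix (Fin n) (Fin n) ℚ_[l]).transpose * r g =
      cy g • (u : Matrix (Fin n) (Fin n) ℚ_[l]).transpose := by
    intro g
    have h1 := congrArg Matrix.transpose (hrel g)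
    rw [Matrix.transpose_mul, Matrix.transpose_mul, Matrix.transpose_transpose,
      Matrix.transpose_smul, ← Matrix.mul_assoc] at h1
    exact h1
  let ψ : Matrix (Fin n) (Fin n) ℚ_[l] :=
    (u : Matrix (Fin n) (Fin n) ℚ_[l]) + (u : Matrix (Fin n) (Fin n) ℚ_[l]).transpose
  have hψ : ∀ g, (r g).transpose * ψ * r g = cy g • ψ := by
    intro g
    simp only [ψ]
    rw [Matrix.mul_add, Matrix.add_mul, hrel, hrel', smul_add]
  have hψ0 : ψ ≠ 0 := by
    intro h0
    have h1 : (u : Matrix (Fin n) (Fin n) ℚ_[l]).transpose =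
        -(u : Matrix (Fin n) (Fin n) ℚ_[l]) := by
      have h2 : (u : Matrix (Fin n) (Fin n) ℚ_[l]) +
        (u : Matrix (Fin n) (Fin n) ℚ_[l]).transpose = 0 := h0
      rw [add_comm] at h2
      exact eq_neg_of_add_eq_zero_left h2
    have h2 := congrArg Matrix.det h1
    rw [Matrix.det_transpose, Matrix.det_neg, Fintype.card_fin, hodd.neg_one_pow] at h2
    have h3 : (u : Matrix (Fin n) (Fin n) ℚ_[l]).det ≠ 0 :=
      ((Matrix.isUnit_iff_isUnit_det _).mp u.isUnit).ne_zero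
    have h4 : (2 : ℚ_[l]) * (u : Matrix (Fin n) (Fin n) ℚ_[l]).det = 0 := by
      linear_combination h2
    rcases mul_eq_zero.mp h4 with h5 | h5
    · exact two_ne_zero h5
    · exact h3 h5
  refine ⟨ψ, nondeg r hirr ψ cy hψ hψ0, ?_, hψ⟩
  simp only [ψ]
  rw [Matrix.transpose_add, Matrix.transpose_transpose, add_comm]

end Pool.Agent.Helper78.REC
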